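import Pool.Agent.Lib.MCP.Defs

/-!
# Module Sqc: squarefree values along a polynomial, concentration

`c2 = 6/π²`. `sq_int`: `μ(N)² = ∑_{d² ∣ N} μ(d)` (`P4f18df.sum_moebius_sq`), `d ≤ √(h+y) =: z`; the number of `n ≤ y` with `d² ∣ n + h` is `y/d² + O(1)` (`P4f18df.card_dvd_Ioc_abs`); `P4f18df.moebius_sq_tail z`: total `≤ z + 2y/(z+1) ≤ 3 √(h+y) + ...`.
`conc`: for `N = n + P(i)` write `μ(N)² = ∑_{d ≤ z, d² ∣ N} μ(d) + Err(N)`, `|Err(N)| ≤ #{d > z : d² ∣ N}`.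
(1) For `d ≤ z`: `d² ∣ (z!)² ∣ a_l` (`l ≥ 1`), so `n + P(i) ≡ n + a_0 i (mod d²)`, and `a_0` is invertible mod `d²`: the condition `d² ∣ n + P(i)` is one residue class of `i` mod `d²`. The counting function `A(t) = #{i ≤ t in the class}` is `t/d² + O(1)`, so by Abel summation
`|∑_{i ≤ D} c_i² ([i in the class] - 1/d²)| ≤ 1·(c_D² + ∑ |c_{i+1}² - c_i²|) ≤ 1 + V`. Sum over `d ≤ z`: `(1+V) z`; and `|∑_{d ≤ z} μ(d)/d² - c2| ∑ c_i² ≤ 2D/(z+1)`.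
(2) `∑_{n ≤ y} ∑_{i ≤ D} #{d > z : d² ∣ n + P(i)} ≤ ∑_i ∑_{z < d ≤ √xx} (y/d² + 1) ≤ D (y/z + √xx)` (`n + P(i) ≤ xx`; `∑_{d > z} 1/d² ≤ 1/z`).
-/

set_option autoImplicit false

open Finset Filter

namespace Pool.Agent.MCP

open Pool.Agent.P4f18df

namespace SqcAux

lemma mobs (d : ℕ) : |(ArithmeticFunction.moebius d : ℝ)| ≤ 1 := by
  exact_mod_cast ArithmeticFunction.abs_moebius_le_one

lemma sqf (N z w : ℕ) (hN : 0 < N) (hw : N < (w + 1) ^ 2) :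
    |(ArithmeticFunction.moebius N : ℝ) ^ 2 -
      ∑ d ∈ Ioc 0 z, (if d ^ 2 ∣ N then (ArithmeticFunction.moebius d : ℝ) else 0)| ≤
      ∑ d ∈ Ioc z w, (if d ^ 2 ∣ N then (1 : ℝ) else 0) := by
  have h1 : (ArithmeticFunction.moebius N : ℝ) ^ 2 =
      ∑ d ∈ Ioc 0 (N + z), (if d ^ 2 ∣ N then (ArithmeticFunction.moebius d : ℝ) else 0) := by
    have h2 := sum_moebius_sq (n := N) (M := N + z) hN (by omega)
    have h3 : (ArithmeticFunction.moebius N : ℤ) ^ 2 = if Squarefree N then 1 else 0 := by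
      by_cases h : Squarefree N
      · rw [if_pos h]
        exact ArithmeticFunction.moebius_sq_eq_one_of_squarefree h
      · rw [if_neg h, ArithmeticFunction.moebius_eq_zero_of_not_squarefree h]
        norm_num
    rw [← h3] at h2
    have h4 : (((ArithmeticFunction.moebius N : ℤ) ^ 2 : ℤ) : ℝ) =
        ((∑ d ∈ (Ioc 0 (N + z)).filter (fun d => d ^ 2 ∣ N),
          (ArithmeticFunction.moebius d : ℤ) : ℤ) : ℝ) := by rw [h2]
    push_cast at h4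
    rw [h4, Finset.sum_filter]
  have h5 := Finset.sum_Ioc_consecutive
    (fun d => if d ^ 2 ∣ N then (ArithmeticFunction.moebius d : ℝ) else 0)
    (Nat.zero_le z) (show z ≤ N + z by omega)
  rw [h1, ← h5, add_sub_cancel_left]
  refine (Finset.abs_sum_le_sum_abs _ _).trans ?_
  have h6 : ∀ d ∈ Ioc z (N + z), |(if d ^ 2 ∣ N then (ArithmeticFunction.moebius d : ℝ) else 0)| ≤
      (if d ^ 2 ∣ N then (1 : ℝ) else 0) := by
    intro d _
    split_ifs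
    · exact mobs d
    · simp
  refine (Finset.sum_le_sum h6).trans ?_
  rw [← Finset.sum_filter, ← Finset.sum_filter]
  refine Finset.sum_le_sum_of_subset_of_nonneg ?_ fun _ _ _ => zero_le_one
  intro d hd
  rw [mem_filter, mem_Ioc] at hd ⊢
  refine ⟨⟨hd.1.1, ?_⟩, hd.2⟩
  have h7 := Nat.le_of_dvd hN hd.2
  have h8 : d ^ 2 < (w + 1) ^ 2 := lt_of_le_of_lt h7 hw
  have h9 : d < w + 1 := lt_of_pow_lt_pow_left₀ 2 (by omega) h8
  omega

lemma cnt (h y v : ℕ) (hv : 0 < v) :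
    |∑ n ∈ Icc 1 y, (if v ∣ n + h then (1 : ℝ) else 0) - (y : ℝ) / v| ≤ 1 := by
  have h1 := card_dvd_Ioc_abs h y v hv
  have h2 : ∑ n ∈ Icc 1 y, (if v ∣ n + h then (1 : ℝ) else 0) =
      (((Ioc h (h + y)).filter (fun n => v ∣ n)).card : ℝ) := by
    rw [← Finset.sum_filter, sum_const, nsmul_eq_mul, mul_one]
    congr 1
    refine Finset.card_bij (fun n _ => n + h) ?_ ?_ ?_
    · intro n hn
      rw [mem_filter, mem_Icc] at hn
      rw [mem_filter, mem_Ioc]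
      exact ⟨⟨by omega, by omega⟩, hn.2⟩
    · intro a _ b _ hab
      omega
    · intro b hb
      rw [mem_filter, mem_Ioc] at hb
      refine ⟨b - h, ?_, by omega⟩
      rw [mem_filter, mem_Icc]
      refine ⟨⟨by omega, by omega⟩, ?_⟩
      rw [Nat.sub_add_cancel (by omega)]
      exact hb.2
  rw [h2]
  exact h1

/-- Abel summation -/
lemma abel (f e : ℕ → ℝ) (D : ℕ) : ∑ i ∈ Icc 1 D, f i * e i =
    f (D + 1) * (∑ i ∈ Icc 1 D, e i) - ∑ i ∈ Icc 1 D, (f (i + 1) - f i) * ∑ j ∈ Icc 1 i, e j := by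
  induction D with
  | zero => simp
  | succ D ih =>
    rw [Finset.sum_Icc_succ_top (by omega) (fun i => f i * e i), ih,
      Finset.sum_Icc_succ_top (by omega) (fun i => (f (i + 1) - f i) * ∑ j ∈ Icc 1 i, e j),
      Finset.sum_Icc_succ_top (by omega) e]
    ring

lemma abel_le (c e : ℕ → ℝ) (D : ℕ) (V : ℝ) (hc : ∀ i, |c i| ≤ 1)
    (hV : ∑ i ∈ Icc 1 D, |c (i + 1) ^ 2 - c i ^ 2| ≤ V)
    (he : ∀ t, |∑ i ∈ Icc 1 t, e i| ≤ 1) : |∑ i ∈ Icc 1 D, c i ^ 2 * e i| ≤ 1 + V := by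
  rw [abel (fun i => c i ^ 2) e D]
  have h1 : |c (D + 1) ^ 2 * ∑ i ∈ Icc 1 D, e i| ≤ 1 := by
    rw [abs_mul]
    have h2 : |c (D + 1) ^ 2| ≤ 1 := by
      rw [abs_pow]
      exact pow_le_one₀ (abs_nonneg _) (hc _)
    exact mul_le_one₀ h2 (abs_nonneg _) (he D)
  have h3 : |∑ i ∈ Icc 1 D, (c (i + 1) ^ 2 - c i ^ 2) * ∑ j ∈ Icc 1 i, e j| ≤ V := by
    refine (Finset.abs_sum_le_sum_abs _ _).trans (le_trans (Finset.sum_le_sum fun i _ => ?_) hV)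
    rw [abs_mul]
    exact mul_le_of_le_one_right (abs_nonneg _) (he i)
  exact (abs_sub _ _).trans (add_le_add h1 h3)

lemma pl_class {m : ℕ} (a : Fin m → ℕ) (z : ℕ) (h0 : ∀ l : Fin m, l.val = 0 → (a l).Coprime z.factorial)
    (h1 : ∀ l : Fin m, l.val ≠ 0 → z.factorial ^ 2 ∣ a l) (hm : 1 ≤ m) (d : ℕ) (hd : 1 ≤ d)
    (hdz : d ≤ z) (n : ℕ) : ∃ r : ℕ, ∀ i, d ^ 2 ∣ n + pl a i ↔ d ^ 2 ∣ i + r := by
  obtain ⟨m, rfl⟩ : ∃ k, m = k + 1 := ⟨m - 1, by omega⟩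
  have hdf : d ∣ z.factorial := Nat.dvd_factorial hd hdz
  have hcop : (a 0).Coprime (d ^ 2) :=
    Nat.Coprime.pow_right 2 (Nat.Coprime.coprime_dvd_right hdf (h0 0 rfl))
  have hne : NeZero (d ^ 2) := ⟨by positivity⟩
  let u := ZMod.unitOfCoprime (a 0) hcop
  refine ⟨((n : ZMod (d ^ 2)) * ((u⁻¹ : (ZMod (d ^ 2))ˣ) : ZMod (d ^ 2))).val, fun i => ?_⟩
  rw [← ZMod.natCast_eq_zero_iff, ← ZMod.natCast_eq_zero_iff]
  have h2 : ((pl a i : ℕ) : ZMod (d ^ 2)) = (a 0 : ZMod (d ^ 2)) * i := by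
    unfold pl
    rw [Fin.sum_univ_succ]
    push_cast
    have h3 : ∑ l : Fin m, (a l.succ : ZMod (d ^ 2)) * (i : ZMod (d ^ 2)) ^ (l.succ.val + 1) = 0 := by
      refine Finset.sum_eq_zero fun l _ => ?_
      have h4 : (d ^ 2) ∣ a l.succ :=
        (pow_dvd_pow_of_dvd hdf 2).trans (h1 l.succ (by rw [Fin.val_succ]; omega))
      rw [(ZMod.natCast_eq_zero_iff _ _).2 h4, zero_mul]
    rw [h3]
    simp
  have hu : (a 0 : ZMod (d ^ 2)) = (u : ZMod (d ^ 2)) := (ZMod.coe_unitOfCoprime _ _).symm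
  rw [Nat.cast_add, Nat.cast_add, h2, ZMod.natCast_val, ZMod.cast_id', id, hu]
  constructor
  · intro h
    have h5 : ((u⁻¹ : (ZMod (d ^ 2))ˣ) : ZMod (d ^ 2)) * ((n : ZMod (d ^ 2)) + u * i) = 0 := by
      rw [h, mul_zero]
    rw [mul_add, Units.inv_mul_cancel_left] at h5
    rw [← h5]
    ring
  · intro h
    have h5 : (u : ZMod (d ^ 2)) * ((i : ZMod (d ^ 2)) +
        n * ((u⁻¹ : (ZMod (d ^ 2))ˣ) : ZMod (d ^ 2))) = 0 := by
      rw [h, mul_zero]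
    have h6 : (u : ZMod (d ^ 2)) * ((i : ZMod (d ^ 2)) +
        n * ((u⁻¹ : (ZMod (d ^ 2))ˣ) : ZMod (d ^ 2))) =
        (u : ZMod (d ^ 2)) * i + n * ((u : ZMod (d ^ 2)) * ((u⁻¹ : (ZMod (d ^ 2))ˣ) : ZMod (d ^ 2))) := by
      ring
    rw [h6, Units.mul_inv, mul_one] at h5
    rw [← h5]
    ring

end SqcAux

open SqcAux

theorem sq_int : ∃ C : ℝ, 1 ≤ C ∧ ∀ h y : ℕ,
    |∑ n ∈ Icc 1 y, (ArithmeticFunction.moebius (n + h) : ℝ) ^ 2 - c2 * y| ≤ C * Real.sqrt (h + y + 1) := by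
  refine ⟨5, by norm_num, fun h y => ?_⟩
  obtain ⟨z, hz⟩ : ∃ z, z = Nat.sqrt (h + y) := ⟨_, rfl⟩
  have hz1 : h + y < (z + 1) ^ 2 := by rw [hz]; exact Nat.lt_succ_sqrt' _
  have hz2 : z ^ 2 ≤ h + y := by rw [hz]; exact Nat.sqrt_le' _
  obtain ⟨s, hs⟩ : ∃ s : ℝ, s = Real.sqrt (h + y + 1) := ⟨_, rfl⟩
  have hs0 : (0 : ℝ) ≤ (h : ℝ) + y + 1 := by positivity
  have hzs : (z : ℝ) ≤ s := by
    rw [hs]
    refine Real.le_sqrt_of_sq_le ?_
    have h1 : ((z ^ 2 : ℕ) : ℝ) ≤ ((h + y : ℕ) : ℝ) := by exact_mod_cast hz2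
    push_cast at h1
    linarith only [h1]
  have hs1 : 1 ≤ s := by
    rw [hs, Real.one_le_sqrt]
    have : (0 : ℝ) ≤ (h : ℝ) + y := by positivity
    linarith only [this]
  have h1 : ∀ n ∈ Icc 1 y, (ArithmeticFunction.moebius (n + h) : ℝ) ^ 2 =
      ∑ d ∈ Ioc 0 z, (if d ^ 2 ∣ n + h then (ArithmeticFunction.moebius d : ℝ) else 0) := by
    intro n hn
    rw [mem_Icc] at hn
    have h2 := sqf (n + h) z z (by omega) (by omega)
    rw [Ioc_self, sum_empty] at h2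
    have h3 := abs_nonneg ((ArithmeticFunction.moebius (n + h) : ℝ) ^ 2 -
      ∑ d ∈ Ioc 0 z, (if d ^ 2 ∣ n + h then (ArithmeticFunction.moebius d : ℝ) else 0))
    exact sub_eq_zero.1 (abs_eq_zero.1 (le_antisymm h2 h3))
  rw [Finset.sum_congr rfl h1, Finset.sum_comm]
  have h2 : ∑ d ∈ Ioc 0 z, ∑ n ∈ Icc 1 y,
      (if d ^ 2 ∣ n + h then (ArithmeticFunction.moebius d : ℝ) else 0) - c2 * y =
      ∑ d ∈ Ioc 0 z, (ArithmeticFunction.moebius d : ℝ) *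
        (∑ n ∈ Icc 1 y, (if d ^ 2 ∣ n + h then (1 : ℝ) else 0) - (y : ℝ) / (d : ℝ) ^ 2) +
      y * (∑ d ∈ Ioc 0 z, (ArithmeticFunction.moebius d : ℝ) / (d : ℝ) ^ 2 - c2) := by
    have h3 : ∑ d ∈ Ioc 0 z, (ArithmeticFunction.moebius d : ℝ) *
        (∑ n ∈ Icc 1 y, (if d ^ 2 ∣ n + h then (1 : ℝ) else 0) - (y : ℝ) / (d : ℝ) ^ 2) =
        ∑ d ∈ Ioc 0 z, ∑ n ∈ Icc 1 y,
          (if d ^ 2 ∣ n + h then (ArithmeticFunction.moebius d : ℝ) else 0) -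
        y * ∑ d ∈ Ioc 0 z, (ArithmeticFunction.moebius d : ℝ) / (d : ℝ) ^ 2 := by
      rw [Finset.mul_sum, ← Finset.sum_sub_distrib]
      refine Finset.sum_congr rfl fun d _ => ?_
      rw [mul_sub, Finset.mul_sum]
      congr 1
      · refine Finset.sum_congr rfl fun n _ => ?_
        split_ifs <;> simp
      · ring
    rw [h3]
    ring
  rw [h2]
  have h3 : |∑ d ∈ Ioc 0 z, (ArithmeticFunction.moebius d : ℝ) *
      (∑ n ∈ Icc 1 y, (if d ^ 2 ∣ n + h then (1 : ℝ) else 0) - (y : ℝ) / (d : ℝ) ^ 2)| ≤ z := by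
    refine (Finset.abs_sum_le_sum_abs _ _).trans ?_
    have h4 : ∀ d ∈ Ioc 0 z, |(ArithmeticFunction.moebius d : ℝ) *
        (∑ n ∈ Icc 1 y, (if d ^ 2 ∣ n + h then (1 : ℝ) else 0) - (y : ℝ) / (d : ℝ) ^ 2)| ≤ 1 := by
      intro d hd
      rw [mem_Ioc] at hd
      rw [abs_mul]
      have h5 := cnt h y (d ^ 2) (by have := hd.1; positivity)
      push_cast at h5
      exact mul_le_one₀ (mobs d) (abs_nonneg _) h5
    refine (Finset.sum_le_sum h4).trans ?_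
    simp
  have h4 : |y * (∑ d ∈ Ioc 0 z, (ArithmeticFunction.moebius d : ℝ) / (d : ℝ) ^ 2 - c2)| ≤
      2 * (z + 1) := by
    rw [abs_mul, Nat.abs_cast]
    refine (mul_le_mul_of_nonneg_left (moebius_sq_tail z) (Nat.cast_nonneg y)).trans ?_
    rw [mul_div_assoc', div_le_iff₀ (by positivity)]
    have h5 : ((h + y : ℕ) : ℝ) < (((z + 1) ^ 2 : ℕ) : ℝ) := by exact_mod_cast hz1
    push_cast at h5
    have h6 : (0 : ℝ) ≤ h := Nat.cast_nonneg h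
    nlinarith only [h5, h6]
  refine (abs_add_le _ _).trans ?_
  rw [← hs]
  linarith only [h3, h4, hzs, hs1]

theorem conc : ∃ C : ℝ, 1 ≤ C ∧ ∀ (m z D y xx : ℕ) (a : Fin m → ℕ) (c : ℕ → ℝ) (V : ℝ), 1 ≤ z → 0 ≤ V →
    (∀ l : Fin m, l.val = 0 → (a l).Coprime z.factorial) → (∀ l : Fin m, l.val ≠ 0 → z.factorial ^ 2 ∣ a l) → 1 ≤ m →
    (∀ i, |c i| ≤ 1) → ∑ i ∈ Icc 1 D, |c (i + 1) ^ 2 - c i ^ 2| ≤ V → (∀ i ∈ Icc 1 D, pl a i + y ≤ xx) →
    ∑ n ∈ Icc 1 y, |∑ i ∈ Icc 1 D, c i ^ 2 * (ArithmeticFunction.moebius (n + pl a i) : ℝ) ^ 2 - c2 * ∑ i ∈ Icc 1 D, c i ^ 2| ≤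
      C * (y * ((1 + V) * z + D / z) + D * Real.sqrt xx) := by
  refine ⟨3, by norm_num, ?_⟩
  intro m z D y xx a c V hz hV ha0 ha1 hm hc hcV hxx
  obtain ⟨w, hw⟩ : ∃ w, w = Nat.sqrt xx := ⟨_, rfl⟩
  have hw1 : xx < (w + 1) ^ 2 := by rw [hw]; exact Nat.lt_succ_sqrt' _
  have hw2 : (w : ℝ) ≤ Real.sqrt xx := by
    refine Real.le_sqrt_of_sq_le ?_
    have h1 : w ^ 2 ≤ xx := by rw [hw]; exact Nat.sqrt_le' _
    exact_mod_cast h1
  have hz0 : (0 : ℝ) < z := by exact_mod_cast hz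
  have hc2 : ∀ i, |c i ^ 2| ≤ 1 := fun i => by
    rw [abs_pow]
    exact pow_le_one₀ (abs_nonneg _) (hc _)
  -- one value of `n`
  have key : ∀ n ∈ Icc 1 y, |∑ i ∈ Icc 1 D, c i ^ 2 *
      (ArithmeticFunction.moebius (n + pl a i) : ℝ) ^ 2 - c2 * ∑ i ∈ Icc 1 D, c i ^ 2| ≤
      (∑ i ∈ Icc 1 D, ∑ d ∈ Ioc z w, (if d ^ 2 ∣ n + pl a i then (1 : ℝ) else 0)) +
        (1 + V) * z + 2 * (D / z) := by
    intro n hn
    rw [mem_Icc] at hn
    have e1 : ∑ i ∈ Icc 1 D, c i ^ 2 * (ArithmeticFunction.moebius (n + pl a i) : ℝ) ^ 2 -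
        c2 * ∑ i ∈ Icc 1 D, c i ^ 2 =
        (∑ i ∈ Icc 1 D, c i ^ 2 * ((ArithmeticFunction.moebius (n + pl a i) : ℝ) ^ 2 -
          ∑ d ∈ Ioc 0 z, (if d ^ 2 ∣ n + pl a i then (ArithmeticFunction.moebius d : ℝ) else 0))) +
        (∑ d ∈ Ioc 0 z, (ArithmeticFunction.moebius d : ℝ) *
          ∑ i ∈ Icc 1 D, c i ^ 2 * ((if d ^ 2 ∣ n + pl a i then (1 : ℝ) else 0) - 1 / (d : ℝ) ^ 2)) +
        (∑ d ∈ Ioc 0 z, (ArithmeticFunction.moebius d : ℝ) / (d : ℝ) ^ 2 - c2) *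
          ∑ i ∈ Icc 1 D, c i ^ 2 := by
      have e2 : ∑ i ∈ Icc 1 D, c i ^ 2 * ((ArithmeticFunction.moebius (n + pl a i) : ℝ) ^ 2 -
          ∑ d ∈ Ioc 0 z, (if d ^ 2 ∣ n + pl a i then (ArithmeticFunction.moebius d : ℝ) else 0)) =
          ∑ i ∈ Icc 1 D, c i ^ 2 * (ArithmeticFunction.moebius (n + pl a i) : ℝ) ^ 2 -
          ∑ d ∈ Ioc 0 z, ∑ i ∈ Icc 1 D, c i ^ 2 *
            (if d ^ 2 ∣ n + pl a i then (ArithmeticFunction.moebius d : ℝ) else 0) := by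
        rw [Finset.sum_comm (s := Ioc 0 z), ← Finset.sum_sub_distrib]
        refine Finset.sum_congr rfl fun i _ => ?_
        rw [mul_sub, Finset.mul_sum]
      have e3 : ∑ d ∈ Ioc 0 z, (ArithmeticFunction.moebius d : ℝ) *
          ∑ i ∈ Icc 1 D, c i ^ 2 * ((if d ^ 2 ∣ n + pl a i then (1 : ℝ) else 0) - 1 / (d : ℝ) ^ 2) =
          ∑ d ∈ Ioc 0 z, ∑ i ∈ Icc 1 D, c i ^ 2 *
            (if d ^ 2 ∣ n + pl a i then (ArithmeticFunction.moebius d : ℝ) else 0) -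
          (∑ d ∈ Ioc 0 z, (ArithmeticFunction.moebius d : ℝ) / (d : ℝ) ^ 2) *
            ∑ i ∈ Icc 1 D, c i ^ 2 := by
        rw [Finset.sum_mul, ← Finset.sum_sub_distrib]
        refine Finset.sum_congr rfl fun d _ => ?_
        rw [Finset.mul_sum, Finset.mul_sum, ← Finset.sum_sub_distrib]
        refine Finset.sum_congr rfl fun i _ => ?_
        split_ifs <;> ring
      rw [e2, e3]
      ring
    rw [e1]
    have b1 : |∑ i ∈ Icc 1 D, c i ^ 2 * ((ArithmeticFunction.moebius (n + pl a i) : ℝ) ^ 2 -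
        ∑ d ∈ Ioc 0 z, (if d ^ 2 ∣ n + pl a i then (ArithmeticFunction.moebius d : ℝ) else 0))| ≤
        ∑ i ∈ Icc 1 D, ∑ d ∈ Ioc z w, (if d ^ 2 ∣ n + pl a i then (1 : ℝ) else 0) := by
      refine (Finset.abs_sum_le_sum_abs _ _).trans (Finset.sum_le_sum fun i hi => ?_)
      rw [abs_mul]
      have h1 := hxx i hi
      exact (mul_le_of_le_one_left (abs_nonneg _) (hc2 i)).trans
        (sqf (n + pl a i) z w (by omega) (by omega))
    have b2 : |∑ d ∈ Ioc 0 z, (ArithmeticFunction.moebius d : ℝ) *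
        ∑ i ∈ Icc 1 D, c i ^ 2 *
          ((if d ^ 2 ∣ n + pl a i then (1 : ℝ) else 0) - 1 / (d : ℝ) ^ 2)| ≤ (1 + V) * z := by
      refine (Finset.abs_sum_le_sum_abs _ _).trans ?_
      have h1 : ∀ d ∈ Ioc 0 z, |(ArithmeticFunction.moebius d : ℝ) *
          ∑ i ∈ Icc 1 D, c i ^ 2 *
            ((if d ^ 2 ∣ n + pl a i then (1 : ℝ) else 0) - 1 / (d : ℝ) ^ 2)| ≤ 1 + V := by
        intro d hd
        rw [mem_Ioc] at hd
        rw [abs_mul]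
        refine (mul_le_of_le_one_left (abs_nonneg _) (mobs d)).trans ?_
        refine abel_le c _ D V hc hcV fun t => ?_
        obtain ⟨r, hr⟩ := pl_class a z ha0 ha1 hm d hd.1 hd.2 n
        have h2 : ∑ i ∈ Icc 1 t, ((if d ^ 2 ∣ n + pl a i then (1 : ℝ) else 0) - 1 / (d : ℝ) ^ 2) =
            ∑ i ∈ Icc 1 t, (if d ^ 2 ∣ i + r then (1 : ℝ) else 0) - (t : ℝ) / ((d ^ 2 : ℕ) : ℝ) := by
          rw [Finset.sum_sub_distrib, sum_const, nsmul_eq_mul, Nat.card_Icc, Nat.add_sub_cancel]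
          congr 1
          · refine Finset.sum_congr rfl fun i _ => ?_
            simp only [hr i]
          · push_cast
            ring
        rw [h2]
        exact cnt r t (d ^ 2) (by have := hd.1; positivity)
      refine (Finset.sum_le_sum h1).trans ?_
      rw [sum_const, nsmul_eq_mul, Nat.card_Ioc, Nat.sub_zero, mul_comm]
    have b3 : |(∑ d ∈ Ioc 0 z, (ArithmeticFunction.moebius d : ℝ) / (d : ℝ) ^ 2 - c2) *
        ∑ i ∈ Icc 1 D, c i ^ 2| ≤ 2 * (D / z) := by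
      rw [abs_mul]
      have h1 : |∑ i ∈ Icc 1 D, c i ^ 2| ≤ D := by
        refine (Finset.abs_sum_le_sum_abs _ _).trans ((Finset.sum_le_sum fun i _ => hc2 i).trans ?_)
        simp
      have h2 : (2 : ℝ) / (z + 1) ≤ 2 / z :=
        div_le_div_of_nonneg_left (by norm_num) hz0 (by linarith only)
      refine (mul_le_mul ((moebius_sq_tail z).trans h2) h1 (abs_nonneg _) (by positivity)).trans
        (le_of_eq ?_)
      ring
    refine (abs_add_three _ _ _).trans ?_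
    linarith only [b1, b2, b3]
  refine (Finset.sum_le_sum key).trans ?_
  rw [Finset.sum_add_distrib, Finset.sum_add_distrib, sum_const, sum_const, nsmul_eq_mul,
    nsmul_eq_mul, Nat.card_Icc, Nat.add_sub_cancel]
  have b4 : ∑ n ∈ Icc 1 y, ∑ i ∈ Icc 1 D, ∑ d ∈ Ioc z w,
      (if d ^ 2 ∣ n + pl a i then (1 : ℝ) else 0) ≤ D * (y / z + Real.sqrt xx) := by
    rw [Finset.sum_comm]
    have h1 : ∀ i ∈ Icc 1 D, ∑ n ∈ Icc 1 y, ∑ d ∈ Ioc z w,
        (if d ^ 2 ∣ n + pl a i then (1 : ℝ) else 0) ≤ y / z + Real.sqrt xx := by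
      intro i _
      rw [Finset.sum_comm]
      have h2 : ∀ d ∈ Ioc z w, ∑ n ∈ Icc 1 y, (if d ^ 2 ∣ n + pl a i then (1 : ℝ) else 0) ≤
          y * ((d : ℝ) ^ 2)⁻¹ + 1 := by
        intro d hd
        rw [mem_Ioc] at hd
        have h3 := (abs_le.1 (cnt (pl a i) y (d ^ 2) (by have h0 : 0 < d := (by omega); positivity))).2
        push_cast at h3
        rw [← div_eq_mul_inv]
        linarith only [h3]
      refine (Finset.sum_le_sum h2).trans ?_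
      rw [Finset.sum_add_distrib, ← Finset.mul_sum, sum_const, nsmul_eq_mul, mul_one,
        Nat.card_Ioc]
      rcases le_or_gt z w with h4 | h4
      · have h5 := sum_Ioc_inv_sq_le_sub (α := ℝ) (k := z) (n := w) (by omega) h4
        have h6 : (0 : ℝ) ≤ (w : ℝ)⁻¹ := by positivity
        have h7 : ∑ d ∈ Ioc z w, ((d : ℝ) ^ 2)⁻¹ ≤ (z : ℝ)⁻¹ := by linarith only [h5, h6]
        have h8 : (y : ℝ) * ∑ d ∈ Ioc z w, ((d : ℝ) ^ 2)⁻¹ ≤ y / z := by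
          rw [div_eq_mul_inv]
          exact mul_le_mul_of_nonneg_left h7 (Nat.cast_nonneg y)
        have h9 : ((w - z : ℕ) : ℝ) ≤ Real.sqrt xx :=
          (Nat.cast_le.2 (Nat.sub_le w z)).trans hw2
        linarith only [h8, h9]
      · rw [Ioc_eq_empty (by omega), sum_empty, mul_zero, zero_add]
        have h9 : ((w - z : ℕ) : ℝ) ≤ Real.sqrt xx :=
          (Nat.cast_le.2 (Nat.sub_le w z)).trans hw2
        have h10 : (0 : ℝ) ≤ y / z := by positivity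
        linarith only [h9, h10]
    refine (Finset.sum_le_sum h1).trans ?_
    rw [sum_const, nsmul_eq_mul, Nat.card_Icc, Nat.add_sub_cancel]
  have h5 : (0 : ℝ) ≤ y * ((1 + V) * z) := by positivity
  have h6 : (0 : ℝ) ≤ D * Real.sqrt xx := by positivity
  have h7 : (D : ℝ) * (y / z) = y * (D / z) := by ring
  have h8 : (D : ℝ) * (y / z + Real.sqrt xx) = y * (D / z) + D * Real.sqrt xx := by
    rw [mul_add, h7]
  rw [h8] at b4
  nlinarith only [b4, h5, h6]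

end Pool.Agent.MCP
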