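import Pool.Agent.Lib.P4f18dfC.MoM

/-!
# Module DLaw: the discrete law from its moments

`P4f18dfC.mom_law δ` gives `K`. The measure `ν = (1/y) ∑_{n ∈ Icc 1 y} dirac (f n)` (e.g. `((Icc 1 y).sum fun n => ((y : ENNReal)⁻¹) • Measure.dirac (f n))`) is a probability measure, all powers are integrable, `∫ x^k dν = (∑ f n ^ k)/y` (`integral_finset_sum_measure`, `integral_smul_measure`, `integral_dirac`),
`cdf ν t = ν.real (Iic t) = #{n : f n ≤ t}/y` (`ProbabilityTheory.cdf_eq_real`).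
-/

set_option autoImplicit false

open Finset Filter MeasureTheory ProbabilityTheory

namespace Pool.Agent.MCP

open Pool.Agent.P4f18dfT

namespace DLawAux

open Classical in
theorem key (y : ℕ) (f : ℕ → ℝ) (hy : 1 ≤ y) :
    ∃ ν : Measure ℝ, IsProbabilityMeasure ν ∧ (∀ g : ℝ → ℝ, Integrable g ν) ∧
      (∀ g : ℝ → ℝ, ∫ x, g x ∂ν = (∑ n ∈ Icc 1 y, g (f n)) / y) ∧
      ∀ t : ℝ, ν.real (Set.Iic t) = (((Icc 1 y).filter (fun n => f n ≤ t)).card : ℝ) / y := by
  have hy0 : (y : ENNReal) ≠ 0 := by exact_mod_cast (by omega : y ≠ 0)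
  have hyr : (0 : ℝ) < y := by exact_mod_cast hy
  have hc : ((y : ENNReal)⁻¹) ≠ ⊤ := ENNReal.inv_ne_top.2 hy0
  have hcr : ((y : ENNReal)⁻¹).toReal = (y : ℝ)⁻¹ := by
    rw [ENNReal.toReal_inv, ENNReal.toReal_natCast]
  refine ⟨∑ n ∈ Icc 1 y, (y : ENNReal)⁻¹ • Measure.dirac (f n), ?_, ?_, ?_, ?_⟩
  · constructor
    rw [Measure.finsetSum_apply]
    simp only [Measure.smul_apply, measure_univ, smul_eq_mul, mul_one, sum_const, Nat.card_Icc,
      Nat.add_sub_cancel, nsmul_eq_mul]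
    exact ENNReal.mul_inv_cancel hy0 (ENNReal.natCast_ne_top y)
  · intro g
    rw [integrable_finsetSum_measure]
    intro n _
    exact (integrable_dirac (by simp)).smul_measure hc
  · intro g
    rw [integral_finsetSum_measure (fun n _ => (integrable_dirac (by simp)).smul_measure hc)]
    rw [sum_div]
    refine sum_congr rfl fun n _ => ?_
    rw [integral_smul_measure, integral_dirac, hcr, smul_eq_mul]
    field_simp
  · intro t
    rw [Measure.real, Measure.finsetSum_apply]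
    have h1 : ∀ n ∈ Icc 1 y, ((y : ENNReal)⁻¹ • Measure.dirac (f n)) (Set.Iic t) =
        if f n ≤ t then (y : ENNReal)⁻¹ else 0 := by
      intro n _
      rw [Measure.smul_apply, Measure.dirac_apply' _ measurableSet_Iic, smul_eq_mul]
      by_cases h : f n ≤ t
      · rw [if_pos h, Set.indicator_of_mem (Set.mem_Iic.2 h)]
        simp
      · rw [if_neg h, Set.indicator_of_notMem (fun hh => h (Set.mem_Iic.1 hh))]
        simp
    rw [sum_congr rfl h1, ← sum_filter, sum_const, nsmul_eq_mul, ENNReal.toReal_mul, hcr,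
      ENNReal.toReal_natCast]
    rw [div_eq_mul_inv]

end DLawAux

theorem d_law (δ : ℝ) (hδ : 0 < δ) : ∃ K : ℕ, 1 ≤ K ∧ ∀ (y : ℕ) (f : ℕ → ℝ), 1 ≤ y →
    (∀ k ≤ K, |(∑ n ∈ Icc 1 y, f n ^ k) / y - gm k| ≤ 1 / K) →
    ∀ t : ℝ, |(((Icc 1 y).filter (fun n => f n ≤ t)).card : ℝ) / y - cdf (gaussianReal 0 1) t| ≤ δ := by
  classical
  obtain ⟨K, hK, h⟩ := Pool.Agent.P4f18dfC.mom_law δ hδ
  refine ⟨K, hK, fun y f hy hm t => ?_⟩
  obtain ⟨ν, hP, hI, hint, hr⟩ := DLawAux.key y f hy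
  have h1 := h ν hP (fun k => hI _) (fun k hk => by rw [hint]; exact hm k hk) t
  rw [ProbabilityTheory.cdf_eq_real, hr] at h1
  convert h1 using 6

end Pool.Agent.MCP
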