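import Pool.Agent.Lib.MCP.Defs

/-!
# Module CorA: correlations at the places of a finite set

`cor_w`: enumerate `I = {i_1, ..., i_r}` (`Finset.equivFin` or `orderEmbOfFin`), `r = I.card ≤ m`, put `i_0 = 0` (`0 ∉ I`), `κ 0 = 2` (`fn w 2 = w`), `κ j = 0` if `i_j ∈ J`, else `1`; `pl a 0 = 0` (`pl_zero`): `GoodA` with `Y = y`; `mz ((n : ℤ) + pl a i) = μ(n + pl a i)` (`mz_nat`, cast), the sum over `n ∈ Icc (1:ℤ) y` is the sum over
`n ∈ Icc 1 y` (naturals).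
`cor_one`: if `I.card ≤ m`: the same with `κ 0 = 3` (`fn w 3 = 1`). If `I.card = m + 1 ≥ 2`: choose `j1 ∈ J` and a reference element `i_0 ∈ I`, `i_0 ≠ j1` (exists as `I.card ≥ 2`); `i_1, ..., i_m` the other elements, `κ 0 = 0` or `1` according to `i_0 ∈ J`. With `p = pl a i_0`, `n' = n + p`:
`∑_{n ∈ Icc 1 y} ∏_{i ∈ I} (..)(n + pl a i) = ∑_{n' ∈ Icc (p+1) (p+y)} fn (κ 0) n' ∏ fn (κ j)(n' + (pl a i_j - p))` = difference of two sums over `Icc 1 Y` with `Y = p + y ≤ xx` and `Y = p ≤ xx`: at most `2 δ`.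
-/

set_option autoImplicit false

open Finset Filter

namespace Pool.Agent.MCP

namespace CorAAux

/-- The index of the function at the place `i`. -/
def ix (J : Finset ℕ) (i : ℕ) : Fin 4 := if i ∈ J then 0 else 1

theorem sum_cast (f : ℤ → ℝ) (Y : ℕ) : ∑ n ∈ Icc (1 : ℤ) Y, f n = ∑ n ∈ Icc 1 Y, f (n : ℤ) := by
  symm
  refine Finset.sum_nbij (fun n : ℕ => (n : ℤ)) ?_ ?_ ?_ ?_
  · intro n hn
    rw [Finset.mem_Icc] at hn ⊢
    constructor
    · exact_mod_cast hn.1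
    · exact_mod_cast hn.2
  · intro n _ n' _ h
    exact Int.natCast_inj.mp h
  · intro n hn
    rw [Finset.mem_coe, Finset.mem_Icc] at hn
    refine ⟨n.toNat, ?_, ?_⟩
    · rw [Finset.mem_coe, Finset.mem_Icc]
      omega
    · show ((n.toNat : ℕ) : ℤ) = n
      omega
  · intro n _
    rfl

theorem gen {m : ℕ} (Dm xx : ℕ) (δ : ℝ) (w : ℤ → ℝ) (a : Fin m → ℕ) (h : GoodA Dm xx δ w a) (I J : Finset ℕ) (x0 : ℕ)
    (hx : x0 ∉ I) (hx' : x0 ≤ Dm) (hI : ∀ i ∈ I, i ≤ Dm) (hJ : ∃ i ∈ I, i ∈ J) (hc : I.card ≤ m) (k : Fin 4) (Y : ℕ) (hY : Y ≤ xx) :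
    |∑ n ∈ Icc 1 Y, fn w k (n : ℤ) * ∏ i ∈ I, fn w (ix J i) ((n : ℤ) + ((pl a i : ℤ) - (pl a x0 : ℤ)))| ≤ δ := by
  classical
  have key := h I.card hc (Fin.cons x0 (fun j => I.orderEmbOfFin rfl j)) ?_ ?_
    (Fin.cons k (fun j => ix J (I.orderEmbOfFin rfl j))) ?_ Y hY
  · rw [sum_cast] at key
    refine le_trans (le_of_eq ?_) key
    congr 1
    refine Finset.sum_congr rfl fun n _ => ?_
    simp only [Fin.cons_zero, Fin.cons_succ]
    congr 1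
    conv_lhs => rw [← Finset.map_orderEmbOfFin_univ I rfl]
    rw [Finset.prod_map]
    rfl
  · rw [Fin.cons_injective_iff]
    refine ⟨?_, (I.orderEmbOfFin rfl).injective⟩
    rintro ⟨j, hj⟩
    apply hx
    rw [← hj]
    exact Finset.orderEmbOfFin_mem I rfl j
  · intro j
    refine Fin.cases ?_ (fun j' => ?_) j
    · rw [Fin.cons_zero]
      exact hx'
    · rw [Fin.cons_succ]
      exact hI _ (Finset.orderEmbOfFin_mem I rfl j')
  · obtain ⟨i, hi, hiJ⟩ := hJ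
    have h1 : i ∈ Set.range (I.orderEmbOfFin rfl) := by
      rw [Finset.range_orderEmbOfFin]
      exact hi
    obtain ⟨j, hj⟩ := h1
    refine ⟨j, ?_⟩
    rw [Fin.cons_succ]
    show ix J (I.orderEmbOfFin rfl j) = 0
    unfold ix
    rw [hj, if_pos hiJ]

theorem prod_split {m : ℕ} (w : ℤ → ℝ) (a : Fin m → ℕ) (I J : Finset ℕ) (hJ : J ⊆ I) (n : ℕ) :
    (∏ i ∈ I, fn w (ix J i) ((n : ℤ) + (pl a i : ℤ))) =
      (∏ i ∈ J, (ArithmeticFunction.moebius (n + pl a i) : ℝ)) *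
      ∏ i ∈ I \ J, (ArithmeticFunction.moebius (n + pl a i) : ℝ) ^ 2 := by
  classical
  rw [← Finset.prod_sdiff hJ, mul_comm]
  congr 1
  · refine Finset.prod_congr rfl fun i hi => ?_
    unfold ix
    rw [if_pos hi]
    show mz ((n : ℤ) + (pl a i : ℤ)) = _
    rw [← Nat.cast_add, mz_nat]
  · refine Finset.prod_congr rfl fun i hi => ?_
    unfold ix
    rw [if_neg (Finset.mem_sdiff.mp hi).2]
    show mz ((n : ℤ) + (pl a i : ℤ)) ^ 2 = _
    rw [← Nat.cast_add, mz_nat]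

theorem zero_ref {m : ℕ} (Dm xx : ℕ) (δ : ℝ) (w : ℤ → ℝ) (a : Fin m → ℕ) (h : GoodA Dm xx δ w a) (I J : Finset ℕ) (hI : I ⊆ Icc 1 Dm)
    (hJ : J ⊆ I) (hJ0 : J.Nonempty) (hc : I.card ≤ m) (k : Fin 4) (y : ℕ) (hy : y ≤ xx) :
    |∑ n ∈ Icc 1 y, fn w k (n : ℤ) * ((∏ i ∈ J, (ArithmeticFunction.moebius (n + pl a i) : ℝ)) *
      ∏ i ∈ I \ J, (ArithmeticFunction.moebius (n + pl a i) : ℝ) ^ 2)| ≤ δ := by
  obtain ⟨j1, hj1⟩ := hJ0
  have h1 := gen Dm xx δ w a h I J 0 (fun h0 => by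
    have := Finset.mem_Icc.mp (hI h0)
    omega) (Nat.zero_le _) (fun i hi => (Finset.mem_Icc.mp (hI hi)).2) ⟨j1, hJ hj1, hj1⟩ hc k y hy
  refine le_trans (le_of_eq ?_) h1
  congr 1
  refine Finset.sum_congr rfl fun n _ => ?_
  rw [← prod_split w a I J hJ n, pl_zero]
  simp only [Nat.cast_zero, sub_zero]

end CorAAux

theorem cor_w {m : ℕ} (Dm xx : ℕ) (δ : ℝ) (w : ℤ → ℝ) (a : Fin m → ℕ) (h : GoodA Dm xx δ w a) (I J : Finset ℕ) (hI : I ⊆ Icc 1 Dm)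
    (hJ : J ⊆ I) (hJ0 : J.Nonempty) (hc : I.card ≤ m) (y : ℕ) (hy : y ≤ xx) :
    |∑ n ∈ Icc 1 y, w (n : ℤ) * ((∏ i ∈ J, (ArithmeticFunction.moebius (n + pl a i) : ℝ)) *
      ∏ i ∈ I \ J, (ArithmeticFunction.moebius (n + pl a i) : ℝ) ^ 2)| ≤ δ :=
  CorAAux.zero_ref Dm xx δ w a h I J hI hJ hJ0 hc 2 y hy

theorem cor_one {m : ℕ} (Dm xx : ℕ) (δ : ℝ) (w : ℤ → ℝ) (a : Fin m → ℕ) (hm : 1 ≤ m) (h : GoodA Dm xx δ w a) (I J : Finset ℕ) (hI : I ⊆ Icc 1 Dm)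
    (hJ : J ⊆ I) (hJ0 : J.Nonempty) (hc : I.card ≤ m + 1) (y : ℕ) (hy : ∀ i ∈ Icc 1 Dm, pl a i + y ≤ xx) (hδ : 0 ≤ δ) :
    |∑ n ∈ Icc 1 y, ((∏ i ∈ J, (ArithmeticFunction.moebius (n + pl a i) : ℝ)) *
      ∏ i ∈ I \ J, (ArithmeticFunction.moebius (n + pl a i) : ℝ) ^ 2)| ≤ 2 * δ := by
  classical
  obtain ⟨j1, hj1⟩ := hJ0
  rcases Nat.lt_or_ge m I.card with hlt | hle
  · have h2 : 1 < I.card := by omega
    obtain ⟨i0, hi0, hne⟩ := Finset.exists_mem_ne h2 j1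
    set p := pl a i0 with hp
    have hle : (I.erase i0).card ≤ m := by
      rw [Finset.card_erase_of_mem hi0]
      omega
    have hG : ∀ Y : ℕ, Y ≤ xx → |∑ n ∈ Icc 1 Y, fn w (CorAAux.ix J i0) (n : ℤ) *
        ∏ i ∈ I.erase i0, fn w (CorAAux.ix J i) ((n : ℤ) + ((pl a i : ℤ) - (p : ℤ)))| ≤ δ := fun Y hY =>
      CorAAux.gen Dm xx δ w a h (I.erase i0) J i0 (Finset.notMem_erase i0 I) (Finset.mem_Icc.mp (hI hi0)).2
        (fun i hi => (Finset.mem_Icc.mp (hI (Finset.mem_of_mem_erase hi))).2)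
        ⟨j1, Finset.mem_erase.mpr ⟨hne.symm, hJ hj1⟩, hj1⟩ hle (CorAAux.ix J i0) Y hY
    have hA := hG (p + y) (hy i0 (hI hi0))
    have hB := hG p (le_trans (Nat.le_add_right p y) (hy i0 (hI hi0)))
    set G : ℕ → ℝ := fun n => fn w (CorAAux.ix J i0) (n : ℤ) *
        ∏ i ∈ I.erase i0, fn w (CorAAux.ix J i) ((n : ℤ) + ((pl a i : ℤ) - (p : ℤ))) with hGd
    have hsum : ∑ n ∈ Icc 1 y, ((∏ i ∈ J, (ArithmeticFunction.moebius (n + pl a i) : ℝ)) *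
      ∏ i ∈ I \ J, (ArithmeticFunction.moebius (n + pl a i) : ℝ) ^ 2) = ∑ n ∈ Icc 1 y, G (n + p) := by
      refine Finset.sum_congr rfl fun n _ => ?_
      rw [← CorAAux.prod_split w a I J hJ n, ← Finset.mul_prod_erase I _ hi0]
      simp only [hGd, Nat.cast_add]
      refine congrArg₂ _ rfl (Finset.prod_congr rfl fun i _ => ?_)
      congr 1
      ring
    have hshift : ∑ n ∈ Icc 1 (p + y), G n = ∑ n ∈ Icc 1 p, G n + ∑ n ∈ Icc 1 y, G (n + p) := by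
      have e1 : Icc 1 (p + y) = Ioc 0 (p + y) := by
        ext n
        simp only [Finset.mem_Icc, Finset.mem_Ioc]
        omega
      have e2 : Icc 1 p = Ioc 0 p := by
        ext n
        simp only [Finset.mem_Icc, Finset.mem_Ioc]
        omega
      have e3 : ∑ n ∈ Icc 1 y, G (n + p) = ∑ n ∈ Ioc p (p + y), G n := by
        refine Finset.sum_nbij (fun n => n + p) ?_ ?_ ?_ ?_
        · intro n hn
          rw [Finset.mem_Icc] at hn
          rw [Finset.mem_Ioc]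
          omega
        · intro n _ n' _ hh
          exact Nat.add_right_cancel hh
        · intro n hn
          rw [Finset.mem_coe, Finset.mem_Ioc] at hn
          refine ⟨n - p, ?_, ?_⟩
          · rw [Finset.mem_coe, Finset.mem_Icc]
            omega
          · show n - p + p = n
            omega
        · intro n _
          rfl
      rw [e1, e2, e3, Finset.sum_Ioc_consecutive G (Nat.zero_le p) (Nat.le_add_right p y)]
    rw [hsum]
    have h3 : ∑ n ∈ Icc 1 y, G (n + p) = ∑ n ∈ Icc 1 (p + y), G n - ∑ n ∈ Icc 1 p, G n := by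
      rw [hshift]
      ring
    rw [h3]
    have h4 := abs_sub (∑ n ∈ Icc 1 (p + y), G n) (∑ n ∈ Icc 1 p, G n)
    linarith
  · rcases Finset.eq_empty_or_nonempty (Icc 1 Dm) with he | ⟨i1, hi1⟩
    · exact absurd (hI (hJ hj1)) (by rw [he]; exact Finset.notMem_empty j1)
    · have h1 := CorAAux.zero_ref Dm xx δ w a h I J hI hJ ⟨j1, hj1⟩ hle 3 y
        (le_trans (Nat.le_add_left y (pl a i1)) (hy i1 hi1))
      have h2 : ∑ n ∈ Icc 1 y, fn w 3 (n : ℤ) * ((∏ i ∈ J, (ArithmeticFunction.moebius (n + pl a i) : ℝ)) *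
          ∏ i ∈ I \ J, (ArithmeticFunction.moebius (n + pl a i) : ℝ) ^ 2) =
          ∑ n ∈ Icc 1 y, ((∏ i ∈ J, (ArithmeticFunction.moebius (n + pl a i) : ℝ)) *
          ∏ i ∈ I \ J, (ArithmeticFunction.moebius (n + pl a i) : ℝ) ^ 2) := by
        refine Finset.sum_congr rfl fun n _ => ?_
        show (1 : ℝ) * _ = _
        rw [one_mul]
      rw [h2] at h1
      linarith

end Pool.Agent.MCP
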