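import Pool.Agent.Lib.MW.Defs
import Pool.Agent.Lib.P4f18dfC.Defs
import Pool.Agent.Lib.P4f18df.Sqf

/-!
# Package MCP: sums of the Moebius function along polynomials, definitions

`pl a i = a_0 i + a_1 i^2 + ... + a_(m-1) i^m`; `sm a D c n` = the sum of `c_i μ(n + P(i))`, `i ≤ D`; `mz` = the Moebius
function on the integers (zero at the nonpositive ones); `fn w` = the four functions `mz, mz^2, w, 1`; `GoodA`: all
correlations of these functions along at most `m + 1` values of the polynomial are at most `δ`, if one of the functions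
(not the one at the reference point) is `mz`.
-/

set_option autoImplicit false

open Finset

namespace Pool.Agent.MCP

/-- The value at `i` of the polynomial with the coefficients `a`. -/
def pl {m : ℕ} (a : Fin m → ℕ) (i : ℕ) : ℕ := ∑ l : Fin m, a l * i ^ (l.val + 1)

/-- The sum of `c i * μ (n + P(i))` over `i ≤ D`. -/
noncomputable def sm {m : ℕ} (a : Fin m → ℕ) (D : ℕ) (c : ℕ → ℝ) (n : ℕ) : ℝ :=
  ∑ i ∈ Icc 1 D, c i * (ArithmeticFunction.moebius (n + pl a i) : ℝ)

/-- The Moebius function on the integers. -/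
noncomputable def mz (n : ℤ) : ℝ := (ArithmeticFunction.moebius n.toNat : ℝ)

/-- The four functions. -/
noncomputable def fn (w : ℤ → ℝ) : Fin 4 → ℤ → ℝ := ![mz, fun n => mz n ^ 2, w, fun _ => 1]

/-- Small correlations along the polynomial. -/
def GoodA {m : ℕ} (Dm xx : ℕ) (δ : ℝ) (w : ℤ → ℝ) (a : Fin m → ℕ) : Prop :=
  ∀ r : ℕ, r ≤ m → ∀ i : Fin (r + 1) → ℕ, Function.Injective i → (∀ j, i j ≤ Dm) →
    ∀ κ : Fin (r + 1) → Fin 4, (∃ j : Fin r, κ j.succ = 0) → ∀ Y : ℕ, Y ≤ xx →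
      |∑ n ∈ Icc (1 : ℤ) Y, fn w (κ 0) n *
        ∏ j : Fin r, fn w (κ j.succ) (n + ((pl a (i j.succ) : ℤ) - (pl a (i 0) : ℤ)))| ≤ δ

theorem abs_mz (n : ℤ) : |mz n| ≤ 1 := by
  unfold mz
  exact_mod_cast ArithmeticFunction.abs_moebius_le_one

theorem mz_nat (n : ℕ) : mz (n : ℤ) = (ArithmeticFunction.moebius n : ℝ) := by
  unfold mz
  rw [Int.toNat_natCast]

theorem abs_fn (w : ℤ → ℝ) (hw : ∀ n, |w n| ≤ 1) (κ : Fin 4) (n : ℤ) : |fn w κ n| ≤ 1 := by
  have h1 := abs_mz n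
  have h2 : |mz n ^ 2| ≤ 1 := by
    rw [abs_pow]
    exact pow_le_one₀ (abs_nonneg _) h1
  fin_cases κ
  · exact h1
  · exact h2
  · exact hw n
  · show |(1 : ℝ)| ≤ 1
    rw [abs_one]

theorem pl_zero {m : ℕ} (a : Fin m → ℕ) : pl a 0 = 0 := by
  unfold pl
  exact Finset.sum_eq_zero fun l _ => by rw [zero_pow (by omega), mul_zero]

end Pool.Agent.MCP
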