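import Pool.Agent.Lib.MCP.Defs

/-!
# Module Pull: the map from the coefficients to the differences of the values is injective on fibres

If `a`, `a'` agree at all places `l ≥ r` and have the same differences `pl a (i (j+1)) - pl a (i 0)`, `j < r`, then `a = a'`: with `b_l = a_l - a'_l` (zero for `l ≥ r`) the polynomial `Q(X) = ∑_{l < r} b_l X^(l+1)` takes the same value at the `r + 1` distinct points `i 0, ..., i r`, so
`Q - Q(i 0)` has degree at most `r` and `r + 1` roots, hence is zero (`Polynomial.card_roots'`, `Polynomial.eq_zero_of_natDegree_lt_card_of_eval_eq_zero` with `f = fun j : Fin (r+1) => (i j : ℤ)`), so all `b_l = 0` (coefficient of `X^(l+1)`).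
Therefore `a ↦ (image in T, (a_l)_{l ≥ r})` is injective on the filtered set: at most `T.card * H^(m-r)` elements (`Finset.card_le_card_of_injOn` into `T ×ˢ (Fintype.piFinset fun _ : Fin (m - r) => Icc 1 H)`, second component `fun l => a ⟨r + l, _⟩`).
-/

set_option autoImplicit false

open Finset Filter

namespace Pool.Agent.MCP

namespace PullAux

open Polynomial in
theorem key (m r : ℕ) (i : Fin (r + 1) → ℕ) (hi : Function.Injective i) (b : Fin m → ℤ)
    (hb : ∀ l : Fin m, r ≤ l.val → b l = 0)
    (hv : ∀ j : Fin (r + 1), (∑ l : Fin m, b l * (i j : ℤ) ^ (l.val + 1)) = ∑ l : Fin m, b l * (i 0 : ℤ) ^ (l.val + 1)) :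
    ∀ l, b l = 0 := by
  classical
  set Q : Polynomial ℤ := ∑ l : Fin m, C (b l) * X ^ (l.val + 1) with hQ
  have hcoeff : ∀ N, Q.coeff N = ∑ l : Fin m, if N = l.val + 1 then b l else 0 := by
    intro N
    rw [hQ, finsetSum_coeff]
    apply Finset.sum_congr rfl
    intro l _
    rw [coeff_C_mul, coeff_X_pow]
    split_ifs <;> simp
  have heval : ∀ x : ℤ, Q.eval x = ∑ l : Fin m, b l * x ^ (l.val + 1) := by
    intro x
    rw [hQ, eval_finsetSum]
    apply Finset.sum_congr rfl
    intro l _
    simp
  have hzero : Q - C (Q.eval (i 0 : ℤ)) = 0 := by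
    apply Polynomial.eq_zero_of_natDegree_lt_card_of_eval_eq_zero (ι := Fin (r + 1)) _ (f := fun j => (i j : ℤ))
    · intro x y hxy
      have hxy' : (i x : ℤ) = (i y : ℤ) := hxy
      exact hi (by exact_mod_cast hxy')
    · intro j
      rw [eval_sub, eval_C, heval, heval, hv j, sub_self]
    · rw [Fintype.card_fin, Nat.lt_succ_iff, Polynomial.natDegree_le_iff_coeff_eq_zero]
      intro N hN
      rw [coeff_sub, coeff_C, if_neg (by omega), sub_zero, hcoeff]
      apply Finset.sum_eq_zero
      intro l _
      split_ifs with h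
      · exact hb l (by omega)
      · rfl
  intro l
  have h1 : (Q - C (Q.eval (i 0 : ℤ))).coeff (l.val + 1) = 0 := by rw [hzero, coeff_zero]
  rw [coeff_sub, coeff_C, if_neg (by omega), sub_zero, hcoeff, Finset.sum_eq_single l] at h1
  · rwa [if_pos rfl] at h1
  · intro l' _ hne
    rw [if_neg]
    intro h
    apply hne
    ext
    omega
  · intro h
    exact absurd (Finset.mem_univ l) h

end PullAux

theorem pull (m r H : ℕ) (hr : r ≤ m) (i : Fin (r + 1) → ℕ) (hi : Function.Injective i) (T : Finset (Fin r → ℤ)) :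
    ((Fintype.piFinset (fun _ : Fin m => Icc 1 H)).filter (fun a =>
      (fun j : Fin r => (pl a (i j.succ) : ℤ) - (pl a (i 0) : ℤ)) ∈ T)).card ≤ T.card * H ^ (m - r) := by
  classical
  have hc : T.card * H ^ (m - r) = (T ×ˢ Fintype.piFinset (fun _ : Fin (m - r) => Icc 1 H)).card := by
    rw [Finset.card_product, Fintype.card_piFinset]
    simp
  rw [hc]
  apply Finset.card_le_card_of_injOn (fun a => ((fun j : Fin r => (pl a (i j.succ) : ℤ) - (pl a (i 0) : ℤ)),
    fun l : Fin (m - r) => a ⟨r + l.val, by omega⟩))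
  · intro a ha
    rw [Finset.mem_coe, Finset.mem_filter, Fintype.mem_piFinset] at ha
    rw [Finset.mem_coe, Finset.mem_product, Fintype.mem_piFinset]
    exact ⟨ha.2, fun l => ha.1 _⟩
  · intro a _ a' _ h
    rw [Prod.mk.injEq] at h
    obtain ⟨h1, h2⟩ := h
    have h3 : ∀ j : Fin r, (pl a (i j.succ) : ℤ) - (pl a (i 0) : ℤ) = (pl a' (i j.succ) : ℤ) - (pl a' (i 0) : ℤ) :=
      fun j => congrFun h1 j
    have hs : ∀ x : ℕ, (∑ l : Fin m, ((a l : ℤ) - (a' l : ℤ)) * (x : ℤ) ^ (l.val + 1)) = (pl a x : ℤ) - (pl a' x : ℤ) := by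
      intro x
      unfold pl
      push_cast
      rw [← Finset.sum_sub_distrib]
      apply Finset.sum_congr rfl
      intro l _
      ring
    have hk := PullAux.key m r i hi (fun l => (a l : ℤ) - (a' l : ℤ)) (by
      intro l hl
      have h4 := congrFun h2 ⟨l.val - r, by omega⟩
      have h5 : (⟨r + (l.val - r), by omega⟩ : Fin m) = l := by
        ext
        simp only
        omega
      simp only [h5] at h4
      rw [h4, sub_self]) (by
      intro j
      rw [hs, hs]
      induction j using Fin.cases with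
      | zero => rfl
      | succ j =>
        have := h3 j
        linarith)
    funext l
    have := hk l
    have h6 : (a l : ℤ) = (a' l : ℤ) := by linarith
    exact_mod_cast h6

end Pool.Agent.MCP
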