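import Pool.Agent.Lib.MCP.Tup
import Pool.Agent.Lib.MCP.Pull

/-!
# Module Exc: the exceptional set

`L = log x`. `H'' = m (Dm+1)^m H ≤ H L^C` (`C` depending on `m, K`): all differences `pl a (i j) - pl a (i 0)`, `a ∈ [1,H]^m`, `i j ≤ Dm`, lie in `[-H'', H'']`. `x' = max xx x ≤ x L^K`-like (`x' = xx + x`).
If `a` is not good there are `r ≤ m`, `i`, `κ`, `Y ≤ xx` with the sum `> x/L^A`. Grid: `g = ⌊x/(4 L^A)⌋`, `Y_0 = g ⌊Y/g⌋`: replacing `Y` by `Y_0` changes the sum by at most `g`, so the sum for `Y_0` exceeds `x/(2 L^A)`; there are at most `xx/g + 1 ≤ 8 L^(A+K) + 1` values `Y_0`.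
(`r = 0` is impossible because of the condition on `κ`.) For fixed `r, i, κ, Y_0` let `T` be the set of `h ∈ [-H'',H'']^r` with `|∑_{n ∈ Icc 1 Y_0} fn w (κ 0) n ∏ fn w (κ (j+1)) (n + h j)| > x'/(log x')^A'`, where `A' = A + K + ...` is so large that `x'/(log x')^A' ≤ x/(2 L^A)`:
`tup_mu r A' C' (ε/2)` at `x'` (`f0 = fn w (κ 0)`, `f j = fn w (κ j.succ)`, `j0` from the condition, `fn w 0 = mz`): `T.card ≤ H''^r/(log x')^A'`, and `pull`: at most `T.card H^(m-r) ≤ H^m L^(C r)/L^A'` elements `a` (note `H ≤ x ≤ x'`, `H'' ≤ x' (log x')^C'`, `x'^(1/6+ε/2) ≤ H ≤ H''`).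
The number of `(r, i, κ, Y_0)` is at most `(m+1) (Dm+1)^(m+1) 4^(m+1) (8 L^(A+K) + 1) ≤ L^C''`; so `A' = A + C m + C'' + 1`-like is enough (`A'` must be chosen after the other constants, which do not depend on it). Use `tup_mu` for each `r ≤ m` (finitely many `∀ᶠ`: `eventually_all_finset` or `Finset.eventually_all`).
The union bound: `filter (¬ GoodA) ⊆` the biUnion over the finite index set.
-/

set_option autoImplicit false

open Finset Filter

namespace Pool.Agent.MCP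

namespace ExcAux

theorem trunc (F : ℤ → ℝ) (hF : ∀ n, |F n| ≤ 1) (Y0 Y : ℕ) (h : Y0 ≤ Y) :
    |∑ n ∈ Icc (1 : ℤ) Y, F n| ≤ |∑ n ∈ Icc (1 : ℤ) Y0, F n| + ((Y : ℝ) - Y0) := by
  have hsub : Icc (1 : ℤ) (Y0 : ℤ) ⊆ Icc (1 : ℤ) (Y : ℤ) := by
    intro n hn
    rw [mem_Icc] at hn ⊢
    have : (Y0 : ℤ) ≤ Y := by exact_mod_cast h
    exact ⟨hn.1, hn.2.trans this⟩
  have h1 := Finset.sum_sdiff (f := F) hsub
  have h2 : |∑ n ∈ Icc (1 : ℤ) (Y : ℤ) \ Icc (1 : ℤ) (Y0 : ℤ), F n| ≤ (Y : ℝ) - Y0 := by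
    refine (Finset.abs_sum_le_sum_abs _ _).trans ?_
    refine (Finset.sum_le_sum (fun n _ => hF n)).trans ?_
    rw [Finset.sum_const, nsmul_eq_mul, mul_one, Finset.card_sdiff_of_subset hsub, Int.card_Icc, Int.card_Icc]
    have e1 : ((Y : ℤ) + 1 - 1).toNat = Y := by simp
    have e2 : ((Y0 : ℤ) + 1 - 1).toNat = Y0 := by simp
    rw [e1, e2, Nat.cast_sub h]
  rw [← h1]
  refine (abs_add_le _ _).trans ?_
  linarith

theorem abs_term {w : ℤ → ℝ} (hw : ∀ n, |w n| ≤ 1) {r : ℕ} (κ : Fin (r + 1) → Fin 4) (h : Fin r → ℤ) (n : ℤ) :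
    |fn w (κ 0) n * ∏ j : Fin r, fn w (κ j.succ) (n + h j)| ≤ 1 := by
  rw [abs_mul, Finset.abs_prod]
  have h1 := abs_fn w hw (κ 0) n
  have h2 : ∏ j : Fin r, |fn w (κ j.succ) (n + h j)| ≤ 1 :=
    Finset.prod_le_one (fun _ _ => abs_nonneg _) (fun j _ => abs_fn w hw _ _)
  have h3 : 0 ≤ ∏ j : Fin r, |fn w (κ j.succ) (n + h j)| := Finset.prod_nonneg fun _ _ => abs_nonneg _
  nlinarith [abs_nonneg (fn w (κ 0) n)]

theorem pl_le {m H Dm : ℕ} {a : Fin m → ℕ} (ha : ∀ l, a l ≤ H) {i : ℕ} (hi : i ≤ Dm) :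
    pl a i ≤ m * (Dm + 1) ^ m * H := by
  unfold pl
  have h1 : ∀ l ∈ (univ : Finset (Fin m)), a l * i ^ (l.val + 1) ≤ H * (Dm + 1) ^ m := by
    intro l _
    refine Nat.mul_le_mul (ha l) ?_
    calc i ^ (l.val + 1) ≤ (Dm + 1) ^ (l.val + 1) := Nat.pow_le_pow_left (by omega) _
      _ ≤ (Dm + 1) ^ m := Nat.pow_le_pow_right (by omega) (by omega)
  refine (Finset.sum_le_sum h1).trans ?_
  rw [Finset.sum_const, card_univ, Fintype.card_fin, smul_eq_mul]
  apply le_of_eq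
  ring

/-- the set of bad differences -/
noncomputable def T (w : ℤ → ℝ) (HH : ℕ) (δ : ℝ) (r : ℕ) (κ : Fin (r + 1) → Fin 4) (Y : ℕ) : Finset (Fin r → ℤ) :=
  (Fintype.piFinset (fun _ : Fin r => Icc (-(HH : ℤ)) HH)).filter (fun h =>
    δ < |∑ n ∈ Icc (1 : ℤ) Y, fn w (κ 0) n * ∏ j : Fin r, fn w (κ j.succ) (n + h j)|)

/-- the coefficients with bad differences -/
noncomputable def S (w : ℤ → ℝ) (m H HH g : ℕ) (δ : ℝ) (r : ℕ) (p : (Fin (r + 1) → ℕ) × (Fin (r + 1) → Fin 4) × ℕ) :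
    Finset (Fin m → ℕ) := by
  classical
  exact if r ≤ m ∧ Function.Injective p.1 ∧ ∃ j : Fin r, p.2.1 j.succ = 0 then
    (Fintype.piFinset (fun _ : Fin m => Icc 1 H)).filter (fun a =>
      (fun j : Fin r => (pl a (p.1 j.succ) : ℤ) - (pl a (p.1 0) : ℤ)) ∈ T w HH δ r p.2.1 (g * p.2.2))
    else ∅

/-- the indices -/
def ix (Dm N r : ℕ) : Finset ((Fin (r + 1) → ℕ) × (Fin (r + 1) → Fin 4) × ℕ) :=
  (Fintype.piFinset (fun _ : Fin (r + 1) => range (Dm + 1))) ×ˢ (univ ×ˢ range (N + 1))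

theorem card_ix (Dm N r : ℕ) : (ix Dm N r).card = (Dm + 1) ^ (r + 1) * (4 ^ (r + 1) * (N + 1)) := by
  unfold ix
  rw [card_product, card_product, Fintype.card_piFinset_const, card_range, card_range, card_univ,
    Fintype.card_fun, Fintype.card_fin, Fintype.card_fin]

theorem cover {m H Dm xx g HH : ℕ} {D δ : ℝ} {w : ℤ → ℝ} (hw : ∀ n, |w n| ≤ 1) (hg : 0 < g)
    (hHH : m * (Dm + 1) ^ m * H ≤ HH) (hδ : δ + g ≤ D) {a : Fin m → ℕ} (ha : ∀ l, 1 ≤ a l ∧ a l ≤ H)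
    (hbad : ¬ GoodA Dm xx D w a) :
    a ∈ (range (m + 1)).biUnion (fun r => (ix Dm (xx / g) r).biUnion (fun p => S w m H HH g δ r p)) := by
  unfold GoodA at hbad
  push Not at hbad
  obtain ⟨r, hr, i, hi, hiD, κ, hκ, Y, hY, hlt⟩ := hbad
  rw [mem_biUnion]
  refine ⟨r, mem_range.2 (by omega), ?_⟩
  rw [mem_biUnion]
  refine ⟨(i, κ, Y / g), ?_, ?_⟩
  · unfold ix
    rw [mem_product, mem_product]
    refine ⟨Fintype.mem_piFinset.2 fun j => mem_range.2 (by have := hiD j; show i j < _; omega), mem_univ _, ?_⟩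
    rw [mem_range]
    have : Y / g ≤ xx / g := Nat.div_le_div_right hY
    show Y / g < _
    omega
  · unfold S
    rw [if_pos ⟨hr, hi, hκ⟩, mem_filter]
    refine ⟨Fintype.mem_piFinset.2 fun l => mem_Icc.2 (ha l), ?_⟩
    unfold T
    rw [mem_filter]
    refine ⟨Fintype.mem_piFinset.2 fun j => ?_, ?_⟩
    · have h1 : pl a (i j.succ) ≤ HH := (pl_le (fun l => (ha l).2) (hiD j.succ)).trans hHH
      have h2 : pl a (i 0) ≤ HH := (pl_le (fun l => (ha l).2) (hiD 0)).trans hHH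
      rw [mem_Icc]
      dsimp only
      constructor <;> omega
    · have h1 := trunc (fun n => fn w (κ 0) n *
        ∏ j : Fin r, fn w (κ j.succ) (n + ((pl a (i j.succ) : ℤ) - (pl a (i 0) : ℤ)))) (fun n => abs_term hw κ _ n)
        (g * (Y / g)) Y (Nat.mul_div_le Y g)
      have h2 : (Y : ℝ) - ((g * (Y / g) : ℕ) : ℝ) ≤ g := by
        have := Nat.div_add_mod Y g
        have h3 := Nat.mod_lt Y hg
        have h4 : Y ≤ g * (Y / g) + g := by omega
        have h5 : (Y : ℝ) ≤ ((g * (Y / g) : ℕ) : ℝ) + g := by exact_mod_cast h4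
        linarith
      show δ < |∑ n ∈ Icc (1 : ℤ) ((g * (Y / g) : ℕ) : ℤ), _|
      linarith

theorem card_S {w : ℤ → ℝ} {m H HH g : ℕ} {δ : ℝ} {r : ℕ} (p : (Fin (r + 1) → ℕ) × (Fin (r + 1) → Fin 4) × ℕ) {B : ℝ}
    (hB : 0 ≤ B)
    (hT : (∃ j : Fin r, p.2.1 j.succ = 0) → ((T w HH δ r p.2.1 (g * p.2.2)).card : ℝ) * (H : ℝ) ^ (m - r) ≤ B) :
    ((S w m H HH g δ r p).card : ℝ) ≤ B := by
  unfold S
  split_ifs with h
  · obtain ⟨hr, hi, hκ⟩ := h
    have h1 := pull m r H hr p.1 hi (T w HH δ r p.2.1 (g * p.2.2))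
    refine le_trans ?_ (hT hκ)
    exact_mod_cast h1
  · simpa using hB

end ExcAux

open ExcAux

theorem exc (m K A : ℕ) (hm : 1 ≤ m) (ε : ℝ) (hε : 0 < ε) : ∀ᶠ x : ℕ in atTop, ∀ H Dm xx : ℕ, (x : ℝ) ^ (1 / 6 + ε) ≤ H →
    H ≤ x → (Dm : ℝ) ≤ Real.log x ^ K → (xx : ℝ) ≤ x * Real.log x ^ K → ∀ w : ℤ → ℝ, (∀ n, |w n| ≤ 1) →
    ∃ E : Finset (Fin m → ℕ), (E.card : ℝ) ≤ (H : ℝ) ^ m / Real.log x ^ A ∧
      ∀ a : Fin m → ℕ, (∀ l, 1 ≤ a l ∧ a l ≤ H) → a ∉ E → GoodA Dm xx (x / Real.log x ^ A) w a := by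
  set s : ℝ := 1 / 6 + ε / 2 with hs
  have hs0 : 0 ≤ s := by positivity
  set C1 : ℕ := (K + 1) * m + 1 with hC1
  set C2 : ℕ := 1 + (K + 1) * (m + 1) + 1 + (A + K + 1) with hC2
  set A1 : ℕ := A + C2 + C1 * m + K + 2 with hA1
  have ev1 : ∀ᶠ x : ℕ in atTop, ∀ r ∈ range (m + 1), ∀ y : ℕ, x ≤ y → ∀ H Y : ℕ, (y : ℝ) ^ (1 / 6 + ε / 2) ≤ H →
      (H : ℝ) ≤ y * Real.log y ^ C1 → Y ≤ y → ∀ (f0 : ℤ → ℝ) (f : Fin r → ℤ → ℝ) (j0 : Fin r), (∀ n, |f0 n| ≤ 1) →
      (∀ j n, |f j n| ≤ 1) → f j0 = mz →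
      (((Fintype.piFinset (fun _ : Fin r => Icc (-(H : ℤ)) H)).filter (fun h =>
        (y : ℝ) / Real.log y ^ A1 < |∑ n ∈ Icc (1 : ℤ) Y, f0 n * ∏ j : Fin r, f j (n + h j)|)).card : ℝ) ≤
        (H : ℝ) ^ r / Real.log y ^ A1 := by
    rw [Filter.eventually_all_finset]
    intro r _
    exact Filter.eventually_forall_ge_atTop.2 (tup_mu r A1 C1 (ε / 2) (half_pos hε))
  have ev2 : ∀ᶠ x : ℕ in atTop, (4 : ℝ) ^ (m + 1) + m + 12 ≤ Real.log x :=
    (Real.tendsto_log_atTop.comp tendsto_natCast_atTop_atTop).eventually_ge_atTop _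
  have ev3 : ∀ᶠ x : ℕ in atTop, Real.log x ^ (((K + 1 : ℕ) : ℝ) * s) ≤ (x : ℝ) ^ (ε / 2) := by
    have h1 := (isLittleO_log_rpow_rpow_atTop (((K + 1 : ℕ) : ℝ) * s) (half_pos hε)).bound (one_pos)
    have h2 := tendsto_natCast_atTop_atTop (R := ℝ) |>.eventually h1
    filter_upwards [h2, ev2] with x hx hx2
    have hL : 0 ≤ Real.log x := by
      have : (0 : ℝ) ≤ (4 : ℝ) ^ (m + 1) + m + 12 := by positivity
      linarith
    rw [one_mul, Real.norm_of_nonneg (Real.rpow_nonneg hL _), Real.norm_of_nonneg (by positivity)] at hx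
    exact hx
  have ev4 : ∀ᶠ x : ℕ in atTop, 4 * Real.log x ^ A ≤ x := by
    have h1 := (Real.isLittleO_pow_log_id_atTop (n := A)).bound (show (0 : ℝ) < 1 / 4 by norm_num)
    have h2 := tendsto_natCast_atTop_atTop (R := ℝ) |>.eventually h1
    filter_upwards [h2, ev2] with x hx hx2
    have hL : 0 ≤ Real.log x := by
      have : (0 : ℝ) ≤ (4 : ℝ) ^ (m + 1) + m + 12 := by positivity
      linarith
    rw [Real.norm_of_nonneg (by positivity), id, Real.norm_of_nonneg (by positivity)] at hx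
    linarith
  filter_upwards [ev1, ev2, ev3, ev4, eventually_ge_atTop 1] with x h1 h2 h3 h4 h5 H Dm xx hHl hHx hDm hxx w hw
  set L : ℝ := Real.log x with hL
  have hx0 : (0 : ℝ) < x := by exact_mod_cast h5
  have hL4 : (4 : ℝ) ^ (m + 1) ≤ L := by
    have : (0 : ℝ) ≤ m := Nat.cast_nonneg m
    linarith
  have hLm : (m : ℝ) + 1 ≤ L := by
    have : (0 : ℝ) < (4 : ℝ) ^ (m + 1) := by positivity
    linarith
  have hL12 : (12 : ℝ) ≤ L := by
    have : (0 : ℝ) < (4 : ℝ) ^ (m + 1) := by positivity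
    have : (0 : ℝ) ≤ m := Nat.cast_nonneg m
    linarith
  have hL1 : 1 ≤ L := by linarith
  have hL0 : 0 < L := by linarith
  -- powers
  have hLK : L ^ K + 1 ≤ L ^ (K + 1) := by
    have : 1 ≤ L ^ K := one_le_pow₀ hL1
    rw [pow_succ]
    nlinarith
  have hD1 : (Dm : ℝ) + 1 ≤ L ^ (K + 1) := by linarith
  have hDm0 : (0 : ℝ) ≤ (Dm : ℝ) + 1 := by positivity
  -- H''
  set HH : ℕ := m * (Dm + 1) ^ m * H with hHH
  have hm1 : (1 : ℝ) ≤ m := by exact_mod_cast hm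
  have hHr : (0 : ℝ) ≤ H := Nat.cast_nonneg H
  have hHHle : (HH : ℝ) ≤ L ^ C1 * H := by
    rw [hHH]
    push_cast
    apply mul_le_mul_of_nonneg_right _ hHr
    rw [hC1, pow_succ, pow_mul, mul_comm ((L ^ (K + 1)) ^ m) L]
    exact mul_le_mul (by linarith) (pow_le_pow_left₀ hDm0 hD1 m) (by positivity) hL0.le
  have hHleHH : (H : ℝ) ≤ HH := by
    rw [hHH]
    push_cast
    have e1 : (1 : ℝ) ≤ ((Dm : ℝ) + 1) ^ m := one_le_pow₀ (by have : (0:ℝ) ≤ Dm := Nat.cast_nonneg _; linarith)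
    have e2 : (1 : ℝ) ≤ m * ((Dm : ℝ) + 1) ^ m := by nlinarith
    nlinarith
  -- x'
  set x' : ℕ := xx + x with hx'
  have hx'x : x ≤ x' := Nat.le_add_left _ _
  have hx'xr : (x : ℝ) ≤ x' := by exact_mod_cast hx'x
  have hx'le : (x' : ℝ) ≤ x * L ^ (K + 1) := by
    rw [hx']
    push_cast
    nlinarith
  have hx'0 : (0 : ℝ) < x' := by linarith
  have hLL : L ≤ Real.log x' := Real.log_le_log hx0 hx'xr
  have hlog0 : 0 < Real.log x' := by linarith
  have c1 : (x' : ℝ) ^ (1 / 6 + ε / 2) ≤ HH := by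
    rw [← hs]
    calc (x' : ℝ) ^ s ≤ (x * L ^ (K + 1)) ^ s := Real.rpow_le_rpow hx'0.le hx'le hs0
      _ = (x : ℝ) ^ s * L ^ (((K + 1 : ℕ) : ℝ) * s) := by
        rw [Real.mul_rpow hx0.le (by positivity), ← Real.rpow_natCast L (K + 1), ← Real.rpow_mul hL0.le]
      _ ≤ (x : ℝ) ^ s * (x : ℝ) ^ (ε / 2) := by
        apply mul_le_mul_of_nonneg_left h3 (by positivity)
      _ = (x : ℝ) ^ (1 / 6 + ε) := by
        rw [← Real.rpow_add hx0, hs]
        congr 1
        ring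
      _ ≤ H := hHl
      _ ≤ HH := hHleHH
  have c2 : (HH : ℝ) ≤ x' * Real.log x' ^ C1 := by
    calc (HH : ℝ) ≤ L ^ C1 * H := hHHle
      _ ≤ Real.log x' ^ C1 * x' := by
        apply mul_le_mul (pow_le_pow_left₀ hL0.le hLL C1) _ hHr (by positivity)
        have : (H : ℝ) ≤ x := by exact_mod_cast hHx
        linarith
      _ = _ := mul_comm _ _
  -- the grid
  set g : ℕ := ⌊(x : ℝ) / (4 * L ^ A)⌋₊ with hg
  have hLA : (0 : ℝ) < L ^ A := by positivity
  have hq1 : (1 : ℝ) ≤ (x : ℝ) / (4 * L ^ A) := by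
    rw [le_div_iff₀ (by positivity)]
    linarith
  have hg1 : 1 ≤ g := Nat.le_floor (by exact_mod_cast hq1)
  have hgle : (g : ℝ) ≤ (x : ℝ) / (4 * L ^ A) := Nat.floor_le (by positivity)
  have hgge : (x : ℝ) / (8 * L ^ A) ≤ g := by
    have e1 := Nat.lt_floor_add_one ((x : ℝ) / (4 * L ^ A))
    rw [← hg] at e1
    have e2 : (1 : ℝ) ≤ g := by exact_mod_cast hg1
    have e3 : (x : ℝ) / (8 * L ^ A) = (x : ℝ) / (4 * L ^ A) / 2 := by
      rw [div_div]
      congr 1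
      ring
    rw [e3]
    linarith
  have hg0 : (0 : ℝ) < g := by
    have : (1 : ℝ) ≤ g := by exact_mod_cast hg1
    linarith
  have hN : (((xx / g : ℕ) : ℝ) + 1) ≤ L ^ (A + K + 1) := by
    have e1 : ((xx / g : ℕ) : ℝ) ≤ (xx : ℝ) / g := Nat.cast_div_le
    have e2 : (xx : ℝ) / g ≤ 8 * L ^ (A + K) := by
      rw [div_le_iff₀ hg0]
      calc (xx : ℝ) ≤ x * L ^ K := hxx
        _ = 8 * L ^ (A + K) * (x / (8 * L ^ A)) := by
          rw [pow_add]
          field_simp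
        _ ≤ 8 * L ^ (A + K) * g := by
          apply mul_le_mul_of_nonneg_left hgge (by positivity)
    have e3 : (1 : ℝ) ≤ L ^ (A + K) := one_le_pow₀ hL1
    rw [pow_succ]
    nlinarith
  set δ : ℝ := (x' : ℝ) / Real.log x' ^ A1 with hδ
  have hδg : δ + g ≤ x / L ^ A := by
    have e0 : (x : ℝ) * L ^ (K + 1) / L ^ A1 ≤ (x : ℝ) / (2 * L ^ A) := by
      rw [div_le_div_iff₀ (by positivity) (by positivity)]
      have e5 : L ^ A1 = L ^ (A + K + 1) * L ^ (C2 + C1 * m + 1) := by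
        rw [← pow_add, hA1]
        congr 1
        ring
      have e6 : (2 : ℝ) ≤ L ^ (C2 + C1 * m + 1) := by
        rw [pow_succ]
        have : (1 : ℝ) ≤ L ^ (C2 + C1 * m) := one_le_pow₀ hL1
        nlinarith
      rw [e5]
      calc (x : ℝ) * L ^ (K + 1) * (2 * L ^ A) = x * (L ^ (A + K + 1) * 2) := by
            rw [show A + K + 1 = A + (K + 1) by ring, pow_add]
            ring
        _ ≤ x * (L ^ (A + K + 1) * L ^ (C2 + C1 * m + 1)) := by
            apply mul_le_mul_of_nonneg_left _ hx0.le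
            apply mul_le_mul_of_nonneg_left e6 (by positivity)
    have e1 : δ ≤ (x : ℝ) * L ^ (K + 1) / L ^ A1 := by
      rw [hδ]
      apply div_le_div₀ (by positivity) hx'le (by positivity)
      exact pow_le_pow_left₀ hL0.le hLL A1
    have e2 : (x : ℝ) / (2 * L ^ A) + (x : ℝ) / (4 * L ^ A) ≤ x / L ^ A := by
      have : (x : ℝ) / (2 * L ^ A) + (x : ℝ) / (4 * L ^ A) = 3 / 4 * (x / L ^ A) := by
        field_simp
        ring
      rw [this]
      have : 0 ≤ (x : ℝ) / L ^ A := by positivity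
      linarith
    linarith
  -- the bound for one set
  set B : ℝ := L ^ (C1 * m) * (H : ℝ) ^ m / L ^ A1 with hB
  have hB0 : 0 ≤ B := by positivity
  have hone : ∀ r ∈ range (m + 1), ∀ p ∈ ix Dm (xx / g) r, ((S w m H HH g δ r p).card : ℝ) ≤ B := by
    intro r hr p hp
    apply card_S p hB0
    rintro ⟨j0, hj0⟩
    have hrm : r ≤ m := by
      rw [mem_range] at hr
      omega
    have hY : g * p.2.2 ≤ x' := by
      unfold ix at hp
      rw [mem_product, mem_product] at hp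
      have e1 := hp.2.2
      rw [mem_range] at e1
      have e2 : g * p.2.2 ≤ g * (xx / g) := Nat.mul_le_mul_left g (by omega)
      have e3 := Nat.mul_div_le xx g
      omega
    have e0 := h1 r hr x' hx'x HH (g * p.2.2) c1 c2 hY (fn w (p.2.1 0)) (fun j => fn w (p.2.1 j.succ)) j0
      (fun n => abs_fn w hw _ n) (fun j n => abs_fn w hw _ n) (by
        show fn w (p.2.1 j0.succ) = mz
        rw [hj0]
        rfl)
    have e1 : ((T w HH δ r p.2.1 (g * p.2.2)).card : ℝ) ≤ (HH : ℝ) ^ r / Real.log x' ^ A1 := e0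
    have e2 : (HH : ℝ) ^ r / Real.log x' ^ A1 ≤ (L ^ C1 * H) ^ r / L ^ A1 := by
      apply div_le_div₀ (by positivity) (pow_le_pow_left₀ (by positivity) hHHle r) (by positivity)
      exact pow_le_pow_left₀ hL0.le hLL A1
    calc ((T w HH δ r p.2.1 (g * p.2.2)).card : ℝ) * (H : ℝ) ^ (m - r)
        ≤ ((L ^ C1 * H) ^ r / L ^ A1) * (H : ℝ) ^ (m - r) :=
          mul_le_mul_of_nonneg_right (e1.trans e2) (by positivity)
      _ = L ^ (C1 * r) * (H : ℝ) ^ m / L ^ A1 := by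
          rw [mul_pow, ← pow_mul]
          have : (H : ℝ) ^ m = (H : ℝ) ^ r * (H : ℝ) ^ (m - r) := by
            rw [← pow_add]
            congr 1
            omega
          rw [this]
          ring
      _ ≤ B := by
          rw [hB]
          apply div_le_div_of_nonneg_right _ (by positivity)
          apply mul_le_mul_of_nonneg_right _ (by positivity)
          exact pow_le_pow_right₀ hL1 (Nat.mul_le_mul_left _ hrm)
  classical
  refine ⟨(Fintype.piFinset (fun _ : Fin m => Icc 1 H)).filter (fun a => ¬ GoodA Dm xx (x / L ^ A) w a), ?_, ?_⟩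
  · have hsub : (Fintype.piFinset (fun _ : Fin m => Icc 1 H)).filter (fun a => ¬ GoodA Dm xx (x / L ^ A) w a) ⊆
        (range (m + 1)).biUnion (fun r => (ix Dm (xx / g) r).biUnion (fun p => S w m H HH g δ r p)) := by
      intro a ha
      rw [mem_filter, Fintype.mem_piFinset] at ha
      exact cover hw hg1 le_rfl hδg (fun l => mem_Icc.1 (ha.1 l)) ha.2
    have hcard : (((range (m + 1)).biUnion
        (fun r => (ix Dm (xx / g) r).biUnion (fun p => S w m H HH g δ r p))).card : ℝ) ≤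
        ∑ r ∈ range (m + 1), ∑ p ∈ ix Dm (xx / g) r, ((S w m H HH g δ r p).card : ℝ) := by
      have := (card_biUnion_le (s := range (m + 1))
        (t := fun r => (ix Dm (xx / g) r).biUnion (fun p => S w m H HH g δ r p))).trans
        (Finset.sum_le_sum fun r _ => card_biUnion_le)
      exact_mod_cast this
    have hsum : ∑ r ∈ range (m + 1), ∑ p ∈ ix Dm (xx / g) r, ((S w m H HH g δ r p).card : ℝ) ≤
        ∑ r ∈ range (m + 1), ((Dm : ℝ) + 1) ^ (m + 1) * (4 ^ (m + 1) * L ^ (A + K + 1)) * B := by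
      refine Finset.sum_le_sum fun r hr => ?_
      refine (Finset.sum_le_sum (hone r hr)).trans ?_
      rw [Finset.sum_const, nsmul_eq_mul, card_ix]
      apply mul_le_mul_of_nonneg_right _ hB0
      push_cast
      have hrm : r + 1 ≤ m + 1 := by
        rw [mem_range] at hr
        omega
      have hD1' : (1 : ℝ) ≤ (Dm : ℝ) + 1 := by
        have : (0 : ℝ) ≤ Dm := Nat.cast_nonneg _
        linarith
      apply mul_le_mul (pow_le_pow_right₀ hD1' hrm) _ (by positivity) (by positivity)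
      apply mul_le_mul (pow_le_pow_right₀ (by norm_num) hrm) _ (by positivity) (by positivity)
      exact_mod_cast hN
    have hfin : ∑ r ∈ range (m + 1), ((Dm : ℝ) + 1) ^ (m + 1) * (4 ^ (m + 1) * L ^ (A + K + 1)) * B ≤
        (H : ℝ) ^ m / L ^ A := by
      rw [Finset.sum_const, nsmul_eq_mul, card_range]
      push_cast
      have e1 : ((m : ℝ) + 1) * (((Dm : ℝ) + 1) ^ (m + 1) * (4 ^ (m + 1) * L ^ (A + K + 1))) ≤ L ^ C2 := by
        calc ((m : ℝ) + 1) * (((Dm : ℝ) + 1) ^ (m + 1) * (4 ^ (m + 1) * L ^ (A + K + 1)))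
            ≤ L * ((L ^ (K + 1)) ^ (m + 1) * (L * L ^ (A + K + 1))) := by
              apply mul_le_mul hLm _ (by positivity) hL0.le
              apply mul_le_mul (pow_le_pow_left₀ hDm0 hD1 _) _ (by positivity) (by positivity)
              exact mul_le_mul_of_nonneg_right hL4 (by positivity)
          _ = L ^ C2 := by
              rw [hC2, pow_add L (1 + (K + 1) * (m + 1) + 1), pow_add L (1 + (K + 1) * (m + 1)), pow_add L 1, pow_mul,
                pow_one]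
              ring
      have e2 : L ^ C2 * B ≤ (H : ℝ) ^ m / L ^ A := by
        rw [hB, ← mul_div_assoc, div_le_div_iff₀ (by positivity) (by positivity)]
        have e3 : L ^ A1 = L ^ C2 * L ^ (C1 * m) * L ^ A * L ^ (K + 2) := by
          rw [← pow_add, ← pow_add, ← pow_add, hA1]
          congr 1
          ring
        have e4 : (1 : ℝ) ≤ L ^ (K + 2) := one_le_pow₀ hL1
        rw [e3]
        calc L ^ C2 * (L ^ (C1 * m) * (H : ℝ) ^ m) * L ^ A = (H : ℝ) ^ m * (L ^ C2 * L ^ (C1 * m) * L ^ A) * 1 := by ring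
          _ ≤ (H : ℝ) ^ m * (L ^ C2 * L ^ (C1 * m) * L ^ A) * L ^ (K + 2) :=
            mul_le_mul_of_nonneg_left e4 (by positivity)
          _ = _ := by ring
      calc ((m : ℝ) + 1) * (((Dm : ℝ) + 1) ^ (m + 1) * (4 ^ (m + 1) * L ^ (A + K + 1)) * B)
          = (((m : ℝ) + 1) * (((Dm : ℝ) + 1) ^ (m + 1) * (4 ^ (m + 1) * L ^ (A + K + 1)))) * B := by ring
        _ ≤ L ^ C2 * B := mul_le_mul_of_nonneg_right e1 hB0
        _ ≤ _ := e2
    have hc : (((Fintype.piFinset (fun _ : Fin m => Icc 1 H)).filter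
        (fun a => ¬ GoodA Dm xx (x / L ^ A) w a)).card : ℝ) ≤
        (((range (m + 1)).biUnion
        (fun r => (ix Dm (xx / g) r).biUnion (fun p => S w m H HH g δ r p))).card : ℝ) := by
      exact_mod_cast card_le_card hsub
    exact hc.trans (hcard.trans (hsum.trans hfin))
  · intro a ha haE
    by_contra hcon
    exact haE (mem_filter.2 ⟨Fintype.mem_piFinset.2 fun l => mem_Icc.2 (ha l), hcon⟩)

end Pool.Agent.MCP
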