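import Pool.Agent.Lib.MCP.Mom
import Pool.Agent.Lib.MCP.Sqc
import Pool.Agent.Lib.P4f18dfC.Gm

/-!
# Module LawM: the normalised moments

`S = c2 ∑_{i ≤ D} c_i² ≥ c2 D/V`, `N(n) = ∑_{i ≤ D} c_i² μ(n + P(i))²`. `mom_one`: `|∑_{n ≤ y} sm^k - ∑_{n ≤ y} avs k n| ≤ 2 D^k δ ≤ 2 η y` (`D^k δ ≤ D^K0 δ ≤ η y`), after division by `S^(k/2) y ≥ (c2/V)^(k/2) y` (`D ≥ 1`): `≤ 2 η (V/c2)^(K0/2)`-like.
`rm_eq`. `k` odd: `avs = Rm = 0` (`Rm_odd`), `gm k = 0` (`gm_odd`). `k = 2l`: `Rm_even l` (`h = D`): `|avs (2l) n - gm (2l) N(n)^l| ≤ C_l D^l/D`; and `|N(n)^l - S^l| ≤ l D^(l-1) |N(n) - S|` (`0 ≤ N(n), S ≤ D`), so by `conc` (`C0` its constant)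
`(1/y) ∑_n |N(n)^l - S^l| ≤ l D^(l-1) C0 ((1+V) z + D/z + D √xx/y) ≤ l D^l C0 ((1+V) z/D0 + 1/z + η)`. Division by `S^l ≥ (c2 D/V)^l`. Choose `z` large, then `D0` large, `η` small (all depending only on `K0`, `V`; there are finitely many `l ≤ K0/2`).
`c2 = 6/π²`, `0 < c2 ≤ 1` (`c2_pos`, `c2_le`). `(sm/√S)^(2l) = sm^(2l)/S^l`.
-/

set_option autoImplicit false

open Finset Filter

namespace Pool.Agent.MCP

open Pool.Agent.P4f18df Pool.Agent.P4f18dfT Pool.Agent.P4f18dfC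

namespace LawMAux

/-- The square sum. -/
noncomputable def NN {m : ℕ} (a : Fin m → ℕ) (D : ℕ) (c : ℕ → ℝ) (n : ℕ) : ℝ :=
  ∑ i ∈ Icc 1 D, c i ^ 2 * (ArithmeticFunction.moebius (n + pl a i) : ℝ) ^ 2

theorem mu_sq_le (n : ℕ) : ((ArithmeticFunction.moebius n : ℤ) : ℝ) ^ 2 ≤ 1 := by
  have h : |((ArithmeticFunction.moebius n : ℤ) : ℝ)| ≤ 1 := by
    exact_mod_cast ArithmeticFunction.abs_moebius_le_one
  rw [← sq_abs]
  exact pow_le_one₀ (abs_nonneg _) h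

theorem csq_le {c : ℕ → ℝ} (hc : ∀ i, |c i| ≤ 1) (i : ℕ) : c i ^ 2 ≤ 1 := by
  rw [← sq_abs]
  exact pow_le_one₀ (abs_nonneg _) (hc i)

theorem NN_nonneg {m : ℕ} (a : Fin m → ℕ) (D : ℕ) (c : ℕ → ℝ) (n : ℕ) : 0 ≤ NN a D c n := by
  unfold NN
  positivity

theorem NN_le {m : ℕ} (a : Fin m → ℕ) (D : ℕ) {c : ℕ → ℝ} (hc : ∀ i, |c i| ≤ 1) (n : ℕ) :
    NN a D c n ≤ D := by
  unfold NN
  calc ∑ i ∈ Icc 1 D, c i ^ 2 * (ArithmeticFunction.moebius (n + pl a i) : ℝ) ^ 2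
      ≤ ∑ i ∈ Icc 1 D, (1 : ℝ) := by
        refine Finset.sum_le_sum fun i _ => ?_
        have h1 := csq_le hc i
        have h2 := mu_sq_le (n + pl a i)
        have h3 : 0 ≤ c i ^ 2 := sq_nonneg _
        have h4 : 0 ≤ ((ArithmeticFunction.moebius (n + pl a i) : ℤ) : ℝ) ^ 2 := sq_nonneg _
        nlinarith
    _ = D := by simp

theorem S_le (D : ℕ) {c : ℕ → ℝ} (hc : ∀ i, |c i| ≤ 1) : c2 * ∑ i ∈ Icc 1 D, c i ^ 2 ≤ D := by
  have h1 : ∑ i ∈ Icc 1 D, c i ^ 2 ≤ D := by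
    calc ∑ i ∈ Icc 1 D, c i ^ 2 ≤ ∑ i ∈ Icc 1 D, (1 : ℝ) :=
          Finset.sum_le_sum fun i _ => csq_le hc i
      _ = D := by simp
  have h2 : 0 ≤ ∑ i ∈ Icc 1 D, c i ^ 2 := Finset.sum_nonneg fun i _ => sq_nonneg _
  have h3 := c2_le
  have h4 := c2_pos
  nlinarith

/-- The power difference. -/
theorem pow_diff {N S D : ℝ} (hN : 0 ≤ N) (hS : 0 ≤ S) (hND : N ≤ D) (hSD : S ≤ D) (l : ℕ) :
    |N ^ l - S ^ l| ≤ l * D ^ (l - 1) * |N - S| := by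
  have h := abs_pow_sub_pow_le N S l
  have h1 : max |N| |S| ≤ D := by
    rw [abs_of_nonneg hN, abs_of_nonneg hS]
    exact max_le hND hSD
  have h2 : (max |N| |S|) ^ (l - 1) ≤ D ^ (l - 1) :=
    pow_le_pow_left₀ (le_max_of_le_left (abs_nonneg _)) h1 _
  calc |N ^ l - S ^ l| ≤ |N - S| * l * max |N| |S| ^ (l - 1) := h
    _ ≤ |N - S| * l * D ^ (l - 1) := by gcongr
    _ = l * D ^ (l - 1) * |N - S| := by ring

theorem even_bound {y D z l : ℕ} {V ρ C0 Cl η S G : ℝ} (f av N : ℕ → ℝ) (hy : 1 ≤ y) (hD : 1 ≤ D)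
    (hl : 1 ≤ l) (hz : 1 ≤ z) (hV : 0 ≤ V) (hρ : 0 < ρ) (hρ1 : ρ ≤ 1) (hC0 : 0 ≤ C0) (hCl : 0 ≤ Cl)
    (hη : 0 ≤ η) (hG : 0 ≤ G) (hS : ρ * D ≤ S) (hSD : S ≤ D) (hN0 : ∀ n, 0 ≤ N n)
    (hND : ∀ n, N n ≤ D)
    (h1 : |∑ n ∈ Icc 1 y, (f n ^ (2 * l) - av n)| ≤ 2 * η * y)
    (h2 : ∀ n, |av n - G * N n ^ l| ≤ Cl * (D : ℝ) ^ l / D)
    (h3 : ∑ n ∈ Icc 1 y, |N n - S| ≤ C0 * (y * ((1 + V) * z + D / z) + D * (η * y))) :
    |(∑ n ∈ Icc 1 y, (f n / Real.sqrt S) ^ (2 * l)) / y - G| ≤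
      (2 * η + Cl / D + G * l * C0 * ((1 + V) * z / D + 1 / z + η)) / ρ ^ l := by
  have hy' : (0 : ℝ) < y := by exact_mod_cast hy
  have hD1 : (1 : ℝ) ≤ D := by exact_mod_cast hD
  have hD' : (0 : ℝ) < D := by linarith
  have hz' : (0 : ℝ) < z := by exact_mod_cast hz
  have hS0 : 0 < S := lt_of_lt_of_le (by positivity) hS
  have hSl : 0 < S ^ l := by positivity
  have hDl : (1 : ℝ) ≤ (D : ℝ) ^ l := one_le_pow₀ hD1
  have e1 : ∑ n ∈ Icc 1 y, (f n / Real.sqrt S) ^ (2 * l) = (∑ n ∈ Icc 1 y, f n ^ (2 * l)) / S ^ l := by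
    rw [Finset.sum_div]
    refine Finset.sum_congr rfl fun n _ => ?_
    rw [div_pow]
    congr 1
    rw [pow_mul, Real.sq_sqrt hS0.le]
  have e2 : (∑ n ∈ Icc 1 y, (f n / Real.sqrt S) ^ (2 * l)) / y - G =
      (∑ n ∈ Icc 1 y, (f n ^ (2 * l) - G * S ^ l)) / (y * S ^ l) := by
    rw [e1, Finset.sum_sub_distrib, Finset.sum_const, Nat.card_Icc, Nat.add_sub_cancel,
      nsmul_eq_mul]
    field_simp
  have dec : ∑ n ∈ Icc 1 y, (f n ^ (2 * l) - G * S ^ l) =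
      ∑ n ∈ Icc 1 y, (f n ^ (2 * l) - av n) + ∑ n ∈ Icc 1 y, (av n - G * N n ^ l) +
        G * ∑ n ∈ Icc 1 y, (N n ^ l - S ^ l) := by
    rw [Finset.mul_sum, ← Finset.sum_add_distrib, ← Finset.sum_add_distrib]
    refine Finset.sum_congr rfl fun n _ => ?_
    ring
  have b2 : |∑ n ∈ Icc 1 y, (av n - G * N n ^ l)| ≤ y * (Cl * (D : ℝ) ^ l / D) := by
    calc |∑ n ∈ Icc 1 y, (av n - G * N n ^ l)| ≤ ∑ n ∈ Icc 1 y, |av n - G * N n ^ l| :=
          Finset.abs_sum_le_sum_abs _ _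
      _ ≤ ∑ n ∈ Icc 1 y, Cl * (D : ℝ) ^ l / D := Finset.sum_le_sum fun n _ => h2 n
      _ = y * (Cl * (D : ℝ) ^ l / D) := by
          rw [Finset.sum_const, Nat.card_Icc, Nat.add_sub_cancel, nsmul_eq_mul]
  have b3 : |∑ n ∈ Icc 1 y, (N n ^ l - S ^ l)| ≤ l * (D : ℝ) ^ (l - 1) *
      (C0 * (y * ((1 + V) * z + D / z) + D * (η * y))) := by
    calc |∑ n ∈ Icc 1 y, (N n ^ l - S ^ l)| ≤ ∑ n ∈ Icc 1 y, |N n ^ l - S ^ l| :=
          Finset.abs_sum_le_sum_abs _ _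
      _ ≤ ∑ n ∈ Icc 1 y, l * (D : ℝ) ^ (l - 1) * |N n - S| :=
          Finset.sum_le_sum fun n _ => pow_diff (hN0 n) hS0.le (hND n) hSD l
      _ = l * (D : ℝ) ^ (l - 1) * ∑ n ∈ Icc 1 y, |N n - S| := by rw [← Finset.mul_sum]
      _ ≤ _ := mul_le_mul_of_nonneg_left h3 (by positivity)
  have hDp : (D : ℝ) ^ (l - 1) = (D : ℝ) ^ l / D := by
    obtain ⟨k, rfl⟩ : ∃ k, l = k + 1 := ⟨l - 1, by omega⟩
    rw [Nat.add_sub_cancel, pow_succ]
    field_simp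
  have tot : |∑ n ∈ Icc 1 y, (f n ^ (2 * l) - G * S ^ l)| ≤
      y * (D : ℝ) ^ l * (2 * η + Cl / D + G * l * C0 * ((1 + V) * z / D + 1 / z + η)) := by
    rw [dec]
    calc |∑ n ∈ Icc 1 y, (f n ^ (2 * l) - av n) + ∑ n ∈ Icc 1 y, (av n - G * N n ^ l) +
        G * ∑ n ∈ Icc 1 y, (N n ^ l - S ^ l)|
        ≤ |∑ n ∈ Icc 1 y, (f n ^ (2 * l) - av n)| + |∑ n ∈ Icc 1 y, (av n - G * N n ^ l)| +
          |G * ∑ n ∈ Icc 1 y, (N n ^ l - S ^ l)| := abs_add_three _ _ _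
      _ ≤ 2 * η * y + y * (Cl * (D : ℝ) ^ l / D) + G * (l * (D : ℝ) ^ (l - 1) *
          (C0 * (y * ((1 + V) * z + D / z) + D * (η * y)))) := by
          rw [abs_mul, abs_of_nonneg hG]
          exact add_le_add (add_le_add h1 b2) (mul_le_mul_of_nonneg_left b3 hG)
      _ ≤ 2 * η * y * (D : ℝ) ^ l + y * (Cl * (D : ℝ) ^ l / D) + G * (l * (D : ℝ) ^ (l - 1) *
          (C0 * (y * ((1 + V) * z + D / z) + D * (η * y)))) := by
          have : 2 * η * y ≤ 2 * η * y * (D : ℝ) ^ l := le_mul_of_one_le_right (by positivity) hDl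
          linarith
      _ = y * (D : ℝ) ^ l * (2 * η + Cl / D + G * l * C0 * ((1 + V) * z / D + 1 / z + η)) := by
          rw [hDp]
          field_simp
  have hρS : ρ ^ l * (D : ℝ) ^ l ≤ S ^ l := by
    rw [← mul_pow]
    exact pow_le_pow_left₀ (by positivity) hS l
  rw [e2, abs_div, abs_of_pos (show (0 : ℝ) < y * S ^ l by positivity)]
  rw [div_le_div_iff₀ (by positivity) (by positivity)]
  set E := 2 * η + Cl / D + G * l * C0 * ((1 + V) * z / D + 1 / z + η) with hE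
  have hE0 : 0 ≤ E := by
    rw [hE]
    positivity
  calc |∑ n ∈ Icc 1 y, (f n ^ (2 * l) - G * S ^ l)| * ρ ^ l ≤ (y * (D : ℝ) ^ l * E) * ρ ^ l :=
        mul_le_mul_of_nonneg_right tot (by positivity)
    _ = (y * E) * (ρ ^ l * (D : ℝ) ^ l) := by ring
    _ ≤ (y * E) * S ^ l := mul_le_mul_of_nonneg_left hρS (by positivity)
    _ = E * (y * S ^ l) := by ring

theorem odd_bound {y k : ℕ} {ρ η S : ℝ} (f : ℕ → ℝ) (hy : 1 ≤ y) (hρ : 0 < ρ) (hρ1 : ρ ≤ 1)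
    (hη : 0 ≤ η) (hS : ρ ≤ S) (h1 : |∑ n ∈ Icc 1 y, f n ^ k| ≤ 2 * η * y) :
    |(∑ n ∈ Icc 1 y, (f n / Real.sqrt S) ^ k) / y| ≤ 2 * η / ρ ^ k := by
  have hy' : (0 : ℝ) < y := by exact_mod_cast hy
  have hS0 : 0 < S := lt_of_lt_of_le hρ hS
  have hq : ρ ≤ Real.sqrt S := by
    refine Real.le_sqrt_of_sq_le ?_
    nlinarith
  have hq0 : 0 < Real.sqrt S := lt_of_lt_of_le hρ hq
  have e1 : (∑ n ∈ Icc 1 y, (f n / Real.sqrt S) ^ k) / y =
      (∑ n ∈ Icc 1 y, f n ^ k) / (y * Real.sqrt S ^ k) := by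
    rw [Finset.sum_congr rfl fun n _ => div_pow (f n) (Real.sqrt S) k, ← Finset.sum_div]
    rw [div_div, mul_comm]
  have hρS : ρ ^ k ≤ Real.sqrt S ^ k := pow_le_pow_left₀ hρ.le hq k
  rw [e1, abs_div, abs_of_pos (show (0 : ℝ) < y * Real.sqrt S ^ k by positivity)]
  rw [div_le_div_iff₀ (by positivity) (by positivity)]
  calc |∑ n ∈ Icc 1 y, f n ^ k| * ρ ^ k ≤ (2 * η * y) * ρ ^ k :=
        mul_le_mul_of_nonneg_right h1 (by positivity)
    _ ≤ (2 * η * y) * Real.sqrt S ^ k := mul_le_mul_of_nonneg_left hρS (by positivity)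
    _ = 2 * η * (y * Real.sqrt S ^ k) := by ring

end LawMAux

open LawMAux in
theorem law_mom (K0 : ℕ) (V : ℝ) (hV : 1 ≤ V) : ∃ (z D0 : ℕ) (η : ℝ), 1 ≤ z ∧ 1 ≤ D0 ∧ 0 < η ∧
    ∀ (m Dm xx D y : ℕ) (δ : ℝ) (w : ℤ → ℝ) (a : Fin m → ℕ) (c : ℕ → ℝ), 1 ≤ m → K0 ≤ m + 1 → 0 ≤ δ → GoodA Dm xx δ w a →
    (∀ l : Fin m, l.val = 0 → (a l).Coprime z.factorial) → (∀ l : Fin m, l.val ≠ 0 → z.factorial ^ 2 ∣ a l) →
    D0 ≤ D → D ≤ Dm → (∀ i, |c i| ≤ 1) → ∑ i ∈ Icc 1 D, |c (i + 1) ^ 2 - c i ^ 2| ≤ V → (D : ℝ) ≤ V * ∑ i ∈ Icc 1 D, c i ^ 2 →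
    (∀ i ∈ Icc 1 Dm, pl a i + y ≤ xx) → 1 ≤ y → (D : ℝ) ^ K0 * δ ≤ η * y → Real.sqrt xx ≤ η * y →
    ∀ k ≤ K0, |(∑ n ∈ Icc 1 y, (sm a D c n / Real.sqrt (c2 * ∑ i ∈ Icc 1 D, c i ^ 2)) ^ k) / y - gm k| ≤ 1 / K0 := by
  obtain ⟨C0, hC0, hconc⟩ := conc
  choose Cl hCl0 hCl using fun l => Rm_even l
  have hc2 := c2_pos
  have hc2' := c2_le
  obtain ⟨ρ, hρdef⟩ : ∃ ρ : ℝ, ρ = c2 / V := ⟨_, rfl⟩
  have hV0 : 0 < V := by linarith
  have hρ : 0 < ρ := by rw [hρdef]; positivity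
  have hρ1 : ρ ≤ 1 := by
    rw [hρdef, div_le_one hV0]
    linarith
  obtain ⟨A, hA⟩ : ∃ A : ℝ, A = ∑ l ∈ range (K0 + 1), Cl l := ⟨_, rfl⟩
  obtain ⟨B, hB⟩ : ∃ B : ℝ, B = ∑ l ∈ range (K0 + 1), gm (2 * l) * l * C0 := ⟨_, rfl⟩
  have hA0 : 0 ≤ A := by
    rw [hA]
    exact Finset.sum_nonneg fun l _ => hCl0 l
  have hBt : ∀ l : ℕ, 0 ≤ gm (2 * l) * l * C0 := fun l => by
    have := gm_nonneg (2 * l)
    positivity
  have hB0 : 0 ≤ B := by
    rw [hB]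
    exact Finset.sum_nonneg fun l _ => hBt l
  have hAl : ∀ l ≤ K0, Cl l ≤ A := fun l hl => by
    rw [hA]
    exact Finset.single_le_sum (f := Cl) (fun l _ => hCl0 l) (Finset.mem_range.2 (by omega))
  have hBl : ∀ l ≤ K0, gm (2 * l) * l * C0 ≤ B := fun l hl => by
    rw [hB]
    exact Finset.single_le_sum (f := fun l : ℕ => gm (2 * l) * l * C0) (fun l _ => hBt l)
      (Finset.mem_range.2 (by omega))
  obtain ⟨τ, hτdef⟩ : ∃ τ : ℝ, τ = ρ ^ K0 / (K0 + 1) := ⟨_, rfl⟩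
  have hτ : 0 < τ := by rw [hτdef]; positivity
  obtain ⟨z, hz⟩ := exists_nat_gt (4 * B / τ + 1)
  have hz1 : (1 : ℝ) < z := by
    have : 0 ≤ 4 * B / τ := by positivity
    linarith
  have hz0 : (0 : ℝ) < z := by linarith
  have hBz : B * (1 / z) ≤ τ / 4 := by
    have h1 : 4 * B / τ < z := by linarith
    rw [div_lt_iff₀ hτ] at h1
    rw [mul_one_div, div_le_iff₀ hz0]
    linarith
  obtain ⟨D0, hD0⟩ := exists_nat_gt (4 * (A + B * ((1 + V) * z)) / τ + 1)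
  have hD01 : (1 : ℝ) < D0 := by
    have : 0 ≤ 4 * (A + B * ((1 + V) * z)) / τ := by positivity
    linarith
  refine ⟨z, D0, τ / (4 * (2 + B)), by exact_mod_cast hz1.le, by exact_mod_cast hD01.le,
    by positivity, ?_⟩
  intro m Dm xx D y δ w a c hm hK hδ hgood hcop hdvd hD0D hDDm hc hvar hDV hxx hy hDδ hsq k hk
  obtain ⟨η, hηdef⟩ : ∃ η : ℝ, η = τ / (4 * (2 + B)) := ⟨_, rfl⟩
  rw [← hηdef] at hDδ hsq
  have hη : 0 < η := by rw [hηdef]; positivity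
  have hη2 : (2 + B) * η ≤ τ / 4 := by
    rw [hηdef]
    have : (2 + B) ≠ 0 := by positivity
    field_simp
    linarith
  have hy' : (0 : ℝ) < y := by exact_mod_cast hy
  have hDr : (D0 : ℝ) ≤ D := by exact_mod_cast hD0D
  have hD1 : (1 : ℝ) ≤ D := by linarith
  have hD' : (0 : ℝ) < D := by linarith
  have hDn : 1 ≤ D := by exact_mod_cast hD1
  have hABD : A / D + B * ((1 + V) * z / D) ≤ τ / 4 := by
    have h1 : 4 * (A + B * ((1 + V) * z)) / τ < D := by linarith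
    rw [div_lt_iff₀ hτ] at h1
    have h2 : A / D + B * ((1 + V) * z / D) = (A + B * ((1 + V) * z)) / D := by
      field_simp
    rw [h2, div_le_iff₀ hD']
    linarith
  obtain ⟨S, hSdef⟩ : ∃ S : ℝ, S = c2 * ∑ i ∈ Icc 1 D, c i ^ 2 := ⟨_, rfl⟩
  rw [← hSdef]
  have hSD : S ≤ D := by
    rw [hSdef]
    exact S_le D hc
  have hS : ρ * D ≤ S := by
    rw [hSdef, hρdef]
    calc c2 / V * D ≤ c2 / V * (V * ∑ i ∈ Icc 1 D, c i ^ 2) :=
          mul_le_mul_of_nonneg_left hDV (by positivity)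
      _ = c2 * ∑ i ∈ Icc 1 D, c i ^ 2 := by field_simp
  have hρS : ρ ≤ S := le_trans (le_mul_of_one_le_right hρ.le hD1) hS
  rcases Nat.eq_zero_or_pos k with hk0 | hk0
  · subst hk0
    have e1 : (∑ n ∈ Icc 1 y, (sm a D c n / Real.sqrt S) ^ 0) / y - gm 0 = 0 := by
      rw [gm_zero]
      simp only [pow_zero, Finset.sum_const, Nat.card_Icc, Nat.add_sub_cancel, nsmul_eq_mul,
        mul_one]
      rw [div_self hy'.ne', sub_self]
    rw [e1, abs_zero]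
    positivity
  have hK1 : 1 ≤ K0 := by omega
  have hKr : (0 : ℝ) < K0 := by exact_mod_cast hK1
  have hτK : τ / ρ ^ K0 ≤ 1 / K0 := by
    have h1 : τ / ρ ^ K0 = 1 / (K0 + 1) := by
      rw [hτdef]
      have : ρ ^ K0 ≠ 0 := by positivity
      field_simp
    rw [h1]
    exact one_div_le_one_div_of_le hKr (by linarith)
  -- the replacement of the powers by the averages
  have hmom : |∑ n ∈ Icc 1 y, (sm a D c n ^ k - avs a D c k n)| ≤ 2 * η * y := by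
    refine (mom_one Dm xx δ w a hm hgood hδ D y k c hDDm hxx (by omega) hc).trans ?_
    have h1 : (D : ℝ) ^ k ≤ (D : ℝ) ^ K0 := pow_le_pow_right₀ hD1 hk
    have h2 : (D : ℝ) ^ k * δ ≤ (D : ℝ) ^ K0 * δ := mul_le_mul_of_nonneg_right h1 hδ
    linarith
  rcases Nat.even_or_odd k with hev | hodd
  · obtain ⟨l, hl⟩ := hev
    have hkl : k = 2 * l := by omega
    subst hkl
    have hlK : l ≤ K0 := by omega
    have hl1 : 1 ≤ l := by omega
    have h2 : ∀ n, |avs a D c (2 * l) n - gm (2 * l) * NN a D c n ^ l| ≤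
        Cl l * (D : ℝ) ^ l / D := by
      intro n
      have h3 := hCl l (Icc 1 D) (fun v => c v * (ArithmeticFunction.moebius (n + pl a v) : ℝ))
        (fun v => by
          have h4 : |((ArithmeticFunction.moebius (n + pl a v) : ℤ) : ℝ)| ≤ 1 := by
            exact_mod_cast ArithmeticFunction.abs_moebius_le_one
          rw [abs_mul]
          have h5 := hc v
          have h6 := abs_nonneg (c v)
          have h7 := abs_nonneg ((ArithmeticFunction.moebius (n + pl a v) : ℤ) : ℝ)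
          nlinarith) D hDn (by simp)
      rw [rm_eq]
      have h8 : NN a D c n = ∑ v ∈ Icc 1 D,
          (c v * (ArithmeticFunction.moebius (n + pl a v) : ℝ)) ^ 2 := by
        unfold NN
        exact Finset.sum_congr rfl fun v _ => (mul_pow _ _ _).symm
      rw [h8]
      exact h3
    have h3 : ∑ n ∈ Icc 1 y, |NN a D c n - S| ≤
        C0 * (y * ((1 + V) * z + D / z) + D * (η * y)) := by
      have h4 := hconc m z D y xx a c V (by exact_mod_cast hz1.le) hV0.le hcop hdvd hm hc hvar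
        (fun i hi => hxx i (by
          rw [Finset.mem_Icc] at hi ⊢
          exact ⟨hi.1, le_trans hi.2 hDDm⟩))
      rw [hSdef]
      refine le_trans h4 ?_
      refine mul_le_mul_of_nonneg_left ?_ (by linarith)
      have h5 : (D : ℝ) * Real.sqrt xx ≤ D * (η * y) := mul_le_mul_of_nonneg_left hsq hD'.le
      linarith
    have hfin := even_bound (V := V) (z := z) (ρ := ρ) (C0 := C0) (Cl := Cl l) (η := η) (S := S)
      (G := gm (2 * l)) (sm a D c) (avs a D c (2 * l)) (NN a D c) hy hDn hl1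
      (by exact_mod_cast hz1.le) hV0.le hρ hρ1 (by linarith) (hCl0 l) hη.le (gm_nonneg _) hS hSD
      (NN_nonneg a D c) (NN_le a D hc) hmom h2 h3
    refine le_trans hfin ?_
    have hE : 2 * η + Cl l / D + gm (2 * l) * l * C0 * ((1 + V) * z / D + 1 / z + η) ≤ τ := by
      have g1 : Cl l / D ≤ A / D := div_le_div_of_nonneg_right (hAl l hlK) hD'.le
      have g2 : gm (2 * l) * l * C0 * ((1 + V) * z / D + 1 / z + η) ≤
          B * ((1 + V) * z / D + 1 / z + η) :=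
        mul_le_mul_of_nonneg_right (hBl l hlK) (by positivity)
      have g3 : B * ((1 + V) * z / D + 1 / z + η) =
          B * ((1 + V) * z / D) + B * (1 / z) + B * η := by ring
      have g4 : (2 + B) * η = 2 * η + B * η := by ring
      linarith
    have hρl : ρ ^ K0 ≤ ρ ^ l := pow_le_pow_of_le_one hρ.le hρ1 hlK
    calc (2 * η + Cl l / D + gm (2 * l) * l * C0 * ((1 + V) * z / D + 1 / z + η)) / ρ ^ l
        ≤ τ / ρ ^ l := div_le_div_of_nonneg_right hE (by positivity)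
      _ ≤ τ / ρ ^ K0 := div_le_div_of_nonneg_left hτ.le (by positivity) hρl
      _ ≤ 1 / K0 := hτK
  · have hav : ∀ n, avs a D c k n = 0 := fun n => by
      rw [rm_eq]
      exact Rm_odd hodd _ _
    have hmom' : |∑ n ∈ Icc 1 y, sm a D c n ^ k| ≤ 2 * η * y := by
      have e1 : ∑ n ∈ Icc 1 y, sm a D c n ^ k = ∑ n ∈ Icc 1 y, (sm a D c n ^ k - avs a D c k n) :=
        Finset.sum_congr rfl fun n _ => by rw [hav n, sub_zero]
      rw [e1]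
      exact hmom
    rw [gm_odd hodd, sub_zero]
    refine le_trans (odd_bound (ρ := ρ) (η := η) (S := S) (sm a D c) hy hρ hρ1 hη.le hρS hmom') ?_
    have h2η : 2 * η ≤ τ := by
      have : 0 ≤ B * η := by positivity
      have g4 : (2 + B) * η = 2 * η + B * η := by ring
      linarith
    have hρl : ρ ^ K0 ≤ ρ ^ k := pow_le_pow_of_le_one hρ.le hρ1 hk
    calc 2 * η / ρ ^ k ≤ τ / ρ ^ k := div_le_div_of_nonneg_right h2η (by positivity)
      _ ≤ τ / ρ ^ K0 := div_le_div_of_nonneg_left hτ.le (by positivity) hρl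
      _ ≤ 1 / K0 := hτK

end Pool.Agent.MCP
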