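import Pool.Agent.Lib.MCP.Mom
import Pool.Agent.Lib.MCP.Sqc

/-!
# Module VarP: the variance

`mom_one` with `k = 2` (`m ≥ 1`): `|∑_{n ≤ y} sm² - ∑_{n ≤ y} avs 2| ≤ 2 D² δ`. `avs 2 n = ∑_i c_i² μ(n + pl a i)²` (`rm_eq`; `Rm 2 A c = ∑ c²`: from `even_part 2 A c`: `ntr 2 A` = the pairs with `t 0 ≠ t 1`, and `(∑ c)² = ∑ c² + ∑_{t 0 ≠ t 1}`). `sq_int` with `h = pl a i`:
`|∑_{n ≤ y} μ(n + pl a i)² - c2 y| ≤ C √(pl a i + y + 1) ≤ C √(xx + 1) ≤ 2 C √xx` (if `xx ≥ 1`; if `y = 0` everything is 0). Sum over `i ≤ D` with `c_i² ≤ 1`.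
-/

set_option autoImplicit false

open Finset Filter

namespace Pool.Agent.MCP

open Pool.Agent.P4f18df Pool.Agent.P4f18dfC

namespace VarPAux

theorem rm_two (A : Finset ℕ) (c : ℕ → ℝ) : Rm 2 A c = ∑ v ∈ A, c v ^ 2 := by
  unfold Rm
  induction A using Finset.induction_on with
  | empty =>
    have h : ∀ U : Finset ℕ, (∑ v ∈ (∅ : Finset ℕ), sg U v * c v) ^ 2 = 0 := by
      intro U
      simp
    rw [av_congr (fun U _ => h U), av_const]
    simp
  | insert p P hp ih =>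
    rw [av_insert hp]
    have h1 : ∀ U : Finset ℕ, U ⊆ P → (∑ v ∈ insert p P, sg U v * c v) ^ 2 =
        (∑ v ∈ P, sg U v * c v) ^ 2 + (2 * c p * (∑ v ∈ P, sg U v * c v) + c p ^ 2) := by
      intro U hU
      have h2 : sg U p = 1 := by
        unfold sg
        rw [if_neg (fun h => hp (hU h))]
      rw [Finset.sum_insert hp, h2]
      ring
    have h3 : ∀ U : Finset ℕ, U ⊆ P → (∑ v ∈ insert p P, sg (insert p U) v * c v) ^ 2 =
        (∑ v ∈ P, sg U v * c v) ^ 2 + (-(2 * c p * (∑ v ∈ P, sg U v * c v)) + c p ^ 2) := by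
      intro U hU
      have h2 : sg (insert p U) p = -1 := by
        unfold sg
        rw [if_pos (Finset.mem_insert_self p U)]
      have h4 : ∑ v ∈ P, sg (insert p U) v * c v = ∑ v ∈ P, sg U v * c v := by
        refine Finset.sum_congr rfl (fun v hv => ?_)
        have hne : v ≠ p := fun h => hp (by rwa [h] at hv)
        rw [sg_insert_of_ne hne]
      rw [Finset.sum_insert hp, h2, h4]
      ring
    rw [av_congr h1, av_congr h3, Finset.sum_insert hp, ← ih]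
    simp only [av_add, av_const]
    have h5 : av P (fun U => -(2 * c p * ∑ v ∈ P, sg U v * c v)) =
        -1 * av P (fun U => 2 * c p * ∑ v ∈ P, sg U v * c v) := by
      rw [← av_const_mul]
      exact av_congr (fun U _ => by ring)
    rw [h5]
    ring

end VarPAux

theorem var_p : ∃ C : ℝ, 1 ≤ C ∧ ∀ (m Dm xx D y : ℕ) (δ : ℝ) (w : ℤ → ℝ) (a : Fin m → ℕ) (c : ℕ → ℝ), 1 ≤ m → 0 ≤ δ → GoodA Dm xx δ w a →
    D ≤ Dm → (∀ i, |c i| ≤ 1) → (∀ i ∈ Icc 1 Dm, pl a i + y ≤ xx) → 1 ≤ xx →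
    |∑ n ∈ Icc 1 y, sm a D c n ^ 2 - c2 * y * ∑ i ∈ Icc 1 D, c i ^ 2| ≤ C * ((D : ℝ) ^ 2 * δ + D * Real.sqrt xx) := by
  obtain ⟨C, hC1, hC⟩ := sq_int
  refine ⟨2 * C, by linarith, fun m Dm xx D y δ w a c hm hδ hG hD hc hy hxx => ?_⟩
  have h1 := mom_one Dm xx δ w a hm hG hδ D y 2 c hD hy (by omega) hc
  have h2 : ∀ n, avs a D c 2 n =
      ∑ i ∈ Icc 1 D, c i ^ 2 * (ArithmeticFunction.moebius (n + pl a i) : ℝ) ^ 2 := by
    intro n
    rw [rm_eq, VarPAux.rm_two]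
    exact Finset.sum_congr rfl (fun i _ => by ring)
  have h3 : ∑ n ∈ Icc 1 y, avs a D c 2 n = ∑ i ∈ Icc 1 D, c i ^ 2 *
      ∑ n ∈ Icc 1 y, (ArithmeticFunction.moebius (n + pl a i) : ℝ) ^ 2 := by
    simp only [h2]
    rw [Finset.sum_comm]
    exact Finset.sum_congr rfl (fun i _ => by rw [Finset.mul_sum])
  have h4 : |∑ n ∈ Icc 1 y, avs a D c 2 n - c2 * y * ∑ i ∈ Icc 1 D, c i ^ 2| ≤
      2 * C * (D * Real.sqrt xx) := by
    rw [h3]
    have e : ∑ i ∈ Icc 1 D, c i ^ 2 *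
        ∑ n ∈ Icc 1 y, (ArithmeticFunction.moebius (n + pl a i) : ℝ) ^ 2 -
          c2 * y * ∑ i ∈ Icc 1 D, c i ^ 2 = ∑ i ∈ Icc 1 D, c i ^ 2 *
        (∑ n ∈ Icc 1 y, (ArithmeticFunction.moebius (n + pl a i) : ℝ) ^ 2 - c2 * y) := by
      rw [Finset.mul_sum, ← Finset.sum_sub_distrib]
      exact Finset.sum_congr rfl (fun i _ => by ring)
    rw [e]
    refine (Finset.abs_sum_le_sum_abs _ _).trans ?_
    have h5 : ∀ i ∈ Icc 1 D, |c i ^ 2 *
        (∑ n ∈ Icc 1 y, (ArithmeticFunction.moebius (n + pl a i) : ℝ) ^ 2 - c2 * y)| ≤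
          2 * C * Real.sqrt xx := by
      intro i hi
      have hi2 : i ∈ Icc 1 Dm := by
        rw [Finset.mem_Icc] at hi ⊢
        omega
      have h6 := hC (pl a i) y
      have h6' : |∑ n ∈ Icc 1 y, (ArithmeticFunction.moebius (n + pl a i) : ℝ) ^ 2 - c2 * y| ≤
          C * Real.sqrt (pl a i + y + 1) := h6
      have h7 : Real.sqrt ((pl a i : ℝ) + y + 1) ≤ 2 * Real.sqrt xx := by
        have h8 : (pl a i : ℝ) + y ≤ xx := by exact_mod_cast hy i hi2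
        have h9 : (1 : ℝ) ≤ xx := by exact_mod_cast hxx
        have h10 : (2 : ℝ) * Real.sqrt xx = Real.sqrt (4 * xx) := by
          rw [Real.sqrt_mul (by norm_num)]
          congr 1
          rw [show (4 : ℝ) = 2 ^ 2 by norm_num, Real.sqrt_sq (by norm_num)]
        rw [h10]
        exact Real.sqrt_le_sqrt (by linarith)
      have h11 : |c i ^ 2| ≤ 1 := by
        rw [abs_pow]
        exact pow_le_one₀ (abs_nonneg _) (hc i)
      rw [abs_mul]
      calc |c i ^ 2| * |∑ n ∈ Icc 1 y, (ArithmeticFunction.moebius (n + pl a i) : ℝ) ^ 2 - c2 * y|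
          ≤ 1 * (C * Real.sqrt (pl a i + y + 1)) :=
            mul_le_mul h11 h6' (abs_nonneg _) zero_le_one
        _ ≤ 1 * (C * (2 * Real.sqrt xx)) := by
            have := mul_le_mul_of_nonneg_left h7 (show (0 : ℝ) ≤ C by linarith)
            linarith
        _ = 2 * C * Real.sqrt xx := by ring
    refine (Finset.sum_le_sum h5).trans ?_
    rw [Finset.sum_const, Nat.card_Icc, nsmul_eq_mul, Nat.add_sub_cancel]
    apply le_of_eq
    ring
  have h12 : ∑ n ∈ Icc 1 y, sm a D c n ^ 2 - c2 * y * ∑ i ∈ Icc 1 D, c i ^ 2 =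
      ∑ n ∈ Icc 1 y, (sm a D c n ^ 2 - avs a D c 2 n) +
        (∑ n ∈ Icc 1 y, avs a D c 2 n - c2 * y * ∑ i ∈ Icc 1 D, c i ^ 2) := by
    rw [Finset.sum_sub_distrib]
    ring
  rw [h12]
  refine (abs_add_le _ _).trans ?_
  have h13 : 0 ≤ (D : ℝ) ^ 2 * δ := mul_nonneg (by positivity) hδ
  nlinarith [h1, h4, h13, hC1]

end Pool.Agent.MCP
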