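import Pool.Agent.Lib.MCP.Exc
import Pool.Agent.Lib.MCP.VarP
import Pool.Agent.Lib.MCP.LawM
import Pool.Agent.Lib.MCP.DLaw

/-!
# Module FinA: the two parts, integer exponents

`L = log x`. `Dm = ⌊L^K⌋`, `xx = ⌈x L^(K m + 2)⌉`-like: `pl a i ≤ m H Dm^m ≤ m x L^(K m)` for `a ≤ H ≤ x`, so `pl a i + y ≤ xx`. `exc m (K m + K + 5) (A + K (m+1) + 5) ε` for the weight `fun n : ℤ => w n.toNat` (`= w n` at natural numbers): `GoodA Dm xx δ _ a`, `δ = x/L^(A + K(m+1) + 5)`.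
`part_a`: `mom_w` (`D^k δ ≤ L^(K m) δ ≤ x/L^A`), `mom_one` (`2 D^(m+1) δ`), `var_p` (`D² δ` and `D √xx ≤ x/L^(A+1)`).
`part_b`: `d_law δ` gives `K0`; `law_mom K0 V` gives `z, D0, η`; `m0 = K0`, `W = z.factorial`. Use `exc` with the exponent `A + K K0 + K + 5 + ...`: for `y ≥ x/L^K`: `D^K0 δ' ≤ L^(K K0) x/L^(A + K K0 + K + 5) ≤ η y` and `√xx ≤ η y` for `x` large. `w = 1`.
Conclusion of `d_law` for `f n = sm a D c n / √(c2 ∑ c²)`: `f n ≤ t` iff `sm a D c n ≤ t √(c2 ∑ c²)` (`∑ c² ≥ D/V > 0`, `div_le_iff₀`).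
-/

set_option autoImplicit false

open Finset Filter ProbabilityTheory

namespace Pool.Agent.MCP

open Pool.Agent.P4f18df

namespace FinAAux

theorem ev_log (C : ℝ) (e : ℕ) : ∀ᶠ x : ℕ in atTop, C * Real.log x ^ e ≤ x := by
  have h := (Real.isLittleO_pow_log_id_atTop (n := e)).comp_tendsto tendsto_natCast_atTop_atTop
  have hc : (0 : ℝ) < 1 / (|C| + 1) := by positivity
  have h2 := h.bound hc
  filter_upwards [h2, eventually_ge_atTop 1] with x hx hx1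
  simp only [Function.comp, id, Real.norm_eq_abs] at hx
  have hL : 0 ≤ Real.log x := Real.log_nonneg (by exact_mod_cast hx1)
  have hLe : 0 ≤ Real.log x ^ e := pow_nonneg hL e
  rw [abs_of_nonneg hLe, abs_of_nonneg (Nat.cast_nonneg x : (0 : ℝ) ≤ (x : ℝ))] at hx
  have h3 : (|C| + 1) * Real.log x ^ e ≤ x := by
    have := mul_le_mul_of_nonneg_left hx (by positivity : (0:ℝ) ≤ |C| + 1)
    calc (|C| + 1) * Real.log x ^ e ≤ (|C| + 1) * (1 / (|C| + 1) * x) := this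
      _ = x := by field_simp
  have h4 : C * Real.log x ^ e ≤ (|C| + 1) * Real.log x ^ e :=
    mul_le_mul_of_nonneg_right (by linarith [le_abs_self C]) hLe
  linarith

theorem ev_ge (B : ℝ) : ∀ᶠ x : ℕ in atTop, B ≤ Real.log x :=
  (Real.tendsto_log_atTop.comp tendsto_natCast_atTop_atTop).eventually_ge_atTop B

theorem pl_le {m : ℕ} (a : Fin m → ℕ) (H Dm i : ℕ) (ha : ∀ l, a l ≤ H) (hi : 1 ≤ i) (hi' : i ≤ Dm) :
    pl a i ≤ m * H * Dm ^ m := by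
  unfold pl
  have h1 : ∀ l ∈ (Finset.univ : Finset (Fin m)), a l * i ^ (l.val + 1) ≤ H * Dm ^ m := by
    intro l _
    have h2 : i ^ (l.val + 1) ≤ Dm ^ m :=
      (Nat.pow_le_pow_left hi' _).trans (Nat.pow_le_pow_right (by omega) (by have := l.isLt; omega))
    exact Nat.mul_le_mul (ha l) h2
  have h3 := Finset.sum_le_card_nsmul _ _ _ h1
  rw [Finset.card_univ, Fintype.card_fin, smul_eq_mul, ← mul_assoc] at h3
  exact h3

theorem xx_le (m K x Dm : ℕ) (L : ℝ) (hL : (m : ℝ) + 1 ≤ L) (hD : (Dm : ℝ) ≤ L ^ K) :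
    ((m * x * Dm ^ m + x : ℕ) : ℝ) ≤ x * L ^ (K * m + K + 5) := by
  have hL1 : (1 : ℝ) ≤ L := by
    have : (0 : ℝ) ≤ m := Nat.cast_nonneg m
    linarith
  have h1 : (Dm : ℝ) ^ m ≤ L ^ (K * m) := by
    rw [pow_mul]
    exact pow_le_pow_left₀ (Nat.cast_nonneg _) hD m
  have h2 : (1 : ℝ) ≤ L ^ (K * m) := one_le_pow₀ hL1
  have hx0 : (0 : ℝ) ≤ x := Nat.cast_nonneg x
  push_cast
  have h3 : (m : ℝ) * x * (Dm : ℝ) ^ m + x ≤ x * (((m : ℝ) + 1) * L ^ (K * m)) := by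
    have h4 : (m : ℝ) * x * (Dm : ℝ) ^ m ≤ m * x * L ^ (K * m) :=
      mul_le_mul_of_nonneg_left h1 (by positivity)
    have h5 : (x : ℝ) ≤ x * L ^ (K * m) := le_mul_of_one_le_right hx0 h2
    nlinarith
  refine h3.trans (mul_le_mul_of_nonneg_left ?_ hx0)
  have h6 : ((m : ℝ) + 1) * L ^ (K * m) ≤ L * L ^ (K * m) :=
    mul_le_mul_of_nonneg_right hL (by positivity)
  refine h6.trans ?_
  rw [← pow_succ']
  exact pow_le_pow_right₀ hL1 (by omega)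

theorem hyp {m : ℕ} (a : Fin m → ℕ) (x H Dm y : ℕ) (ha : ∀ l, 1 ≤ a l ∧ a l ≤ H) (hH : H ≤ x) (hy : y ≤ x) :
    ∀ i ∈ Icc 1 Dm, pl a i + y ≤ m * x * Dm ^ m + x := by
  intro i hi
  rw [Finset.mem_Icc] at hi
  have h1 := pl_le a x Dm i (fun l => (ha l).2.trans hH) hi.1 hi.2
  omega

theorem ecard (H m A B : ℕ) (L : ℝ) (hL : 1 ≤ L) (c : ℝ) (h : c ≤ (H : ℝ) ^ m / L ^ B) (hAB : A ≤ B) :
    c ≤ (H : ℝ) ^ m / L ^ A :=
  h.trans (div_le_div_of_nonneg_left (by positivity) (by positivity) (pow_le_pow_right₀ hL hAB))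

theorem dk (D K k A B : ℕ) (L x : ℝ) (hL : 1 ≤ L) (hx : 0 ≤ x) (hD : (D : ℝ) ≤ L ^ K) (hk : A + K * k ≤ B) :
    (D : ℝ) ^ k * (x / L ^ B) ≤ x / L ^ A := by
  have h1 : (D : ℝ) ^ k ≤ L ^ (K * k) := by
    rw [pow_mul]
    exact pow_le_pow_left₀ (Nat.cast_nonneg _) hD k
  have hB : 0 < L ^ B := by positivity
  have hA : 0 < L ^ A := by positivity
  calc (D : ℝ) ^ k * (x / L ^ B) ≤ L ^ (K * k) * (x / L ^ B) :=
        mul_le_mul_of_nonneg_right h1 (by positivity)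
    _ ≤ x / L ^ A := by
        rw [← mul_div_assoc, div_le_div_iff₀ hB hA]
        have h2 : L ^ (K * k) * L ^ A ≤ L ^ B := by
          rw [← pow_add]
          exact pow_le_pow_right₀ hL (by omega)
        calc L ^ (K * k) * x * L ^ A = x * (L ^ (K * k) * L ^ A) := by ring
          _ ≤ x * L ^ B := mul_le_mul_of_nonneg_left h2 hx

end FinAAux

theorem part_a (m K A : ℕ) (hm : 1 ≤ m) (ε : ℝ) (hε : 0 < ε) : ∀ᶠ x : ℕ in atTop, ∀ H : ℕ, (x : ℝ) ^ (1 / 6 + ε) ≤ H →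
    H ≤ x → ∀ w : ℕ → ℝ, (∀ n, |w n| ≤ 1) → ∃ E : Finset (Fin m → ℕ), (E.card : ℝ) ≤ (H : ℝ) ^ m / Real.log x ^ A ∧
      ∀ a : Fin m → ℕ, (∀ l, 1 ≤ a l ∧ a l ≤ H) → a ∉ E → ∀ (D y : ℕ) (c : ℕ → ℝ), (D : ℝ) ≤ Real.log x ^ K → y ≤ x → (∀ i, |c i| ≤ 1) →
        (∀ k ≤ m, |∑ n ∈ Icc 1 y, w n * (sm a D c n ^ k - avs a D c k n)| ≤ x / Real.log x ^ A) ∧
        |∑ n ∈ Icc 1 y, (sm a D c n ^ (m + 1) - avs a D c (m + 1) n)| ≤ x / Real.log x ^ A ∧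
        |∑ n ∈ Icc 1 y, sm a D c n ^ 2 - c2 * y * ∑ i ∈ Icc 1 D, c i ^ 2| ≤ x / Real.log x ^ A := by
  obtain ⟨C, hC1, hC⟩ := var_p
  filter_upwards [exc m (K * m + K + 5) (A + K * (m + 1) + 5) hm ε hε, FinAAux.ev_ge ((m : ℝ) + 1),
    FinAAux.ev_ge (2 * C), FinAAux.ev_log (4 * C ^ 2) (2 * K + 2 * A + (K * m + K + 5)), eventually_ge_atTop 1]
    with x hx hLm hLC hLx hx1 H hxH hHx w hw
  set L := Real.log (x : ℝ) with hLdef
  have hL2 : 2 ≤ L := by linarith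
  have hL1 : 1 ≤ L := by linarith
  have hx0 : (0 : ℝ) < x := by exact_mod_cast hx1
  set Dm := ⌊L ^ K⌋₊ with hDm
  have hDmL : (Dm : ℝ) ≤ L ^ K := Nat.floor_le (by positivity)
  have hxx := FinAAux.xx_le m K x Dm L hLm hDmL
  set xx := m * x * Dm ^ m + x with hxxd
  obtain ⟨E, hE, hG⟩ := hx H Dm xx hxH hHx (hDmL.trans (pow_le_pow_right₀ hL1 (by nlinarith))) hxx
    (fun n => w n.toNat) (fun n => hw _)
  refine ⟨E, FinAAux.ecard H m A _ L hL1 _ hE (by omega), ?_⟩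
  intro a ha haE D y c hD hy hc
  have hG' := hG a ha haE
  have hDD : D ≤ Dm := Nat.le_floor hD
  have hpl := FinAAux.hyp a x H Dm y ha hHx hy
  have hyx : y ≤ xx := by omega
  have hxx1 : 1 ≤ xx := by omega
  have hδ : 0 ≤ (x : ℝ) / L ^ (A + K * (m + 1) + 5) := by positivity
  have hdk2 : (D : ℝ) ^ (m + 1) * ((x : ℝ) / L ^ (A + K * (m + 1) + 5)) ≤ x / L ^ (A + 1) :=
    FinAAux.dk D K (m + 1) (A + 1) _ L x hL1 hx0.le hD (by omega)
  have hLA : 0 < L ^ A := by positivity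
  have h2A : 2 * ((x : ℝ) / L ^ (A + 1)) ≤ x / L ^ A := by
    rw [pow_succ, ← mul_div_assoc, div_le_div_iff₀ (by positivity) hLA]
    nlinarith [mul_pos hx0 hLA]
  refine ⟨?_, ?_, ?_⟩
  · intro k hk
    have h1 := mom_w Dm xx _ _ a hG' hδ D y k c hDD hyx hk hc
    simp only [Int.toNat_natCast] at h1
    refine h1.trans (FinAAux.dk D K k A _ L x hL1 hx0.le hD ?_)
    have : K * k ≤ K * (m + 1) := Nat.mul_le_mul_left K (by omega)
    omega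
  · have h1 := mom_one Dm xx _ _ a hm hG' hδ D y (m + 1) c hDD hpl le_rfl hc
    refine h1.trans ?_
    rw [mul_assoc]
    linarith
  · have h1 := hC m Dm xx D y _ _ a c hm hδ hG' hDD hc hpl hxx1
    refine h1.trans ?_
    have h3 : (D : ℝ) ^ 2 * ((x : ℝ) / L ^ (A + K * (m + 1) + 5)) ≤ x / L ^ (A + 1) := by
      refine FinAAux.dk D K 2 (A + 1) _ L x hL1 hx0.le hD ?_
      have : K * 2 ≤ K * (m + 1) := Nat.mul_le_mul_left K (by omega)
      omega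
    have h4 : C * ((x : ℝ) / L ^ (A + 1)) ≤ x / L ^ A / 2 := by
      rw [pow_succ, div_div, ← mul_div_assoc, div_le_div_iff₀ (by positivity) (by positivity)]
      nlinarith [mul_pos hx0 hLA]
    have h5 : C * (D * Real.sqrt xx) ≤ x / L ^ A / 2 := by
      have h6 : Real.sqrt xx ≤ (x : ℝ) / (2 * C * L ^ (K + A)) := by
        apply Real.sqrt_le_iff.2
        refine ⟨by positivity, ?_⟩
        refine hxx.trans ?_
        rw [div_pow, le_div_iff₀ (by positivity)]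
        have h7 : (2 * C * L ^ (K + A)) ^ 2 = 4 * C ^ 2 * L ^ (2 * K + 2 * A) := by
          rw [mul_pow, mul_pow, ← pow_mul]
          have : (K + A) * 2 = 2 * K + 2 * A := by ring
          rw [this]
          ring
        rw [h7]
        calc (x : ℝ) * L ^ (K * m + K + 5) * (4 * C ^ 2 * L ^ (2 * K + 2 * A))
            = (x : ℝ) * (4 * C ^ 2 * L ^ (2 * K + 2 * A + (K * m + K + 5))) := by
              rw [pow_add L (2 * K + 2 * A) (K * m + K + 5)]; ring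
          _ ≤ (x : ℝ) * x := mul_le_mul_of_nonneg_left hLx hx0.le
          _ = (x : ℝ) ^ 2 := by ring
      have h8 : (D : ℝ) * Real.sqrt xx ≤ L ^ K * ((x : ℝ) / (2 * C * L ^ (K + A))) :=
        mul_le_mul hD h6 (Real.sqrt_nonneg _) (by positivity)
      have h9 : C * (L ^ K * ((x : ℝ) / (2 * C * L ^ (K + A)))) = x / L ^ A / 2 := by
        rw [pow_add]
        field_simp
      calc C * (D * Real.sqrt xx) ≤ C * (L ^ K * ((x : ℝ) / (2 * C * L ^ (K + A)))) :=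
            mul_le_mul_of_nonneg_left h8 (by linarith)
        _ = x / L ^ A / 2 := h9
    calc C * ((D : ℝ) ^ 2 * ((x : ℝ) / L ^ (A + K * (m + 1) + 5)) + D * Real.sqrt xx)
        = C * ((D : ℝ) ^ 2 * ((x : ℝ) / L ^ (A + K * (m + 1) + 5))) + C * (D * Real.sqrt xx) := by ring
      _ ≤ C * ((x : ℝ) / L ^ (A + 1)) + x / L ^ A / 2 :=
          add_le_add (mul_le_mul_of_nonneg_left h3 (by linarith)) h5
      _ ≤ x / L ^ A := by linarith

theorem part_b (δ V : ℝ) (hδ : 0 < δ) (hV : 1 ≤ V) : ∃ m0 D0 W : ℕ, 1 ≤ D0 ∧ 1 ≤ W ∧ ∀ m : ℕ, m0 ≤ m → 1 ≤ m → ∀ (K A : ℕ) (ε : ℝ), 0 < ε →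
    ∀ᶠ x : ℕ in atTop, ∀ H : ℕ, (x : ℝ) ^ (1 / 6 + ε) ≤ H → H ≤ x → ∃ E : Finset (Fin m → ℕ), (E.card : ℝ) ≤ (H : ℝ) ^ m / Real.log x ^ A ∧
      ∀ a : Fin m → ℕ, (∀ l, 1 ≤ a l ∧ a l ≤ H) → a ∉ E → (∀ l : Fin m, l.val = 0 → (a l).Coprime W) → (∀ l : Fin m, l.val ≠ 0 → W ^ 2 ∣ a l) →
        ∀ (D y : ℕ) (c : ℕ → ℝ), D0 ≤ D → (D : ℝ) ≤ Real.log x ^ K → y ≤ x → (x : ℝ) ≤ y * Real.log x ^ K → (∀ i, |c i| ≤ 1) →
          ∑ i ∈ Icc 1 D, |c (i + 1) ^ 2 - c i ^ 2| ≤ V → (D : ℝ) ≤ V * ∑ i ∈ Icc 1 D, c i ^ 2 → ∀ t : ℝ,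
          |(((Icc 1 y).filter (fun n => sm a D c n ≤ t * Real.sqrt (c2 * ∑ i ∈ Icc 1 D, c i ^ 2))).card : ℝ) / y -
            cdf (gaussianReal 0 1) t| ≤ δ := by
  obtain ⟨K0, hK0, hlaw⟩ := d_law δ hδ
  obtain ⟨z, D0, η, hz, hD0, hη, hmom⟩ := law_mom K0 V hV
  refine ⟨K0, D0, z.factorial, hD0, Nat.factorial_pos z, ?_⟩
  intro m hm0 hm K A ε hε
  filter_upwards [exc m (K * m + K + 5) (A + K * K0 + K + 5) hm ε hε, FinAAux.ev_ge ((m : ℝ) + 1),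
    FinAAux.ev_ge (1 / η), FinAAux.ev_log (1 / η ^ 2) (K * m + K + 5 + 2 * K), eventually_ge_atTop 1]
    with x hx hLm hLη hLx hx1 H hxH hHx
  set L := Real.log (x : ℝ) with hLdef
  have hL1 : 1 ≤ L := by
    have : (0 : ℝ) ≤ m := Nat.cast_nonneg m
    linarith
  have hx0 : (0 : ℝ) < x := by exact_mod_cast hx1
  set Dm := ⌊L ^ K⌋₊ with hDm
  have hDmL : (Dm : ℝ) ≤ L ^ K := Nat.floor_le (by positivity)
  have hxx := FinAAux.xx_le m K x Dm L hLm hDmL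
  set xx := m * x * Dm ^ m + x with hxxd
  obtain ⟨E, hE, hG⟩ := hx H Dm xx hxH hHx (hDmL.trans (pow_le_pow_right₀ hL1 (by nlinarith))) hxx
    (fun _ => 1) (fun n => by simp)
  refine ⟨E, FinAAux.ecard H m A _ L hL1 _ hE (by omega), ?_⟩
  intro a ha haE hcop hdiv D y c hDD0 hD hy hxy hc hvar hDV t
  have hG' := hG a ha haE
  have hDD : D ≤ Dm := Nat.le_floor hD
  have hpl := FinAAux.hyp a x H Dm y ha hHx hy
  have hδ' : 0 ≤ (x : ℝ) / L ^ (A + K * K0 + K + 5) := by positivity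
  have hLK : 0 < L ^ K := by positivity
  have hy0 : (0 : ℝ) < y := by
    by_contra hcon
    have : (y : ℝ) * L ^ K ≤ 0 := mul_nonpos_of_nonpos_of_nonneg (not_lt.1 hcon) hLK.le
    linarith
  have hy1 : 1 ≤ y := by exact_mod_cast hy0
  have hb1 : (D : ℝ) ^ K0 * ((x : ℝ) / L ^ (A + K * K0 + K + 5)) ≤ η * y := by
    have h1 : (D : ℝ) ^ K0 * ((x : ℝ) / L ^ (A + K * K0 + K + 5)) ≤ x / L ^ (K + 1) :=
      FinAAux.dk D K K0 (K + 1) _ L x hL1 hx0.le hD (by omega)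
    refine h1.trans ?_
    rw [div_le_iff₀ (by positivity), pow_succ]
    have h2 : 1 ≤ η * L := by
      have := mul_le_mul_of_nonneg_left hLη hη.le
      rwa [mul_one_div_cancel hη.ne'] at this
    calc (x : ℝ) ≤ y * L ^ K := hxy
      _ ≤ y * L ^ K * (η * L) := le_mul_of_one_le_right (by positivity) h2
      _ = η * y * (L ^ K * L) := by ring
  have hb2 : Real.sqrt xx ≤ η * y := by
    apply Real.sqrt_le_iff.2
    refine ⟨by positivity, hxx.trans ?_⟩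
    have h1 : L ^ (K * m + K + 5 + 2 * K) ≤ η ^ 2 * x := by
      have := mul_le_mul_of_nonneg_left hLx (by positivity : (0 : ℝ) ≤ η ^ 2)
      rw [← mul_assoc, mul_one_div_cancel (by positivity), one_mul] at this
      exact this
    have h2 : (x : ℝ) ^ 2 ≤ (y * L ^ K) ^ 2 := pow_le_pow_left₀ hx0.le hxy 2
    have h3 : 0 < L ^ (2 * K) := by positivity
    have h4 : (x : ℝ) * L ^ (K * m + K + 5) * L ^ (2 * K) ≤ (η * y) ^ 2 * L ^ (2 * K) := by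
      calc (x : ℝ) * L ^ (K * m + K + 5) * L ^ (2 * K) = x * L ^ (K * m + K + 5 + 2 * K) := by
            rw [pow_add L (K * m + K + 5) (2 * K)]; ring
        _ ≤ x * (η ^ 2 * x) := mul_le_mul_of_nonneg_left h1 hx0.le
        _ = η ^ 2 * (x : ℝ) ^ 2 := by ring
        _ ≤ η ^ 2 * (y * L ^ K) ^ 2 := mul_le_mul_of_nonneg_left h2 (by positivity)
        _ = (η * y) ^ 2 * L ^ (2 * K) := by
            rw [mul_pow, mul_pow, ← pow_mul, mul_comm K 2]; ring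
    exact le_of_mul_le_mul_right h4 h3
  have hfin := hlaw y (fun n => sm a D c n / Real.sqrt (c2 * ∑ i ∈ Icc 1 D, c i ^ 2)) hy1
    (hmom m Dm xx D y _ _ a c hm (by omega) hδ' hG' hcop hdiv hDD0 hDD hc hvar hDV hpl hy1 hb1 hb2) t
  have hS : 0 < Real.sqrt (c2 * ∑ i ∈ Icc 1 D, c i ^ 2) := by
    apply Real.sqrt_pos.2
    apply mul_pos c2_pos
    have hD1 : (1 : ℝ) ≤ D := by exact_mod_cast (hD0.trans hDD0)
    by_contra hcon
    have : V * ∑ i ∈ Icc 1 D, c i ^ 2 ≤ 0 := mul_nonpos_of_nonneg_of_nonpos (by linarith) (not_lt.1 hcon)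
    linarith
  have hset : (Icc 1 y).filter (fun n => sm a D c n / Real.sqrt (c2 * ∑ i ∈ Icc 1 D, c i ^ 2) ≤ t) =
      (Icc 1 y).filter (fun n => sm a D c n ≤ t * Real.sqrt (c2 * ∑ i ∈ Icc 1 D, c i ^ 2)) := by
    apply Finset.filter_congr
    intro n _
    rw [div_le_iff₀ hS]
  rw [hset] at hfin
  exact hfin

end Pool.Agent.MCP
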