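import Pool.Agent.Lib.MCP.CorA
import Pool.Agent.Lib.P4f18dfC.Rad

/-!
# Module Mom: moments of the sums along a polynomial

`P4f18dfC.even_part k A c`: `(∑ n ∈ A, c n)^k = Rm k A c + ∑ t ∈ ntr k A, ∏ i, c (t i)`, with `A = Icc 1 D` and the coefficients `v ↦ c v μ(n + pl a v)` for each `n`. So the difference is `∑_{t ∈ ntr k A} ∏ c (t i) · ∑_n w n ∏_i μ(n + pl a (t i))`. For `t ∈ ntr k A` (some value occurs an odd
number of times): `∏_i μ(n + pl a (t i)) = ∏_{v ∈ J} μ(n + pl a v) ∏_{v ∈ I \ J} μ(n + pl a v)²` with `I` = the image of `t`, `J` = the values of odd multiplicity (`μ^e = μ` for odd `e`, `= μ²` for even `e ≥ 2`, as `μ ∈ {-1,0,1}`), `I.card ≤ k`. `cor_w` resp. `cor_one`; at most `D^k` tuples `t`, `|∏ c| ≤ 1`.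
`rm_eq`: unfold `Rm`, `av`, `sg`: `∑_{U ∈ powerset} (∑_v sg U v * c v)^k / 2^card`; `sg U v * c v = if v ∈ U then - c v else c v`; `(Icc 1 D).card = D`.
-/

set_option autoImplicit false

open Finset Filter

namespace Pool.Agent.MCP

open Pool.Agent.P4f18df Pool.Agent.P4f18dfT Pool.Agent.P4f18dfC

/-- The average of the `k`-th power over all choices of signs. -/
noncomputable def avs {m : ℕ} (a : Fin m → ℕ) (D : ℕ) (c : ℕ → ℝ) (k n : ℕ) : ℝ :=
  (∑ U ∈ (Icc 1 D).powerset, sm a D (fun i => if i ∈ U then -c i else c i) n ^ k) / 2 ^ D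

namespace MomAux

theorem cube_mu (n : ℕ) : (ArithmeticFunction.moebius n : ℝ) ^ 3 = (ArithmeticFunction.moebius n : ℝ) := by
  rcases ArithmeticFunction.moebius_eq_or n with h | h | h <;> rw [h] <;> norm_num

theorem pow_odd {x : ℝ} (hx : x ^ 3 = x) {e : ℕ} (he : Odd e) : x ^ e = x := by
  obtain ⟨j, rfl⟩ := he
  induction j with
  | zero => simp
  | succ j ih =>
    have h1 : x ^ (2 * (j + 1) + 1) = x ^ (2 * j) * x ^ 3 := by ring
    rw [h1, hx, ← pow_succ, ih]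

theorem pow_even {x : ℝ} (hx : x ^ 3 = x) {e : ℕ} (he : Even e) (h0 : e ≠ 0) : x ^ e = x ^ 2 := by
  obtain ⟨j, rfl⟩ := he
  obtain ⟨l, rfl⟩ : ∃ l, j = l + 1 := ⟨j - 1, by omega⟩
  have h1 : x ^ (l + 1 + (l + 1)) = x ^ (2 * l + 1) * x := by ring
  rw [h1, pow_odd hx ⟨l, rfl⟩]
  ring

/-- the values of odd multiplicity -/
noncomputable def JJ {k : ℕ} (t : Fin k → ℕ) : Finset ℕ :=
  (univ.image t).filter fun v => Odd (univ.filter (fun i => t i = v)).card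

theorem prod_eq {k : ℕ} (t : Fin k → ℕ) (x : ℕ → ℝ) (hx : ∀ v, x v ^ 3 = x v) :
    ∏ i, x (t i) = (∏ v ∈ JJ t, x v) * ∏ v ∈ univ.image t \ JJ t, x v ^ 2 := by
  have h0 : JJ t ⊆ univ.image t := Finset.filter_subset _ _
  rw [Finset.prod_comp x t, ← Finset.prod_sdiff h0, mul_comm]
  congr 1
  · refine Finset.prod_congr rfl fun v hv => ?_
    exact pow_odd (hx v) (Finset.mem_filter.1 hv).2
  · refine Finset.prod_congr rfl fun v hv => ?_
    rw [Finset.mem_sdiff] at hv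
    have h1 : ¬ Odd (univ.filter (fun i => t i = v)).card := fun h =>
      hv.2 (Finset.mem_filter.2 ⟨hv.1, h⟩)
    refine pow_even (hx v) (Nat.not_odd_iff_even.1 h1) ?_
    obtain ⟨i, _, hi⟩ := Finset.mem_image.1 hv.1
    exact Finset.card_ne_zero_of_mem (Finset.mem_filter.2 ⟨Finset.mem_univ i, hi⟩)

theorem gen {m : ℕ} (a : Fin m → ℕ) (D k : ℕ) (c : ℕ → ℝ) (hc : ∀ i, |c i| ≤ 1) (S : Finset ℕ)
    (W : ℕ → ℝ) (ε : ℝ) (hε : 0 ≤ ε) (hrm : ∀ n, avs a D c k n =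
      Rm k (Icc 1 D) (fun v => c v * (ArithmeticFunction.moebius (n + pl a v) : ℝ)))
    (hb : ∀ I J : Finset ℕ, I ⊆ Icc 1 D → J ⊆ I → J.Nonempty → I.card ≤ k →
      |∑ n ∈ S, W n * ((∏ i ∈ J, (ArithmeticFunction.moebius (n + pl a i) : ℝ)) *
      ∏ i ∈ I \ J, (ArithmeticFunction.moebius (n + pl a i) : ℝ) ^ 2)| ≤ ε) :
    |∑ n ∈ S, W n * (sm a D c n ^ k - avs a D c k n)| ≤ (D : ℝ) ^ k * ε := by
  have h1 : ∀ n, sm a D c n ^ k - avs a D c k n = ∑ t ∈ ntr k (Icc 1 D), (∏ i, c (t i)) *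
      ((∏ v ∈ JJ t, (ArithmeticFunction.moebius (n + pl a v) : ℝ)) *
        ∏ v ∈ univ.image t \ JJ t, (ArithmeticFunction.moebius (n + pl a v) : ℝ) ^ 2) := by
    intro n
    rw [hrm]
    unfold sm
    rw [even_part, add_sub_cancel_left]
    refine Finset.sum_congr rfl fun t _ => ?_
    rw [Finset.prod_mul_distrib,
      prod_eq t (fun v => (ArithmeticFunction.moebius (n + pl a v) : ℝ)) fun v => cube_mu _]
  have h2 : ∑ n ∈ S, W n * (sm a D c n ^ k - avs a D c k n) =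
      ∑ t ∈ ntr k (Icc 1 D), (∏ i, c (t i)) * ∑ n ∈ S, W n *
      ((∏ v ∈ JJ t, (ArithmeticFunction.moebius (n + pl a v) : ℝ)) *
        ∏ v ∈ univ.image t \ JJ t, (ArithmeticFunction.moebius (n + pl a v) : ℝ) ^ 2) := by
    simp_rw [Finset.mul_sum]
    rw [Finset.sum_comm]
    refine Finset.sum_congr rfl fun n _ => ?_
    rw [h1, Finset.mul_sum]
    refine Finset.sum_congr rfl fun t _ => ?_
    ring
  have h3 : ∀ t ∈ ntr k (Icc 1 D), |(∏ i, c (t i)) * ∑ n ∈ S, W n *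
      ((∏ v ∈ JJ t, (ArithmeticFunction.moebius (n + pl a v) : ℝ)) *
        ∏ v ∈ univ.image t \ JJ t, (ArithmeticFunction.moebius (n + pl a v) : ℝ) ^ 2)| ≤ ε := by
    intro t ht
    rw [ntr, Finset.mem_filter, Fintype.mem_piFinset] at ht
    obtain ⟨ht, hev⟩ := ht
    have hI : univ.image t ⊆ Icc 1 D := by
      intro v hv
      obtain ⟨i, _, rfl⟩ := Finset.mem_image.1 hv
      exact ht i
    have hJ : (JJ t).Nonempty := by
      push Not at hev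
      obtain ⟨v, _, hv⟩ := hev
      have hv' := Nat.not_even_iff_odd.1 hv
      obtain ⟨i, hi⟩ := Finset.card_pos.1 hv'.pos
      exact ⟨v, Finset.mem_filter.2 ⟨Finset.mem_image.2 ⟨i, Finset.mem_univ i, (Finset.mem_filter.1 hi).2⟩, hv'⟩⟩
    have hk : (univ.image t).card ≤ k := by
      refine Finset.card_image_le.trans ?_
      rw [Finset.card_univ, Fintype.card_fin]
    have h4 := hb (univ.image t) (JJ t) hI (Finset.filter_subset _ _) hJ hk
    have h5 : |∏ i, c (t i)| ≤ 1 := by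
      rw [Finset.abs_prod]
      exact Finset.prod_le_one (fun i _ => abs_nonneg _) fun i _ => hc _
    rw [abs_mul]
    exact (mul_le_of_le_one_left (abs_nonneg _) h5).trans h4
  rw [h2]
  refine (Finset.abs_sum_le_sum_abs _ _).trans ((Finset.sum_le_sum h3).trans ?_)
  rw [Finset.sum_const, nsmul_eq_mul]
  refine mul_le_mul_of_nonneg_right ?_ hε
  have h6 : (ntr k (Icc 1 D)).card ≤ D ^ k := by
    refine (Finset.card_filter_le _ _).trans ?_
    rw [Fintype.card_piFinset, Finset.prod_const, Nat.card_Icc, Finset.card_univ, Fintype.card_fin,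
      Nat.add_sub_cancel]
  exact_mod_cast h6

end MomAux

theorem rm_eq {m : ℕ} (a : Fin m → ℕ) (D : ℕ) (c : ℕ → ℝ) (k n : ℕ) :
    avs a D c k n = Rm k (Icc 1 D) (fun v => c v * (ArithmeticFunction.moebius (n + pl a v) : ℝ)) := by
  unfold avs Rm av sm
  rw [Nat.card_Icc, Nat.add_sub_cancel]
  congr 1
  refine Finset.sum_congr rfl fun U _ => ?_
  congr 1
  refine Finset.sum_congr rfl fun v _ => ?_
  unfold sg
  by_cases hv : v ∈ U
  · simp only [if_pos hv]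
    ring
  · simp only [if_neg hv]
    ring

theorem mom_w {m : ℕ} (Dm xx : ℕ) (δ : ℝ) (w : ℤ → ℝ) (a : Fin m → ℕ) (h : GoodA Dm xx δ w a) (hδ : 0 ≤ δ) (D y k : ℕ) (c : ℕ → ℝ) (hD : D ≤ Dm)
    (hy : y ≤ xx) (hk : k ≤ m) (hc : ∀ i, |c i| ≤ 1) :
    |∑ n ∈ Icc 1 y, w (n : ℤ) * (sm a D c n ^ k - avs a D c k n)| ≤ (D : ℝ) ^ k * δ := by
  refine MomAux.gen a D k c hc (Icc 1 y) (fun n => w (n : ℤ)) δ hδ (rm_eq a D c k) ?_
  intro I J hI hJ hJ0 hc
  exact cor_w Dm xx δ w a h I J (hI.trans (Icc_subset_Icc_right hD)) hJ hJ0 (hc.trans hk) y hy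

theorem mom_one {m : ℕ} (Dm xx : ℕ) (δ : ℝ) (w : ℤ → ℝ) (a : Fin m → ℕ) (hm : 1 ≤ m) (h : GoodA Dm xx δ w a) (hδ : 0 ≤ δ) (D y k : ℕ) (c : ℕ → ℝ)
    (hD : D ≤ Dm) (hy : ∀ i ∈ Icc 1 Dm, pl a i + y ≤ xx) (hk : k ≤ m + 1) (hc : ∀ i, |c i| ≤ 1) :
    |∑ n ∈ Icc 1 y, (sm a D c n ^ k - avs a D c k n)| ≤ 2 * (D : ℝ) ^ k * δ := by
  have h1 := MomAux.gen a D k c hc (Icc 1 y) (fun _ => 1) (2 * δ) (by positivity) (rm_eq a D c k) (by
    intro I J hI hJ hJ0 hc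
    simp_rw [one_mul]
    exact cor_one Dm xx δ w a hm h I J (hI.trans (Icc_subset_Icc_right hD)) hJ hJ0 (hc.trans hk) y hy hδ)
  simp_rw [one_mul] at h1
  refine h1.trans (le_of_eq ?_)
  ring

end Pool.Agent.MCP
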