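import Pool.Agent.Lib.MCP.Defs
import Pool.Agent.Lib.MW.WBm
import Pool.Agent.Lib.MW.Corr

/-!
# Module One: one shift, arbitrary second function

First let `H ≤ x`. `E n = muz x 0 n` (complex; `= mz n` for `1 ≤ n ≤ 2x`, else 0), for `1 ≤ n ≤ x`, `|h| ≤ H ≤ x`: `mz (n + h) = E (n + h)`. With `G(n,n') = ∑_{|h| ≤ H} E(n+h) E(n'+h)`:
`∑_h |∑_n F(n) E(n+h)|² = ∑_{n,n' ∈ [1,x]} F(n) F(n') G(n,n') ≤ x (∑_{n,n' ∈ [1,x]} |G(n,n')|²)^(1/2) ≤ x (∑_{n,n' ∈ ℤ} |G|²)^(1/2)`, and `∑_{n,n' ∈ ℤ} |G(n,n')|² = ∑_{h,h'} |∑_n E(n+h) E(n+h')|² = ∑_{h,h'} C(h' - h)² ≤ (2H+1) ∑_{|k| ≤ 2H} C(k)²`,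
`C(k) = ∑_{z} E z conj(E (z + k))` (`E` is real valued). (Take a finite box such as `Icc (1 - 3x) (3x)` instead of `ℤ`.) `corr_of_wb` with `N = 2x`, `W = 4H`, `K = 2H` and `wb_mu (2B+3) 4 ε` (`v = 0`): `∑ C² ≤ 4 (x 16 H²/L^(2B+3)) 2x/(4H) = 32 x² H/L^(2B+3)`.
Total `≤ x ((2H+1) 32 x² H/L^(2B+3))^(1/2) ≤ 10 x² H/L^(B + 3/2) ≤ H x²/L^(B+1)`.
General `H ≤ x L^C`, `L = log x`: apply the case above with `x' = ⌈x L^C⌉₊ + x`-like (`x' ≥ H`, `x' ≥ x`, `x' ≤ 3 x L^C`), exponent `B' = B + 2C + 2`, `ε/2` (`x'^(1/6+ε/2) ≤ x^(1/6+ε) ≤ H`) and `F` replaced by 0 outside `[1,x]`: `≤ H x'^2/(log x')^B' ≤ H 9 x² L^(2C)/L^B'`.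
-/

set_option autoImplicit false

open Finset Filter

namespace Pool.Agent.MCP

open Pool.Agent.MW Pool.Agent.NLT Pool.Agent.HLT

namespace OneAux

/-- Correlation of a real sequence. -/
noncomputable def CR (e : ℤ → ℝ) (N : ℕ) (k : ℤ) : ℝ := ∑ z ∈ Icc (1 : ℤ) N, e z * e (z + k)

lemma shift_sum (e : ℤ → ℝ) (N : ℕ) (he0 : ∀ n : ℤ, n ∉ Icc (1 : ℤ) N → e n = 0) (a b h h' : ℤ)
    (ha : a + h ≤ 1) (hb : (N : ℤ) ≤ b + h) :
    ∑ n ∈ Icc a b, e (n + h) * e (n + h') = CR e N (h' - h) := by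
  unfold CR
  have h1 : ∑ n ∈ Icc a b, e (n + h) * e (n + h') = ∑ z ∈ Icc (a + h) (b + h), e z * e (z + (h' - h)) := by
    rw [← Finset.map_add_right_Icc, Finset.sum_map]
    refine Finset.sum_congr rfl (fun n _ => ?_)
    simp only [addRightEmbedding_apply]
    have : n + h + (h' - h) = n + h' := by ring
    rw [this]
  rw [h1]
  symm
  apply Finset.sum_subset
  · intro z hz
    rw [mem_Icc] at hz ⊢
    omega
  · intro z _ hz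
    rw [he0 z hz, zero_mul]

lemma row_sum (C : ℤ → ℝ) (H : ℕ) (h : ℤ) (hh : h ∈ Icc (-(H : ℤ)) H) :
    ∑ h' ∈ Icc (-(H : ℤ)) H, C (h' - h) ^ 2 ≤ ∑ k ∈ Icc (-((2 * H : ℕ) : ℤ)) ((2 * H : ℕ) : ℤ), C k ^ 2 := by
  have h1 : ∑ h' ∈ Icc (-(H : ℤ)) H, C (h' - h) ^ 2 = ∑ k ∈ Icc (-(H : ℤ) + -h) (H + -h), C k ^ 2 := by
    rw [← Finset.map_add_right_Icc, Finset.sum_map]
    refine Finset.sum_congr rfl (fun n _ => ?_)
    simp only [addRightEmbedding_apply, sub_eq_add_neg]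
  rw [h1]
  refine Finset.sum_le_sum_of_subset_of_nonneg ?_ (fun _ _ _ => sq_nonneg _)
  intro k hk
  rw [mem_Icc] at hh hk ⊢
  push_cast
  omega

lemma sq_expand {ι : Type} (s : Finset ι) (f : ι → ℝ) : (∑ i ∈ s, f i) ^ 2 = ∑ i ∈ s, ∑ j ∈ s, f i * f j := by
  rw [pow_two, Finset.sum_mul_sum]

lemma four_sum (S J : Finset ℤ) (e : ℤ → ℝ) :
    ∑ n ∈ J, ∑ n' ∈ J, (∑ h ∈ S, e (n + h) * e (n' + h)) ^ 2 =
      ∑ h ∈ S, ∑ h' ∈ S, (∑ n ∈ J, e (n + h) * e (n + h')) ^ 2 := by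
  have h1 : ∀ n ∈ J, ∀ n' ∈ J, (∑ h ∈ S, e (n + h) * e (n' + h)) ^ 2 =
      ∑ h ∈ S, ∑ h' ∈ S, (e (n + h) * e (n + h')) * (e (n' + h) * e (n' + h')) := by
    intro n _ n' _
    rw [sq_expand]
    refine Finset.sum_congr rfl (fun h _ => Finset.sum_congr rfl (fun h' _ => ?_))
    ring
  have h2 : ∀ h ∈ S, ∀ h' ∈ S, (∑ n ∈ J, e (n + h) * e (n + h')) ^ 2 =
      ∑ n ∈ J, ∑ n' ∈ J, (e (n + h) * e (n + h')) * (e (n' + h) * e (n' + h')) := by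
    intro h _ h' _
    rw [sq_expand]
  rw [Finset.sum_congr rfl (fun n hn => Finset.sum_congr rfl (h1 n hn)),
    Finset.sum_congr rfl (fun h hh => Finset.sum_congr rfl (h2 h hh))]
  rw [Finset.sum_congr rfl (fun n _ => Finset.sum_comm)]
  rw [Finset.sum_comm]
  refine Finset.sum_congr rfl (fun h _ => ?_)
  rw [Finset.sum_congr rfl (fun n _ => Finset.sum_comm)]
  rw [Finset.sum_comm]

theorem step1 (x H N : ℕ) (e F : ℤ → ℝ) (hF : ∀ n, |F n| ≤ 1) (he0 : ∀ n : ℤ, n ∉ Icc (1 : ℤ) N → e n = 0) :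
    ∑ h ∈ Icc (-(H : ℤ)) H, (∑ n ∈ Icc (1 : ℤ) x, F n * e (n + h)) ^ 2 ≤
      x * Real.sqrt ((2 * H + 1) *
        ∑ k ∈ Icc (-((2 * H : ℕ) : ℤ)) ((2 * H : ℕ) : ℤ), CR e N k ^ 2) := by
  obtain ⟨S, hS⟩ : ∃ S, S = Icc (-(H : ℤ)) H := ⟨_, rfl⟩
  obtain ⟨I, hI⟩ : ∃ I, I = Icc (1 : ℤ) x := ⟨_, rfl⟩
  obtain ⟨J, hJ⟩ : ∃ J, J = Icc (-(H : ℤ)) ((x : ℤ) + H + N) := ⟨_, rfl⟩
  have hIJ : I ⊆ J := by
    intro n hn
    rw [hI, mem_Icc] at hn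
    rw [hJ, mem_Icc]
    omega
  rw [← hS, ← hI]
  have h1 : ∑ h ∈ S, (∑ n ∈ I, F n * e (n + h)) ^ 2 =
      ∑ n ∈ I, ∑ n' ∈ I, (F n * F n') * ∑ h ∈ S, e (n + h) * e (n' + h) := by
    rw [Finset.sum_congr rfl (fun h _ => sq_expand I (fun n => F n * e (n + h))), Finset.sum_comm]
    refine Finset.sum_congr rfl (fun n _ => ?_)
    rw [Finset.sum_comm]
    refine Finset.sum_congr rfl (fun n' _ => ?_)
    rw [Finset.mul_sum]
    refine Finset.sum_congr rfl (fun h _ => ?_)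
    ring
  have h2 : ∑ n ∈ I, ∑ n' ∈ I, (F n * F n') * ∑ h ∈ S, e (n + h) * e (n' + h) ≤
      ∑ n ∈ I, ∑ n' ∈ I, |∑ h ∈ S, e (n + h) * e (n' + h)| := by
    refine Finset.sum_le_sum (fun n _ => Finset.sum_le_sum (fun n' _ => ?_))
    refine (le_abs_self _).trans ?_
    rw [abs_mul, abs_mul]
    have h3 : |F n| * |F n'| ≤ 1 := mul_le_one₀ (hF n) (abs_nonneg _) (hF n')
    calc |F n| * |F n'| * |∑ h ∈ S, e (n + h) * e (n' + h)| ≤ 1 * |∑ h ∈ S, e (n + h) * e (n' + h)| :=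
          mul_le_mul_of_nonneg_right h3 (abs_nonneg _)
      _ = _ := one_mul _
  have h3 : (∑ n ∈ I, ∑ n' ∈ I, |∑ h ∈ S, e (n + h) * e (n' + h)|) ^ 2 ≤
      (x : ℝ) ^ 2 * ∑ n ∈ J, ∑ n' ∈ J, (∑ h ∈ S, e (n + h) * e (n' + h)) ^ 2 := by
    rw [← Finset.sum_product']
    refine (sq_sum_le_card_mul_sum_sq (s := I ×ˢ I)
      (f := fun p : ℤ × ℤ => |∑ h ∈ S, e (p.1 + h) * e (p.2 + h)|)).trans ?_
    have hc : (((I ×ˢ I).card : ℕ) : ℝ) = (x : ℝ) ^ 2 := by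
      rw [Finset.card_product, hI, Int.card_Icc]
      push_cast
      have : ((x : ℤ) + 1 - 1).toNat = x := by omega
      rw [this]
      ring
    rw [hc]
    refine mul_le_mul_of_nonneg_left ?_ (sq_nonneg _)
    have h4 : ∑ p ∈ I ×ˢ I, |∑ h ∈ S, e (p.1 + h) * e (p.2 + h)| ^ 2 =
        ∑ n ∈ I, ∑ n' ∈ I, (∑ h ∈ S, e (n + h) * e (n' + h)) ^ 2 := by
      rw [Finset.sum_product]
      refine Finset.sum_congr rfl (fun n _ => Finset.sum_congr rfl (fun n' _ => ?_))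
      exact sq_abs _
    rw [h4]
    refine (Finset.sum_le_sum_of_subset_of_nonneg hIJ (fun _ _ _ => Finset.sum_nonneg (fun _ _ => sq_nonneg _))).trans ?_
    refine Finset.sum_le_sum (fun n _ => ?_)
    exact Finset.sum_le_sum_of_subset_of_nonneg hIJ (fun _ _ _ => sq_nonneg _)
  have h5 : ∑ n ∈ J, ∑ n' ∈ J, (∑ h ∈ S, e (n + h) * e (n' + h)) ^ 2 ≤
      (2 * H + 1) * ∑ k ∈ Icc (-((2 * H : ℕ) : ℤ)) ((2 * H : ℕ) : ℤ), CR e N k ^ 2 := by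
    rw [four_sum]
    have h6 : ∀ h ∈ S, ∑ h' ∈ S, (∑ n ∈ J, e (n + h) * e (n + h')) ^ 2 ≤
        ∑ k ∈ Icc (-((2 * H : ℕ) : ℤ)) ((2 * H : ℕ) : ℤ), CR e N k ^ 2 := by
      intro h hh
      rw [hS] at hh
      refine le_trans (le_of_eq ?_) (row_sum (CR e N) H h hh)
      rw [hS]
      refine Finset.sum_congr rfl (fun h' _ => ?_)
      rw [hJ, shift_sum e N he0]
      · rw [mem_Icc] at hh
        omega
      · rw [mem_Icc] at hh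
        omega
    refine (Finset.sum_le_sum h6).trans ?_
    rw [Finset.sum_const, nsmul_eq_mul]
    refine mul_le_mul_of_nonneg_right ?_ (Finset.sum_nonneg (fun _ _ => sq_nonneg _))
    rw [hS, Int.card_Icc]
    have : ((H : ℤ) + 1 - -(H : ℤ)).toNat = 2 * H + 1 := by omega
    rw [this]
    push_cast
    exact le_refl _
  have h7 : (∑ n ∈ I, ∑ n' ∈ I, |∑ h ∈ S, e (n + h) * e (n' + h)|) ^ 2 ≤ (x : ℝ) ^ 2 *
      ((2 * H + 1) * ∑ k ∈ Icc (-((2 * H : ℕ) : ℤ)) ((2 * H : ℕ) : ℤ), CR e N k ^ 2) :=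
    h3.trans (mul_le_mul_of_nonneg_left h5 (sq_nonneg _))
  have h8 : ∑ n ∈ I, ∑ n' ∈ I, |∑ h ∈ S, e (n + h) * e (n' + h)| ≤
      x * Real.sqrt ((2 * H + 1) *
        ∑ k ∈ Icc (-((2 * H : ℕ) : ℤ)) ((2 * H : ℕ) : ℤ), CR e N k ^ 2) := by
    have h9 := Real.abs_le_sqrt h7
    rw [Real.sqrt_mul (sq_nonneg _), Real.sqrt_sq (Nat.cast_nonneg _)] at h9
    exact (le_abs_self _).trans h9
  rw [h1]
  exact h2.trans h8

/-- The real Moebius function, cut off. -/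
noncomputable def er (y : ℕ) (n : ℤ) : ℝ := if 1 ≤ n ∧ n ≤ 2 * (y : ℤ) then mz n else 0

lemma muz_er (y : ℕ) (n : ℤ) : muz y 0 n = ((er y n : ℝ) : ℂ) := by
  unfold muz er mz mu
  by_cases h : 1 ≤ n ∧ n ≤ 2 * (y : ℤ)
  · rw [if_pos h, if_pos (by push_cast; omega)]
    have : (n + ((0 : ℕ) : ℤ)).toNat = n.toNat := by
      push_cast
      rw [add_zero]
    rw [this]
    push_cast
    rfl
  · rw [if_neg h, if_neg (by push_cast; omega)]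
    simp

lemma er_zero (y : ℕ) (n : ℤ) (h : n ∉ Icc (1 : ℤ) ((2 * y : ℕ) : ℤ)) : er y n = 0 := by
  unfold er
  rw [if_neg]
  rw [mem_Icc] at h
  push_cast at h
  exact h

lemma er_eq (y : ℕ) (n : ℤ) (h : n ≤ 2 * (y : ℤ)) : er y n = mz n := by
  unfold er
  by_cases h1 : 1 ≤ n
  · rw [if_pos ⟨h1, h⟩]
  · rw [if_neg (fun h2 => h1 h2.1)]
    unfold mz
    have : n.toNat = 0 := by omega
    rw [this]
    simp

theorem step2 (x y H : ℕ) (F : ℤ → ℝ) (hF : ∀ n, |F n| ≤ 1) (hH1 : 1 ≤ H) (hHy : H ≤ y) (hxy : x ≤ y) (D : ℝ)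
    (hD : Pool.Agent.NLT.WB (muz y 0) (4 * H) D) :
    ∑ h ∈ Icc (-(H : ℤ)) H, (∑ n ∈ Icc (1 : ℤ) x, F n * mz (n + h)) ^ 2 ≤ x * Real.sqrt (6 * (D * y)) := by
  have h1 : ∑ h ∈ Icc (-(H : ℤ)) H, (∑ n ∈ Icc (1 : ℤ) x, F n * mz (n + h)) ^ 2 =
      ∑ h ∈ Icc (-(H : ℤ)) H, (∑ n ∈ Icc (1 : ℤ) x, F n * er y (n + h)) ^ 2 := by
    refine Finset.sum_congr rfl (fun h hh => ?_)
    congr 1
    refine Finset.sum_congr rfl (fun n hn => ?_)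
    rw [mem_Icc] at hh hn
    rw [er_eq y (n + h) (by omega)]
  rw [h1]
  refine (step1 x H (2 * y) (er y) F hF (er_zero y)).trans ?_
  refine mul_le_mul_of_nonneg_left (Real.sqrt_le_sqrt ?_) (Nat.cast_nonneg _)
  have h2 := corr_of_wb (muz y 0) (2 * y) (4 * H) (2 * H) D (by omega) (by omega) (norm_muz y 0)
    (fun n hn => by rw [muz_er, er_zero y n hn, Complex.ofReal_zero]) hD
  have h3 : ∀ k : ℤ, ‖∑ z ∈ Icc (1 : ℤ) ((2 * y : ℕ) : ℤ), muz y 0 z * (starRingEnd ℂ) (muz y 0 (z + k))‖ ^ 2 =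
      CR (er y) (2 * y) k ^ 2 := by
    intro k
    have h4 : ∑ z ∈ Icc (1 : ℤ) ((2 * y : ℕ) : ℤ), muz y 0 z * (starRingEnd ℂ) (muz y 0 (z + k)) =
        ((CR (er y) (2 * y) k : ℝ) : ℂ) := by
      unfold CR
      rw [Complex.ofReal_sum]
      refine Finset.sum_congr rfl (fun z _ => ?_)
      rw [muz_er, muz_er, Complex.conj_ofReal, Complex.ofReal_mul]
    rw [h4, Complex.norm_real, Real.norm_eq_abs, sq_abs]
  rw [Finset.sum_congr rfl (fun k _ => h3 k)] at h2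
  have hH0 : (0 : ℝ) < H := by exact_mod_cast hH1
  have hH1' : (1 : ℝ) ≤ H := by exact_mod_cast hH1
  obtain ⟨T, hT⟩ : ∃ T, T = ∑ k ∈ Icc (-((2 * H : ℕ) : ℤ)) ((2 * H : ℕ) : ℤ), CR (er y) (2 * y) k ^ 2 := ⟨_, rfl⟩
  rw [← hT] at h2 ⊢
  have hT0 : 0 ≤ T := by rw [hT]; exact Finset.sum_nonneg (fun _ _ => sq_nonneg _)
  rw [le_div_iff₀ (by push_cast; positivity)] at h2
  push_cast at h2
  have h5 : (2 * (H : ℝ) + 1) * T ≤ 3 * H * T := mul_le_mul_of_nonneg_right (by linarith only [hH1']) hT0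
  nlinarith only [h5, h2, hT0]

end OneAux

theorem lin_mu (B C : ℕ) (ε : ℝ) (hε : 0 < ε) : ∀ᶠ x : ℕ in atTop, ∀ H : ℕ, (x : ℝ) ^ (1 / 6 + ε) ≤ H →
    (H : ℝ) ≤ x * Real.log x ^ C → ∀ F : ℤ → ℝ, (∀ n, |F n| ≤ 1) →
    ∑ h ∈ Icc (-(H : ℤ)) H, (∑ n ∈ Icc (1 : ℤ) x, F n * mz (n + h)) ^ 2 ≤ H * (x : ℝ) ^ 2 / Real.log x ^ B := by
  obtain ⟨η, hη⟩ : ∃ η, η = min (ε / 2) (1 / 2) := ⟨_, rfl⟩
  have hη0 : 0 < η := by rw [hη]; exact lt_min (by linarith only [hε]) (by norm_num)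
  have hη1 : η ≤ ε / 2 := by rw [hη]; exact min_le_left _ _
  have hη2 : η ≤ 1 / 2 := by rw [hη]; exact min_le_right _ _
  obtain ⟨N0, hN0⟩ := eventually_atTop.1 (wb_mu (2 * (B + C + 1)) 4 η hη0)
  filter_upwards [eventually_ge_atTop N0, eventually_ge_atTop 1, Pool.Agent.HLU.ev_log 1,
    Pool.Agent.HLU.ev_log (20 * 4 ^ C), Pool.Agent.VL.SI3Aux.ev_lp C (2 ^ C) (ε / 2) (by linarith only [hε])]
    with x hxN hx1 hL1 hLc hlp
  intro H hH1 hH2 F hF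
  obtain ⟨L, hLdef⟩ : ∃ L, L = Real.log x := ⟨_, rfl⟩
  rw [← hLdef] at hL1 hLc hlp hH2 ⊢
  have hL0 : 0 < L := by linarith only [hL1]
  have hx1' : (1 : ℝ) ≤ x := by exact_mod_cast hx1
  have hx0 : (0 : ℝ) < x := by linarith only [hx1']
  -- the length y
  obtain ⟨M, hM⟩ : ∃ M, M = ⌈L⌉₊ := ⟨_, rfl⟩
  have hM1 : L ≤ M := by rw [hM]; exact Nat.le_ceil _
  have hM2 : (M : ℝ) ≤ 2 * L := by
    have := (Nat.ceil_lt_add_one hL0.le).le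
    rw [hM]
    linarith only [this, hL1]
  have hMr1 : (1 : ℝ) ≤ M := hL1.trans hM1
  have hMn1 : 1 ≤ M := by exact_mod_cast hMr1
  obtain ⟨y, hy⟩ : ∃ y, y = x * M ^ C := ⟨_, rfl⟩
  have hMC1 : 1 ≤ M ^ C := Nat.one_le_pow _ _ hMn1
  have hxy : x ≤ y := by rw [hy]; exact Nat.le_mul_of_pos_right _ hMC1
  have hyr : (y : ℝ) = x * (M : ℝ) ^ C := by rw [hy]; push_cast; ring
  have hMCr : (1 : ℝ) ≤ (M : ℝ) ^ C := one_le_pow₀ hMr1
  have hMC2 : (M : ℝ) ^ C ≤ 2 ^ C * L ^ C := by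
    rw [← mul_pow]
    exact pow_le_pow_left₀ (by linarith only [hMr1]) hM2 C
  have hHy' : (H : ℝ) ≤ y := by
    rw [hyr]
    refine hH2.trans (mul_le_mul_of_nonneg_left ?_ hx0.le)
    exact pow_le_pow_left₀ hL0.le hM1 C
  have hHy : H ≤ y := by exact_mod_cast hHy'
  have hy1 : (1 : ℝ) ≤ y := by
    have : 1 ≤ y := hx1.trans hxy
    exact_mod_cast this
  have hy0 : (0 : ℝ) < y := by linarith only [hy1]
  -- H is at least one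
  have hHr1 : (1 : ℝ) ≤ H := (Real.one_le_rpow hx1' (by linarith only [hε])).trans hH1
  have hHn1 : 1 ≤ H := by exact_mod_cast hHr1
  have hH0 : (0 : ℝ) < H := by linarith only [hHr1]
  -- the window bound
  have hpow : (y : ℝ) ^ (1 / 6 + η) ≤ ((4 * H : ℕ) : ℝ) := by
    have h1 : (y : ℝ) ^ (1 / 6 + η) ≤ (x : ℝ) ^ (1 / 6 + ε / 2) * (M : ℝ) ^ C := by
      rw [hyr, Real.mul_rpow hx0.le (by positivity)]
      refine mul_le_mul ?_ ?_ (by positivity) (by positivity)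
      · exact Real.rpow_le_rpow_of_exponent_le hx1' (by linarith only [hη1])
      · have := Real.rpow_le_rpow_of_exponent_le hMCr (by linarith only [hη2] : 1 / 6 + η ≤ (1 : ℝ))
        rwa [Real.rpow_one] at this
    have h2 : (x : ℝ) ^ (1 / 6 + ε / 2) * (M : ℝ) ^ C ≤ (x : ℝ) ^ (1 / 6 + ε) := by
      have h3 : (x : ℝ) ^ (1 / 6 + ε) = (x : ℝ) ^ (1 / 6 + ε / 2) * (x : ℝ) ^ (ε / 2) := by
        rw [← Real.rpow_add hx0]
        congr 1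
        ring
      rw [h3]
      exact mul_le_mul_of_nonneg_left (hMC2.trans hlp) (by positivity)
    refine (h1.trans h2).trans (hH1.trans ?_)
    push_cast
    linarith only [hH0]
  have hwb := hN0 y (hxN.trans hxy) (4 * H) 0 hpow (by omega)
  refine (OneAux.step2 x y H F hF hHn1 hHy hxy _ hwb).trans ?_
  -- the final estimate
  have hLy : L ≤ Real.log y := by
    rw [hLdef]
    exact Real.log_le_log hx0 (by exact_mod_cast hxy)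
  obtain ⟨P, hP⟩ : ∃ P, P = L ^ (B + C + 1) := ⟨_, rfl⟩
  have hP0 : 0 < P := by rw [hP]; positivity
  have hPy : P ^ 2 ≤ Real.log y ^ (2 * (B + C + 1)) := by
    rw [hP, ← pow_mul, mul_comm (B + C + 1) 2]
    exact pow_le_pow_left₀ hL0.le hLy _
  have h1 : 6 * ((y : ℝ) * ((4 * H : ℕ) : ℝ) ^ 2 / Real.log y ^ (2 * (B + C + 1)) * y) ≤ (10 * y * H / P) ^ 2 := by
    have h2 : (y : ℝ) * ((4 * H : ℕ) : ℝ) ^ 2 / Real.log y ^ (2 * (B + C + 1)) ≤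
        (y : ℝ) * ((4 * H : ℕ) : ℝ) ^ 2 / P ^ 2 :=
      div_le_div_of_nonneg_left (by positivity) (by positivity) hPy
    have h3 := mul_le_mul_of_nonneg_right h2 hy0.le
    have h4 : (y : ℝ) * ((4 * H : ℕ) : ℝ) ^ 2 / P ^ 2 * y = 16 * (y * H / P) ^ 2 := by
      push_cast
      field_simp
      ring
    have h5 : (10 * y * H / P) ^ 2 = 100 * (y * H / P) ^ 2 := by ring
    rw [h5]
    rw [h4] at h3
    have h6 : 0 ≤ (y * H / P) ^ 2 := sq_nonneg _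
    linarith only [h3, h6]
  have h7 : Real.sqrt (6 * ((y : ℝ) * ((4 * H : ℕ) : ℝ) ^ 2 / Real.log y ^ (2 * (B + C + 1)) * y)) ≤ 10 * y * H / P := by
    refine (Real.sqrt_le_sqrt h1).trans (le_of_eq ?_)
    exact Real.sqrt_sq (by positivity)
  refine (mul_le_mul_of_nonneg_left h7 hx0.le).trans ?_
  rw [hyr]
  have h8 : (x : ℝ) * (10 * (x * (M : ℝ) ^ C) * H / P) = (H * (x : ℝ) ^ 2) * (10 * (M : ℝ) ^ C / P) := by ring
  rw [h8, div_eq_mul_one_div ((H : ℝ) * (x : ℝ) ^ 2) (L ^ B)]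
  refine mul_le_mul_of_nonneg_left ?_ (by positivity)
  rw [div_le_div_iff₀ hP0 (by positivity), one_mul]
  have h9 : P = L ^ B * L ^ C * L := by rw [hP, pow_succ, pow_add]
  rw [h9]
  have h10 : 10 * (M : ℝ) ^ C ≤ 10 * (2 ^ C * L ^ C) := by linarith only [hMC2]
  have h11 : 10 * (2 ^ C * L ^ C) ≤ L ^ C * L := by
    have h12 : (10 : ℝ) * 2 ^ C ≤ 20 * 4 ^ C := by
      have h13 : (2 : ℝ) ^ C ≤ 4 ^ C := pow_le_pow_left₀ (by norm_num) (by norm_num) C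
      have h14 : (0 : ℝ) ≤ 4 ^ C := by positivity
      linarith only [h13, h14]
    have h15 := mul_le_mul_of_nonneg_right (h12.trans hLc) (by positivity : (0 : ℝ) ≤ L ^ C)
    linarith only [h15]
  have h16 := mul_le_mul_of_nonneg_right (h10.trans h11) (by positivity : (0 : ℝ) ≤ L ^ B)
  linarith only [h16]

end Pool.Agent.MCP
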