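import Pool.Agent.Lib.MCP.One

/-!
# Module Tup: tuples of shifts

`L = log x`. For fixed `h_j`, `j ≠ j0`, let `F n = f0 n * ∏_{j ≠ j0} f j (n + h j) [n ≤ Y]` (extended arbitrarily outside `[1,x]`), `|F| ≤ 1`: the sum is `∑_{n ∈ Icc 1 x} F n mz(n + h_{j0})`, so by Chebyshev and `lin_mu (3A+2r+3... ) C ε` the number of `h_{j0} ∈ Icc (-H) H` for which it exceeds
`x/L^A` in absolute value is at most `(L^(2A)/x²) H x²/L^B = H/L^(B - 2A)`; the number of the other coordinates is at most `(2H+1)^(r-1) ≤ (3H)^(r-1)`; total `≤ 3^(r-1) H^r/L^(B-2A) ≤ H^r/L^A` for `B = 3A + 1`, `L ≥ 3^r`.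
(To count, use the bijection `h ↦ (h j0, the rest)`: e.g. bound the number of bad `h` by `∑ over h of [bad]`, and sum first over the coordinate `j0`: `Fintype.piFinset`, `Function.update h j0 t`; each fibre of `h ↦ Function.update h j0 0`.)
-/

set_option autoImplicit false

open Finset Filter

namespace Pool.Agent.MCP

private lemma prod_split {r : ℕ} (f : Fin r → ℤ → ℝ) (j0 : Fin r) (h b : Fin r → ℤ) (hb : Function.update h j0 0 = b)
    (n : ℤ) : ∏ j : Fin r, f j (n + h j) = (∏ j ∈ univ.erase j0, f j (n + b j)) * f j0 (n + h j0) := by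
  rw [← Finset.mul_prod_erase univ (fun j => f j (n + h j)) (mem_univ j0), mul_comm]
  congr 1
  refine Finset.prod_congr rfl fun j hj => ?_
  have hne : j ≠ j0 := (mem_erase.mp hj).1
  rw [← hb, Function.update_of_ne hne]

private lemma cheb (s : Finset ℤ) (G : ℤ → ℝ) (T M : ℝ) (hT : 0 < T) (hM : ∑ h ∈ s, G h ^ 2 ≤ M) :
    ((s.filter (fun t => T < |G t|)).card : ℝ) ≤ M / T ^ 2 := by
  rw [le_div_iff₀ (by positivity)]
  calc ((s.filter (fun t => T < |G t|)).card : ℝ) * T ^ 2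
      = ∑ _t ∈ s.filter (fun t => T < |G t|), T ^ 2 := by rw [sum_const, nsmul_eq_mul]
    _ ≤ ∑ t ∈ s.filter (fun t => T < |G t|), G t ^ 2 := by
        refine sum_le_sum fun t ht => ?_
        have h1 := (mem_filter.mp ht).2
        rw [← sq_abs (G t)]
        exact pow_le_pow_left₀ hT.le h1.le 2
    _ ≤ ∑ t ∈ s, G t ^ 2 := sum_le_sum_of_subset_of_nonneg (filter_subset _ _) fun _ _ _ => sq_nonneg _
    _ ≤ M := hM

theorem tup_mu (r A C : ℕ) (ε : ℝ) (hε : 0 < ε) : ∀ᶠ x : ℕ in atTop, ∀ H Y : ℕ, (x : ℝ) ^ (1 / 6 + ε) ≤ H →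
    (H : ℝ) ≤ x * Real.log x ^ C → Y ≤ x → ∀ (f0 : ℤ → ℝ) (f : Fin r → ℤ → ℝ) (j0 : Fin r), (∀ n, |f0 n| ≤ 1) →
    (∀ j n, |f j n| ≤ 1) → f j0 = mz →
    (((Fintype.piFinset (fun _ : Fin r => Icc (-(H : ℤ)) H)).filter (fun h =>
      (x : ℝ) / Real.log x ^ A < |∑ n ∈ Icc (1 : ℤ) Y, f0 n * ∏ j : Fin r, f j (n + h j)|)).card : ℝ) ≤
      (H : ℝ) ^ r / Real.log x ^ A := by
  have hlog : Tendsto (fun x : ℕ => Real.log (x : ℝ)) atTop atTop :=
    Real.tendsto_log_atTop.comp tendsto_natCast_atTop_atTop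
  filter_upwards [lin_mu (3 * A + 1) C ε hε, hlog.eventually_ge_atTop ((3 : ℝ) ^ r), eventually_ge_atTop 1]
    with x hlin hL hx1 H Y hH1 hH2 hY f0 f j0 hf0 hf hj0
  have hL0 : 0 < Real.log (x : ℝ) := lt_of_lt_of_le (by positivity) hL
  have hx0 : (0 : ℝ) < x := by exact_mod_cast hx1
  have hHpos : (0 : ℝ) < H := lt_of_lt_of_le (Real.rpow_pos_of_pos hx0 _) hH1
  have hHN : 1 ≤ H := by
    have : 0 < H := by exact_mod_cast hHpos
    omega
  have hr : 1 ≤ r := by
    have := j0.isLt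
    omega
  set L : ℝ := Real.log (x : ℝ) with hLdef
  set bad := (Fintype.piFinset (fun _ : Fin r => Icc (-(H : ℤ)) H)).filter (fun h =>
      (x : ℝ) / L ^ A < |∑ n ∈ Icc (1 : ℤ) Y, f0 n * ∏ j : Fin r, f j (n + h j)|) with hbad
  set T : Finset (Fin r → ℤ) := Fintype.piFinset (fun j : Fin r => if j = j0 then ({0} : Finset ℤ) else Icc (-(H : ℤ)) H)
    with hT
  have hmaps : ∀ h ∈ bad, Function.update h j0 0 ∈ T := by
    intro h hh
    rw [hT, Fintype.mem_piFinset]
    intro j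
    by_cases hj : j = j0
    · subst hj
      simp
    · rw [Function.update_of_ne hj, if_neg hj]
      exact (Fintype.mem_piFinset.mp (mem_filter.mp hh).1) j
  have hfib : ∀ b ∈ T, ((bad.filter (fun h => Function.update h j0 0 = b)).card : ℝ) ≤ (H : ℝ) / L ^ (A + 1) := by
    intro b _
    set F : ℤ → ℝ := fun n => if n ≤ Y then f0 n * ∏ j ∈ univ.erase j0, f j (n + b j) else 0 with hF
    have hF1 : ∀ n, |F n| ≤ 1 := by
      intro n
      rw [hF]
      simp only
      split_ifs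
      · rw [abs_mul, Finset.abs_prod]
        refine mul_le_one₀ (hf0 n) (Finset.prod_nonneg fun _ _ => abs_nonneg _) ?_
        exact Finset.prod_le_one (fun _ _ => abs_nonneg _) fun j _ => hf j _
      · simp
    have hkey : ∀ h : Fin r → ℤ, Function.update h j0 0 = b →
        ∑ n ∈ Icc (1 : ℤ) Y, f0 n * ∏ j : Fin r, f j (n + h j) = ∑ n ∈ Icc (1 : ℤ) x, F n * mz (n + h j0) := by
      intro h hb
      have hsub : Icc (1 : ℤ) Y ⊆ Icc (1 : ℤ) x := Icc_subset_Icc le_rfl (by exact_mod_cast hY)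
      rw [← Finset.sum_subset hsub]
      · refine sum_congr rfl fun n hn => ?_
        have hnY : n ≤ Y := (mem_Icc.mp hn).2
        rw [hF]
        simp only
        rw [if_pos hnY, prod_split f j0 h b hb n, hj0]
        ring
      · intro n hn hn'
        have hnY : ¬ n ≤ Y := fun hc => hn' (mem_Icc.mpr ⟨(mem_Icc.mp hn).1, hc⟩)
        rw [hF]
        simp only
        rw [if_neg hnY, zero_mul]
    have hinj : (bad.filter (fun h => Function.update h j0 0 = b)).card ≤
        ((Icc (-(H : ℤ)) H).filter (fun t => (x : ℝ) / L ^ A < |∑ n ∈ Icc (1 : ℤ) x, F n * mz (n + t)|)).card := by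
      refine Finset.card_le_card_of_injOn (fun h => h j0) ?_ ?_
      · intro h hh
        rw [mem_coe, mem_filter] at hh
        obtain ⟨hh1, hb⟩ := hh
        rw [hbad, mem_filter] at hh1
        rw [mem_coe, mem_filter]
        refine ⟨(Fintype.mem_piFinset.mp hh1.1) j0, ?_⟩
        rw [← hkey h hb]
        exact hh1.2
      · intro h hh h' hh' heq
        rw [mem_coe, mem_filter] at hh hh'
        funext j
        by_cases hj : j = j0
        · rw [hj]
          exact heq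
        · have h1 := congrFun hh.2 j
          have h2 := congrFun hh'.2 j
          rw [Function.update_of_ne hj] at h1 h2
          rw [h1, h2]
    have hch := cheb (Icc (-(H : ℤ)) H) (fun t => ∑ n ∈ Icc (1 : ℤ) x, F n * mz (n + t)) ((x : ℝ) / L ^ A)
      (H * (x : ℝ) ^ 2 / L ^ (3 * A + 1)) (by positivity) (hlin H hH1 hH2 F hF1)
    refine le_trans (by exact_mod_cast hinj) (hch.trans (le_of_eq ?_))
    have e1 : L ^ (3 * A + 1) = L ^ (A + 1) * (L ^ A) ^ 2 := by
      rw [← pow_mul, ← pow_add]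
      congr 1
      ring
    rw [e1, div_pow]
    have hLA : L ^ A ≠ 0 := by positivity
    have hLA1 : L ^ (A + 1) ≠ 0 := by positivity
    field_simp
  have hTcard : (T.card : ℝ) ≤ (3 * (H : ℝ)) ^ (r - 1) := by
    have h1 : T.card = (2 * H + 1) ^ (r - 1) := by
      rw [hT, Fintype.card_piFinset, ← Finset.mul_prod_erase univ _ (mem_univ j0)]
      rw [if_pos rfl, card_singleton, one_mul]
      rw [Finset.prod_congr rfl (g := fun _ => 2 * H + 1)]
      · rw [Finset.prod_const, card_erase_of_mem (mem_univ j0), card_univ, Fintype.card_fin]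
      · intro j hj
        rw [if_neg (mem_erase.mp hj).1, Int.card_Icc]
        omega
    rw [h1]
    push_cast
    refine pow_le_pow_left₀ (by positivity) ?_ _
    have : (1 : ℝ) ≤ H := by exact_mod_cast hHN
    linarith
  have hsum : (bad.card : ℝ) ≤ (3 * (H : ℝ)) ^ (r - 1) * ((H : ℝ) / L ^ (A + 1)) := by
    rw [Finset.card_eq_sum_card_fiberwise hmaps]
    push_cast
    calc ∑ b ∈ T, ((bad.filter (fun h => Function.update h j0 0 = b)).card : ℝ)
        ≤ ∑ _b ∈ T, (H : ℝ) / L ^ (A + 1) := sum_le_sum hfib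
      _ = T.card * ((H : ℝ) / L ^ (A + 1)) := by rw [sum_const, nsmul_eq_mul]
      _ ≤ _ := mul_le_mul_of_nonneg_right hTcard (by positivity)
  refine hsum.trans ?_
  have e2 : (3 * (H : ℝ)) ^ (r - 1) * ((H : ℝ) / L ^ (A + 1)) = (3 : ℝ) ^ (r - 1) * (H : ℝ) ^ r / (L ^ A * L) := by
    have : (H : ℝ) ^ r = (H : ℝ) ^ (r - 1) * H := by
      rw [← pow_succ]
      congr 1
      omega
    rw [this, mul_pow, pow_succ]
    ring
  rw [e2, div_le_div_iff₀ (by positivity) (by positivity)]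
  have h3 : (3 : ℝ) ^ (r - 1) ≤ L := by
    refine le_trans (pow_le_pow_right₀ (by norm_num) ?_) hL
    omega
  have h4 : 0 ≤ (H : ℝ) ^ r * L ^ A := by positivity
  nlinarith [mul_le_mul_of_nonneg_right h3 h4]

end Pool.Agent.MCP
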